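import Pool.Agent.helper17.EXC.Facts

/-!
# The groups `E₆(q)`, `E₇(q)`, `E₈(q)` with short names, and the bounds (MP_561ff4_al)
-/

set_option autoImplicit false

namespace Pool.Agent.EXN

open Pool.Agent.EXC

instance isC_E6 : IsC CartanMatrix.E₆ := f_DE6.1
instance isC_E7 : IsC CartanMatrix.E₇ := f_DE7.1
instance isC_E8 : IsC CartanMatrix.E₈ := f_DE8.1

section
variable {n : ℕ} (C : Matrix (Fin n) (Fin n) ℤ) [IsC C] (F : Type) [Field F]

/-- the group of the invertible `F`-linear maps of the Chevalley Lie algebra `Lm C F` -/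
def GLm : Type := Lm C F ≃ₗ[F] Lm C F

noncomputable instance instGroupGLm : Group (GLm C F) := LinearEquiv.automorphismGroup (R := F) (M := Lm C F)

/-- the adjoint Chevalley group as a subgroup of `GLm C F`: it is generated by the root elements `x_α(t)` -/
def Gad : Subgroup (GLm C F) := GE C F

/-- the adjoint Chevalley group -/
def Chev : Type := ↥(Gad C F)

noncomputable instance instGroupChev : Group (Chev C F) := (Gad C F).toGroup

end

/-- The bounds for `β_{r,S}(x)`, `q` a natural number: for every prime `r` which divides `q (q⁴ - 1) (q⁶ - 1)`, in particular for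
`r = 3`, `r = 5` and `r = 7`. -/
def Bounds {S : Type} [Group S] (q : ℕ) (x : MulAut S) : Prop :=
  ∀ r : ℕ, r.Prime → (r ∣ q * (q ^ 4 - 1) * (q ^ 6 - 1) ∨ r = 3 ∨ r = 5 ∨ r = 7) →
    ∃ β, IsLeast (Pool.Agent.GS.CSet r x) β ∧ (r ∣ q → β ≤ 2) ∧ (r ∣ q ^ 4 - 1 → β ≤ 4) ∧
      (r ∣ q ^ 6 - 1 → β ≤ 6) ∧ (r = 3 → β ≤ 3) ∧ (5 ≤ r → β ≤ r - 1)

end Pool.Agent.EXN
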