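import Pool.Agent.helper17.EXC.Spec

set_option autoImplicit false

open Finset

namespace Pool.Agent.EXC

theorem DE8_ip (v : Fin 8 → ℤ) : 60 * ip CartanMatrix.E₈ v v = 30 * (2 * v 0 - v 2) ^ 2 + 10 * (3 * v 2 - 2 * v 3) ^ 2 +
    30 * (2 * v 1 - v 3) ^ 2 + 30 * (2 * v 7 - v 6) ^ 2 + 10 * (3 * v 6 - 2 * v 5) ^ 2 + 5 * (4 * v 5 - 3 * v 4) ^ 2 +
    3 * (5 * v 4 - 4 * v 3) ^ 2 + 2 * v 3 ^ 2 := by
  simp [ip, Fin.sum_univ_eight, CartanMatrix.E₈]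
  ring

theorem DE8_pos (v : Fin 8 → ℤ) (hv : v ≠ 0) : 0 < ip CartanMatrix.E₈ v v := by
  by_contra hc
  have h := DE8_ip v
  have h0 := sq_nonneg (2 * v 0 - v 2)
  have h1 := sq_nonneg (3 * v 2 - 2 * v 3)
  have h2 := sq_nonneg (2 * v 1 - v 3)
  have h3 := sq_nonneg (2 * v 7 - v 6)
  have h4 := sq_nonneg (3 * v 6 - 2 * v 5)
  have h5 := sq_nonneg (4 * v 5 - 3 * v 4)
  have h7 := sq_nonneg (5 * v 4 - 4 * v 3)
  have h6 := sq_nonneg (v 3)
  have e3 : v 3 = 0 := pow_eq_zero_iff (two_ne_zero) |>.mp (by omega)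
  have e4 : 5 * v 4 - 4 * v 3 = 0 := pow_eq_zero_iff (two_ne_zero) |>.mp (by omega)
  have e5 : 4 * v 5 - 3 * v 4 = 0 := pow_eq_zero_iff (two_ne_zero) |>.mp (by omega)
  have e6 : 3 * v 6 - 2 * v 5 = 0 := pow_eq_zero_iff (two_ne_zero) |>.mp (by omega)
  have e7 : 2 * v 7 - v 6 = 0 := pow_eq_zero_iff (two_ne_zero) |>.mp (by omega)
  have e1 : 2 * v 1 - v 3 = 0 := pow_eq_zero_iff (two_ne_zero) |>.mp (by omega)
  have e2 : 3 * v 2 - 2 * v 3 = 0 := pow_eq_zero_iff (two_ne_zero) |>.mp (by omega)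
  have e0 : 2 * v 0 - v 2 = 0 := pow_eq_zero_iff (two_ne_zero) |>.mp (by omega)
  apply hv
  funext i
  fin_cases i
  · show v 0 = 0
    omega
  · show v 1 = 0
    omega
  · show v 2 = 0
    omega
  · show v 3 = 0
    omega
  · show v 4 = 0
    omega
  · show v 5 = 0
    omega
  · show v 6 = 0
    omega
  · show v 7 = 0
    omega

theorem DE8 : DE8_stmt := by
  refine ⟨⟨by decide +kernel, by decide +kernel, by decide +kernel, DE8_pos⟩, ⟨?_, ?_, ?_, ?_, ?_, ?_⟩⟩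
  · decide +kernel
  · decide +kernel
  · unfold Conn
    decide +kernel
  · unfold Conn
    decide +kernel
  · have h : ∀ a b : Fin 5, a < b → (![0, 2, 3, 4, 5] : Fin 5 → Fin 8) a < (![0, 2, 3, 4, 5] : Fin 5 → Fin 8) b := by
      decide +kernel
    exact fun a b hab => h a b hab
  · decide +kernel

end Pool.Agent.EXC
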