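import Pool.Agent.helper17.EXC.SpecRA
import Pool.Agent.helper13.EXC.RFL
import Pool.Agent.helper78.EXC.DIC
import Pool.Agent.helper29.EXC.RFP
import Pool.Agent.helper51.EXC.DOM
import Pool.Agent.helper54.EXC.THT
import Pool.Agent.helper28.EXC.DE6
import Pool.Agent.helper92.EXC.DE7
import Pool.Agent.helper17.EXC.DE8
import Pool.Agent.helper11.EXC.RHO
import Pool.Agent.helper90.EXC.JAC
import Pool.Agent.helper6.EXC.STR
import Pool.Agent.helper9.EXC.INV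
import Pool.Agent.helper41.EXC.XAU
import Pool.Agent.helper67.EXC.EXF
import Pool.Agent.helper74.EXC.ACT
import Pool.Agent.helper3.EXC.COL
import Pool.Agent.helper49.EXC.NRF
import Pool.Agent.helper45.EXC.WPG
import Pool.Agent.helper28.EXC.NBR
import Pool.Agent.helper85.EXC.TSY
import Pool.Agent.helper43.EXC.GEN
import Pool.Agent.helper25.EXC.UIN
import Pool.Agent.helper14.EXC.RKO
import Pool.Agent.helper2.EXC.YST
import Pool.Agent.helper26.EXC.PCL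
import Pool.Agent.helper5.EXC.TPF
import Pool.Agent.helper8.EXC.UNQ
import Pool.Agent.helper53.EXC.THR
import Pool.Agent.helper53.EXC.IMX
import Pool.Agent.helper20.EXC.IMT
import Pool.Agent.helper39.EXC.WUQ
import Pool.Agent.helper24.EXC.NRM
import Pool.Agent.helper60.EXC.FIX
import Pool.Agent.helper68.EXC.GEO
import Pool.Agent.helper3.EXC.COR
import Pool.Agent.helper21.EXC.IOT
import Pool.Agent.helper64.EXC.RMB
import Pool.Agent.helper27.EXC.SLT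
import Pool.Agent.helper27.EXC.LIF
import Pool.Agent.helper34.EXC.CL3
import Pool.Agent.helper21.EXC.PLN
import Pool.Agent.helper61.EXC.CNN
import Pool.Agent.helper39.EXC.RPX
import Pool.Agent.helper31.EXC.PEL
import Pool.Agent.helper15.EXC.IOI
import Pool.Agent.helper15.EXC.CJG
import Pool.Agent.helper27.EXC.KND
import Pool.Agent.helper29.EXC.E2C
import Pool.Agent.helper27.EXC.RBC
import Pool.Agent.helper74.EXC.EIG
import Pool.Agent.helper57.EXC.FL0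
import Pool.Agent.helper60.EXC.FL3
import Pool.Agent.helper93.EXC.FL6
import Pool.Agent.helper27.EXC.LS2
import Pool.Agent.helper7.EXC.L31
import Pool.Agent.helper7.EXC.L61
import Pool.Agent.helper50.EXC.L62
import Pool.Agent.helper18.EXC.GRP
import Pool.Agent.helper7.EXC.PRD
import Pool.Agent.helper80.EXC.BPW
import Pool.Agent.helper80.EXC.BMN
import Pool.Agent.helper92.EXC.DMN
import Pool.Agent.helper51.EXC.UPG
import Pool.Agent.helper42.EXC.FPU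
import Pool.Agent.helper45.EXC.SYL
import Pool.Agent.helper67.EXC.GMN
import Pool.Agent.helper89.EXC.CUB
import Pool.Agent.helper44.EXC.QUN
import Pool.Agent.helper43.EXC.QNF
import Pool.Agent.helper25.EXC.CUX
import Pool.Agent.helper6.EXC.ARA

/-!
# Project EXC (MP_561ff4_al): assembly
-/

set_option autoImplicit false

open Finset

namespace Pool.Agent.EXC

theorem f_RFL : RFL_stmt := RFL
theorem f_DIC : DIC_stmt := DIC
theorem f_RFP : RFP_stmt := RFP f_RFL f_DIC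
theorem f_DOM : DOM_stmt := DOM f_RFL f_DIC
theorem f_THT : THT_stmt := THT f_RFL f_DIC f_DOM
theorem f_DE6 : DE6_stmt := DE6
theorem f_DE7 : DE7_stmt := DE7
theorem f_DE8 : DE8_stmt := DE8
theorem f_RHO : RHO_stmt := RHO
theorem f_JAC : JAC_stmt := JAC
theorem f_STR : STR_stmt := STR
theorem f_INV : INV_stmt := INV
theorem f_XAU : XAU_stmt := XAU f_INV
theorem f_EXF : EXF_stmt := EXF f_JAC f_STR f_INV f_XAU
theorem f_ACT : ACT_stmt := ACT
theorem f_COL : COL_stmt := COL f_JAC f_STR f_INV f_XAU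
theorem f_NRF : NRF_stmt := NRF f_EXF f_ACT f_RFL
theorem f_WPG : WPG_stmt := WPG f_NRF f_RFL
theorem f_NBR : NBR_stmt := NBR f_RFL f_DOM
theorem f_TSY : TSY_stmt := TSY f_NBR f_WPG f_RFL
theorem f_GEN : GEN_stmt := GEN f_DIC f_RFP f_EXF f_ACT f_COL
theorem f_UIN : UIN_stmt := UIN f_RFP f_EXF f_ACT f_COL
theorem f_RKO : RKO_stmt := RKO f_ACT
theorem f_YST : YST_stmt := YST f_EXF f_GEN f_UIN f_RKO
theorem f_PCL : PCL_stmt := PCL f_EXF f_ACT f_YST f_NBR f_WPG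
theorem f_TPF : TPF_stmt := TPF f_EXF f_ACT f_COL f_INV
theorem f_UNQ : UNQ_stmt := UNQ f_EXF f_PCL f_ACT f_NBR
theorem f_THR : THR_stmt := THR f_EXF f_PCL f_UNQ f_ACT f_COL f_TPF f_NBR
theorem f_IMX : IMX_stmt := IMX f_EXF f_UNQ f_NBR
theorem f_IMT : IMT_stmt := IMT f_PCL f_TPF f_THR f_IMX f_EXF f_NBR f_UNQ
theorem f_WUQ : WUQ_stmt := WUQ
theorem f_NRM : NRM_stmt := NRM f_EXF f_ACT
theorem f_FIX : FIX_stmt := FIX f_EXF f_UNQ f_NRM f_NBR
theorem f_GEO : GEO_stmt := GEO f_PCL f_TPF f_IMX f_IMT f_WUQ f_FIX f_UNQ f_ACT f_EXF f_NBR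
theorem f_COR : COR_stmt := COR
theorem f_IOT : IOT_stmt := IOT f_RHO
theorem f_RMB : RMB_stmt := RMB f_IOT f_RHO
theorem f_SLT : SLT_stmt := SLT
theorem f_LIF : LIF_stmt := LIF f_RMB f_SLT f_RHO f_EXF f_NBR
theorem f_CL3 : CL3_stmt := CL3 f_RHO f_EXF f_ACT f_COL f_XAU f_NBR f_WPG f_LIF
theorem f_PLN : PLN_stmt := PLN f_CL3 f_COR f_IMX f_IMT f_TPF f_PCL f_COL f_UNQ f_EXF f_ACT f_NBR
theorem f_CNN : CNN_stmt := CNN f_EXF f_ACT f_NBR f_WPG f_RFL f_TPF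
theorem f_RPX : RPX_stmt := RPX f_PLN f_CNN f_IMX f_IMT f_TPF f_PCL f_FIX f_EXF f_UNQ f_INV f_TSY f_NBR
theorem f_PEL : PEL_stmt := PEL f_EXF f_ACT f_COL f_TPF
theorem f_IOI : IOI_stmt := IOI f_RHO
theorem f_CJG : CJG_stmt := CJG
theorem f_KND : KND_stmt := KND
theorem f_E2C : E2C_stmt := E2C
theorem f_RBC : RBC_stmt := RBC
theorem f_EIG : EIG_stmt := EIG
theorem f_FL0 : FL0_stmt := FL0
theorem f_FL3 : FL3_stmt := FL3 f_FL0
theorem f_FL6 : FL6_stmt := FL6 f_FL0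
theorem f_LS2 : LS2_stmt := LS2 f_FL0 f_E2C f_RBC f_KND f_EIG
theorem f_L31 : L31_stmt := L31 f_FL0 f_FL3 f_E2C f_RBC f_KND f_EIG
theorem f_L61 : L61_stmt := L61 f_FL0 f_FL6 f_E2C f_RBC f_KND f_EIG
theorem f_L62 : L62_stmt := L62 f_FL0 f_FL6 f_RBC f_EIG
theorem f_GRP : GRP_stmt := GRP
theorem f_PRD : PRD_stmt := PRD f_RHO f_RMB f_LIF f_CJG f_KND f_IOI f_FIX f_WPG f_THT f_NBR f_TPF f_EXF f_UNQ
theorem f_BPW : BPW_stmt := BPW f_RPX f_PEL f_FIX f_EXF f_GRP f_NBR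
theorem f_BMN : BMN_stmt := BMN f_GEO f_PRD f_GRP f_LS2 f_L31 f_L61 f_L62
theorem f_DMN : DMN_stmt := DMN f_DIC
theorem f_UPG : UPG_stmt := UPG f_ACT
theorem f_FPU : FPU_stmt := FPU f_EXF f_YST f_ACT f_DMN f_NBR
theorem f_SYL : SYL_stmt := SYL f_EXF f_FPU f_UPG f_NBR
theorem f_GMN : GMN_stmt := GMN f_EXF f_DMN f_DIC f_NBR
theorem f_CUB : CUB_stmt := CUB f_EXF f_UNQ f_YST f_FPU f_DMN f_NBR
theorem f_QUN : QUN_stmt := QUN f_EXF f_ACT f_COL f_DMN f_NBR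
theorem f_QNF : QNF_stmt := QNF f_EXF f_ACT f_COL f_NBR
theorem f_CUX : CUX_stmt := CUX f_CUB f_QUN f_QNF f_GMN f_EXF f_ACT f_DMN f_NBR
theorem f_ARA : ARA_stmt := ARA f_UPG f_SYL f_CUX f_EXF f_DMN f_NBR f_WPG

/-! ## The final theorem -/

instance isC_E6 : IsC CartanMatrix.E₆ := f_DE6.1
instance isC_E7 : IsC CartanMatrix.E₇ := f_DE7.1
instance isC_E8 : IsC CartanMatrix.E₈ := f_DE8.1

theorem ordbd {r q : ℕ} (hr : r.Prime) (h5 : 5 ≤ r) (h6 : r ∣ q ^ 6 - 1) (hq : ¬ r ∣ q ^ 4 - 1) (h1 : 1 ≤ q) : 7 ≤ r := by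
  by_contra hlt
  have hr5 : r = 5 := by
    have : r < 7 := by omega
    interval_cases r
    · rfl
    · exact absurd hr (by norm_num)
  subst hr5
  have hq5 : ¬ 5 ∣ q := by
    intro hd
    have h7 : 5 ∣ q ^ 6 := dvd_pow hd (by norm_num)
    have h8 : 5 ∣ q ^ 6 - (q ^ 6 - 1) := Nat.dvd_sub h7 h6
    have h9 : q ^ 6 - (q ^ 6 - 1) = 1 := by have := Nat.one_le_pow 6 q h1; omega
    rw [h9] at h8
    omega
  apply hq
  have h10 : (q : ZMod 5) ^ 4 = 1 := by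
    have h11 : (q : ZMod 5) ≠ 0 := by
      intro h0
      exact hq5 ((ZMod.natCast_eq_zero_iff q 5).1 h0)
    revert h11
    generalize (q : ZMod 5) = z
    revert z
    decide
  have h12 : ((q ^ 4 - 1 : ℕ) : ZMod 5) = 0 := by
    rw [Nat.cast_sub (Nat.one_le_pow 4 q h1)]
    push_cast
    rw [h10, sub_self]
  exact (ZMod.natCast_eq_zero_iff _ 5).1 h12

theorem ntd {r q : ℕ} (hr : r.Prime) (k : ℕ) (hk : k ≠ 0) (h : r ∣ q ^ k - 1) (h1 : 1 ≤ q) : ¬ r ∣ q := by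
  intro hd
  have h7 : r ∣ q ^ k := dvd_pow hd hk
  have h8 : r ∣ q ^ k - (q ^ k - 1) := Nat.dvd_sub h7 h
  have h9 : q ^ k - (q ^ k - 1) = 1 := by have := Nat.one_le_pow k q h1; omega
  rw [h9] at h8
  exact hr.one_lt.ne' (Nat.dvd_one.1 h8)

theorem dvd4_of_2 {r q : ℕ} (h : r ∣ q ^ 2 - 1) : r ∣ q ^ 4 - 1 := by
  have h2 : q ^ 2 - 1 ∣ q ^ 4 - 1 := by
    have := Nat.sub_dvd_pow_sub_pow (q ^ 2) 1 2
    simpa [← pow_mul] using this
  exact h.trans h2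

theorem dvd57 {r q : ℕ} (hr : r = 5 ∨ r = 7) : r ∣ q * (q ^ 4 - 1) * (q ^ 6 - 1) := by
  rcases Nat.eq_zero_or_pos q with h0 | h1
  · subst h0; simp
  rcases hr with hr | hr
  · subst hr
    by_cases hq : 5 ∣ q
    · exact Dvd.dvd.mul_right (Dvd.dvd.mul_right hq _) _
    have h10 : (q : ZMod 5) ^ 4 = 1 := by
      have h11 : (q : ZMod 5) ≠ 0 := fun h0 => hq ((ZMod.natCast_eq_zero_iff q 5).1 h0)
      revert h11
      generalize (q : ZMod 5) = z
      revert z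
      decide
    have h12 : ((q ^ 4 - 1 : ℕ) : ZMod 5) = 0 := by
      rw [Nat.cast_sub (Nat.one_le_pow 4 q h1)]
      push_cast
      rw [h10, sub_self]
    exact Dvd.dvd.mul_right (Dvd.dvd.mul_left ((ZMod.natCast_eq_zero_iff _ 5).1 h12) _) _
  · subst hr
    by_cases hq : 7 ∣ q
    · exact Dvd.dvd.mul_right (Dvd.dvd.mul_right hq _) _
    have h10 : (q : ZMod 7) ^ 6 = 1 := by
      have h11 : (q : ZMod 7) ≠ 0 := fun h0 => hq ((ZMod.natCast_eq_zero_iff q 7).1 h0)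
      revert h11
      generalize (q : ZMod 7) = z
      revert z
      decide
    have h12 : ((q ^ 6 - 1 : ℕ) : ZMod 7) = 0 := by
      rw [Nat.cast_sub (Nat.one_le_pow 6 q h1)]
      push_cast
      rw [h10, sub_self]
    exact Dvd.dvd.mul_left ((ZMod.natCast_eq_zero_iff _ 7).1 h12) _

/-- The bounds for `β_{r,S}(x)`, `q` a natural number: for every prime `r ∣ q (q⁴ - 1) (q⁶ - 1)`, in particular for `r = 5, 7`. -/
def Bounds {S : Type} [Group S] (q : ℕ) (x : MulAut S) : Prop :=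
  ∀ r : ℕ, r.Prime → (r ∣ q * (q ^ 4 - 1) * (q ^ 6 - 1) ∨ r = 5 ∨ r = 7) →
    ∃ β, IsLeast (Pool.Agent.GS.CSet r x) β ∧ (r ∣ q → β ≤ 2) ∧ (r ∣ q ^ 4 - 1 → β ≤ 4) ∧
      (r ∣ q ^ 6 - 1 → β ≤ 6) ∧ (5 ≤ r → β ≤ r - 1)

theorem bd_of {n : ℕ} (C : Matrix (Fin n) (Fin n) ℤ) [IsC C] (j0 : Fin n) (θ : Fin n → ℤ) (δ : Fin 5 → Fin n) (h : IsE C j0 θ δ)
    (F : Type) [Field F] [Finite F] (x : MulAut (EG C F)) (h1 : x ≠ 1) : Bounds (Nat.card F) x := by
  intro r hr hd'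
  have hd : r ∣ Nat.card F * (Nat.card F ^ 4 - 1) * (Nat.card F ^ 6 - 1) := hd'.elim id dvd57
  have hx : RA C x := f_ARA n C F j0 θ δ h x
  have hq1 : 1 ≤ Nat.card F := Nat.one_le_iff_ne_zero.2 Nat.card_pos.ne'
  have hB : (r ∣ Nat.card F → 2 ∈ Pool.Agent.GS.CSet r x) := by
    intro hq
    obtain ⟨p, hp⟩ := CharP.exists F
    have := hp
    have : Fintype F := Fintype.ofFinite F
    obtain ⟨m, hpp, hm⟩ := FiniteField.card F p
    rw [Nat.card_eq_fintype_card, hm] at hq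
    have : r = p := (Nat.prime_dvd_prime_iff_eq hr hpp).1 (hr.dvd_of_dvd_pow hq)
    subst this
    exact f_BPW n C F j0 θ δ h x hx h1 r hr hp
  have hM : r ∣ Nat.card F ^ 4 - 1 → 4 ∈ Pool.Agent.GS.CSet r x := fun h4 =>
    (f_BMN n C F j0 θ δ h x hx h1 r hr (ntd hr 4 (by norm_num) h4 hq1)).1 h4
  have hN : r ∣ Nat.card F ^ 6 - 1 → ¬ r ∣ Nat.card F ^ 4 - 1 → 6 ∈ Pool.Agent.GS.CSet r x := fun h6 h4 =>
    (f_BMN n C F j0 θ δ h x hx h1 r hr (ntd hr 6 (by norm_num) h6 hq1)).2 h6 (fun h2 => h4 (dvd4_of_2 h2))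
  have hne : (Pool.Agent.GS.CSet r x).Nonempty := by
    rcases (Nat.Prime.dvd_mul hr).1 hd with h' | h6
    · rcases (Nat.Prime.dvd_mul hr).1 h' with hq | h4
      · exact ⟨2, hB hq⟩
      · exact ⟨4, hM h4⟩
    · by_cases h4 : r ∣ Nat.card F ^ 4 - 1
      · exact ⟨4, hM h4⟩
      · exact ⟨6, hN h6 h4⟩
  have hl : IsLeast (Pool.Agent.GS.CSet r x) (sInf (Pool.Agent.GS.CSet r x)) :=
    ⟨Nat.sInf_mem hne, fun k hk => Nat.sInf_le hk⟩
  refine ⟨_, hl, fun hq => hl.2 (hB hq), fun h4 => hl.2 (hM h4), fun h6 => ?_, fun h5 => ?_⟩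
  · by_cases h4 : r ∣ Nat.card F ^ 4 - 1
    · exact (hl.2 (hM h4)).trans (by norm_num)
    · exact hl.2 (hN h6 h4)
  · rcases (Nat.Prime.dvd_mul hr).1 hd with h' | h6
    · rcases (Nat.Prime.dvd_mul hr).1 h' with hq | h4
      · exact (hl.2 (hB hq)).trans (by omega)
      · exact (hl.2 (hM h4)).trans (by omega)
    · by_cases h4 : r ∣ Nat.card F ^ 4 - 1
      · exact (hl.2 (hM h4)).trans (by omega)
      · have := ordbd hr h5 h6 h4 hq1
        exact (hl.2 (hN h6 h4)).trans (by omega)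

theorem ALL (F : Type) [Field F] [Finite F] :
    (∀ x : MulAut (EG CartanMatrix.E₆ F), x ≠ 1 → Bounds (Nat.card F) x) ∧
    (∀ x : MulAut (EG CartanMatrix.E₇ F), x ≠ 1 → Bounds (Nat.card F) x) ∧
    ∀ x : MulAut (EG CartanMatrix.E₈ F), x ≠ 1 → Bounds (Nat.card F) x :=
  ⟨fun x => bd_of _ _ _ _ f_DE6.2 F x, fun x => bd_of _ _ _ _ f_DE7.2 F x, fun x => bd_of _ _ _ _ f_DE8.2 F x⟩

/-! ## The groups, with short names -/

section
variable {n : ℕ} (C : Matrix (Fin n) (Fin n) ℤ) [IsC C] (F : Type) [Field F]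

/-- the group of the invertible `F`-linear maps of the Chevalley Lie algebra `Lm C F` -/
def GLm : Type := Lm C F ≃ₗ[F] Lm C F

noncomputable instance instGroupGLm : Group (GLm C F) := LinearEquiv.automorphismGroup (R := F) (M := Lm C F)

/-- the adjoint Chevalley group as a subgroup of `GLm C F`: it is generated by the root elements `x_α(t)` -/
def Gad : Subgroup (GLm C F) := GE C F

/-- the adjoint Chevalley group -/
def Chev : Type := ↥(Gad C F)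

noncomputable instance instGroupChev : Group (Chev C F) := (Gad C F).toGroup

end

theorem ALL_Chev (F : Type) [Field F] [Finite F] :
    (∀ x : MulAut (Chev CartanMatrix.E₆ F), x ≠ 1 → Bounds (Nat.card F) x) ∧
    (∀ x : MulAut (Chev CartanMatrix.E₇ F), x ≠ 1 → Bounds (Nat.card F) x) ∧
    ∀ x : MulAut (Chev CartanMatrix.E₈ F), x ≠ 1 → Bounds (Nat.card F) x :=
  ALL F

end Pool.Agent.EXC

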