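import Pool.Agent.helper32.EXC.Spec11

/-!
# Row `en11:CV8`: the vectors `c8 i` as lists
-/

set_option autoImplicit false

open Finset

namespace Pool.Agent.EXC

section
variable [IsC CartanMatrix.E₈] {F : Type} [Field F]

theorem T11CV8_step (hT11XRL : T11XRL_stmt) (hT11XGS : T11XGS_stmt)
    (hβ : ∀ α, ip CartanMatrix.E₈ α α = 2 → ∃ β, ip CartanMatrix.E₈ β β = 2 ∧ ip CartanMatrix.E₈ α β = -1)
    (k : Fin 15) (t : ℤ) (l : List ((Fin 8 → ℤ) × ℤ)) (h : okl (lt8 k) l) :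
    XG CartanMatrix.E₈ (lt8 k) (t : F) (ls CartanMatrix.E₈ l) = (ls CartanMatrix.E₈ (xr CartanMatrix.E₈ (lt8 k) t l) : Lm CartanMatrix.E₈ F) := by
  have h1 := (hT11XGS 8 CartanMatrix.E₈ F hβ (lt8 k) (lt8_root k) (t : F)).1
  rw [h1]
  exact (hT11XRL 8 CartanMatrix.E₈ F (lt8 k) t l (lt8_root k) h).1

theorem T11CV8_gen (hT11XRL : T11XRL_stmt) (hT11XGS : T11XGS_stmt)
    (hβ : ∀ α, ip CartanMatrix.E₈ α α = 2 → ∃ β, ip CartanMatrix.E₈ β β = 2 ∧ ip CartanMatrix.E₈ α β = -1)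
    (init : List ((Fin 8 → ℤ) × ℤ)) (l : List (Fin 15 × ℤ))
    (h : ∀ j, j < l.length → ∀ p ∈ (l.drop j).head?, okl (lt8 p.1) ((l.drop (j + 1)).foldr (fun p l => xr CartanMatrix.E₈ (lt8 p.1) p.2 l) init)) :
    gw8 F l (ls CartanMatrix.E₈ init) = (ls CartanMatrix.E₈ (l.foldr (fun p l => xr CartanMatrix.E₈ (lt8 p.1) p.2 l) init) : Lm CartanMatrix.E₈ F) := by
  induction l with
  | nil => rfl
  | cons p l ih =>
    have e1 : gw8 F (p :: l) (ls CartanMatrix.E₈ init) = XG CartanMatrix.E₈ (lt8 p.1) (p.2 : F) (gw8 F l (ls CartanMatrix.E₈ init)) := by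
      unfold gw8
      rw [List.map_cons, List.prod_cons]
      rfl
    rw [e1, ih fun j hj q hq => h (j + 1) (by simpa using hj) q hq]
    exact T11CV8_step hT11XRL hT11XGS hβ p.1 p.2 _ (h 0 (by simp) p (by simp))

omit [IsC CartanMatrix.E₈] in
theorem T11CV8_len : ∀ i, (wd8 i).length ≤ 3 := by decide +kernel

omit [IsC CartanMatrix.E₈] in
theorem T11CV8_rt : ∀ i, ∀ p ∈ cl8 i, ip CartanMatrix.E₈ p.1 p.1 = 2 := by decide +kernel

theorem T11CV8_ls (hT11XRL : T11XRL_stmt) (hT11XGS : T11XGS_stmt)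
    (hβ : ∀ α, ip CartanMatrix.E₈ α α = 2 → ∃ β, ip CartanMatrix.E₈ β β = 2 ∧ ip CartanMatrix.E₈ α β = -1) (i : Fin 5) :
    c8 F i = (sb8 i : F) • (ls CartanMatrix.E₈ (cl8 i) : Lm CartanMatrix.E₈ F) := by
  have e1 : (E CartanMatrix.E₈ (lt8 (bs8 i)) : Lm CartanMatrix.E₈ F) = ls CartanMatrix.E₈ [(lt8 (bs8 i), 1)] := by
    simp [ls]
  have e2 := T11CV8_gen (F := F) hT11XRL hT11XGS hβ [(lt8 (bs8 i), 1)] (wd8 i) (fun j hj p hp =>
    cl8_ok i ⟨j, lt_of_lt_of_le hj (T11CV8_len i)⟩ p hp)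
  unfold c8
  rw [e1, e2]
  rfl

end

theorem T11CV8 (hT11XRL : T11XRL_stmt) (hT11FML : T11FML_stmt) (hT11XGS : T11XGS_stmt) : T11CV8_stmt := by
  intro _ F _ hβ
  have hc := fun i => T11CV8_ls (F := F) hT11XRL hT11XGS hβ i
  have hfm := (hT11FML 8 CartanMatrix.E₈ F (cl8 0) (cl8 1) (T11CV8_rt 0) (T11CV8_rt 1)).1
  have hcf : ∀ i γ, cf (ls CartanMatrix.E₈ (cl8 i) : Lm CartanMatrix.E₈ F) γ = (cfl (cl8 i) γ : F) := fun i γ =>
    (hT11FML 8 CartanMatrix.E₈ F (cl8 i) (cl8 i) (T11CV8_rt i) (T11CV8_rt i)).2 γ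
  refine ⟨?_, ?_, ?_⟩
  · rw [hc 0, hc 1, fm_smul_left, fm_smul_right, hfm, ← mul_assoc, ← Int.cast_mul, ← Int.cast_mul, fml8, Int.cast_one]
  · intro κ h
    have h1 := congrArg (fun v => cf v ![0, -1, -1, -2, -2, -2, -1, 0]) h
    simp only [hc, cf_smul, hcf, cfl8.1, cfl8.2.1] at h1
    simp [sb8] at h1
  · intro κ h
    have h1 := congrArg (fun v => cf v ![0, 0, 0, 0, 0, 1, 0, 0]) h
    simp only [hc, cf_smul, hcf, cfl8.2.2.1, cfl8.2.2.2] at h1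
    simp [sb8] at h1

end Pool.Agent.EXC
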