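import Pool.Agent.helper17.EXC.Facts
import Pool.Agent.helper19.EXC.T11TPR
import Pool.Agent.helper9.EXC.T11XGS
import Pool.Agent.helper30.EXC.T11CNJ
import Pool.Agent.helper15.EXC.T11RK1
import Pool.Agent.helper79.EXC.T11BEX
import Pool.Agent.helper39.EXC.T11SGL
import Pool.Agent.helper8.EXC.T11YCL
import Pool.Agent.helper64.EXC.T11GR2
import Pool.Agent.helper33.EXC.T11XRL
import Pool.Agent.helper52.EXC.T11FML
import Pool.Agent.helper48.EXC.T11LA8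
import Pool.Agent.helper31.EXC.T11TR8
import Pool.Agent.helper84.EXC.T11WA8
import Pool.Agent.helper49.EXC.T11TE8
import Pool.Agent.helper17.EXC.T11CV8
import Pool.Agent.helper69.EXC.T11MI8
import Pool.Agent.helper25.EXC.T11OR8
import Pool.Agent.helper29.EXC.T11ZM1
import Pool.Agent.helper44.EXC.T11ZM2
import Pool.Agent.helper43.EXC.T11

/-!
# Project EXC (MP_561ff4_al): assembly of the block `r = 11` in `E₈(q)`
-/

set_option autoImplicit false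

open Finset

namespace Pool.Agent.EXC

theorem f_T11TPR : T11TPR_stmt := T11TPR f_NBR f_WPG f_RFL
theorem f_T11XGS : T11XGS_stmt := T11XGS f_EXF f_XAU
theorem f_T11CNJ : T11CNJ_stmt := T11CNJ f_THT f_NBR f_WPG f_RHO f_LIF f_EXF
theorem f_T11RK1 : T11RK1_stmt := T11RK1 f_NBR f_RHO f_LIF f_EXF
theorem f_T11BEX : T11BEX_stmt := T11BEX f_T11RK1 f_IOT f_RHO f_THT f_NBR f_WPG f_PCL f_TPF f_RFL f_EXF
theorem f_T11SGL : T11SGL_stmt := T11SGL f_EXF f_COL f_ACT f_XAU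
theorem f_T11YCL : T11YCL_stmt := T11YCL f_NBR f_GEO f_EXF f_TPF f_TSY f_XAU
theorem f_T11GR2 : T11GR2_stmt := T11GR2
theorem f_T11XRL : T11XRL_stmt := T11XRL f_ACT
theorem f_T11FML : T11FML_stmt := T11FML
theorem f_T11LA8 : T11LA8_stmt := T11LA8 f_ACT
theorem f_T11TR8 : T11TR8_stmt := T11TR8 f_ACT
theorem f_T11WA8 : T11WA8_stmt := T11WA8 f_T11LA8 f_T11XGS
theorem f_T11TE8 : T11TE8_stmt := T11TE8 f_T11WA8 f_T11XGS f_EXF f_XAU
theorem f_T11CV8 : T11CV8_stmt := T11CV8 f_T11XRL f_T11FML f_T11XGS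
theorem f_T11MI8 : T11MI8_stmt := T11MI8 f_NBR f_T11TPR f_T11TR8 f_T11WA8 f_TPF f_T11XGS f_XAU f_EXF
theorem f_T11OR8 : T11OR8_stmt := T11OR8 f_T11WA8
theorem f_T11ZM1 : T11ZM1_stmt := T11ZM1 f_NBR f_T11TE8 f_T11MI8 f_T11OR8 f_T11WA8 f_TPF f_EXF
theorem f_T11ZM2 : T11ZM2_stmt := T11ZM2 f_NBR f_T11TE8 f_T11CV8 f_T11OR8 f_T11WA8 f_T11BEX f_T11SGL f_PCL f_TPF f_EXF f_XAU
theorem f_T11 : T11_stmt := T11 f_NBR f_T11YCL f_T11CNJ f_T11GR2 f_T11ZM1 f_T11ZM2 f_DE8 f_FIX f_EXF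

end Pool.Agent.EXC

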