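import Pool.Agent.helper17.EXC.Defs

/-!
# Project EXC: basic lemmas on the Lie algebra, for free use
-/

set_option autoImplicit false

open Finset

namespace Pool.Agent.EXC

variable {n : ℕ} (C : Matrix (Fin n) (Fin n) ℤ) {F : Type} [Field F]

/-! ## ev -/

theorem ev_add_left (γ γ' : Fin n → ℤ) (h : Fin n → F) : ev C (γ + γ') h = ev C γ h + ev C γ' h := by
  simp only [ev, Pi.add_apply, Int.cast_add, add_mul, Finset.sum_add_distrib]

theorem ev_neg_left (γ : Fin n → ℤ) (h : Fin n → F) : ev C (-γ) h = -ev C γ h := by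
  simp only [ev, Pi.neg_apply, Int.cast_neg, neg_mul, Finset.sum_neg_distrib]

theorem ev_sub_left (γ γ' : Fin n → ℤ) (h : Fin n → F) : ev C (γ - γ') h = ev C γ h - ev C γ' h := by
  rw [sub_eq_add_neg, ev_add_left, ev_neg_left, sub_eq_add_neg]

@[simp] theorem ev_zero_left (h : Fin n → F) : ev C (0 : Fin n → ℤ) h = 0 := by simp [ev]

theorem ev_add_right (γ : Fin n → ℤ) (h h' : Fin n → F) : ev C γ (h + h') = ev C γ h + ev C γ h' := by
  simp only [ev, Pi.add_apply, mul_add, Finset.sum_add_distrib]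

theorem ev_smul_right (γ : Fin n → ℤ) (c : F) (h : Fin n → F) : ev C γ (c • h) = c * ev C γ h := by
  simp only [ev, Pi.smul_apply, smul_eq_mul, Finset.mul_sum]
  exact Finset.sum_congr rfl fun i _ => Finset.sum_congr rfl fun j _ => by ring

@[simp] theorem ev_zero_right (γ : Fin n → ℤ) : ev C γ (0 : Fin n → F) = 0 := by simp [ev]

/-- `γ(h_α) = (γ, α)` -/
theorem ev_coroot (γ α : Fin n → ℤ) : ev C γ (fun i => (α i : F)) = (ip C γ α : F) := by
  simp [ev, ip]

/-! ## signs -/

theorem bf_add_left (u v w : Fin n → ℤ) : bf C (u + v) w = bf C u w + bf C v w := by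
  simp only [bf, Pi.add_apply, add_mul, Finset.sum_add_distrib]
  have : ∀ i j, (if i < j then u i * C i j * w j + v i * C i j * w j else 0) =
      (if i < j then u i * C i j * w j else 0) + if i < j then v i * C i j * w j else 0 := by
    intro i j; split_ifs <;> simp
  simp only [this, Finset.sum_add_distrib]
  ring

theorem bf_add_right (u v w : Fin n → ℤ) : bf C u (v + w) = bf C u v + bf C u w := by
  simp only [bf, Pi.add_apply, mul_add, Finset.sum_add_distrib]
  have : ∀ i j, (if i < j then u i * C i j * v j + u i * C i j * w j else 0) =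
      (if i < j then u i * C i j * v j else 0) + if i < j then u i * C i j * w j else 0 := by
    intro i j; split_ifs <;> simp
  simp only [this, Finset.sum_add_distrib]
  ring

@[simp] theorem bf_zero_left (w : Fin n → ℤ) : bf C 0 w = 0 := by simp [bf]

@[simp] theorem bf_zero_right (w : Fin n → ℤ) : bf C w 0 = 0 := by simp [bf]

theorem bf_neg_left (v w : Fin n → ℤ) : bf C (-v) w = -bf C v w := by
  have := bf_add_left C v (-v) w
  rw [add_neg_cancel, bf_zero_left] at this
  linarith

theorem bf_neg_right (v w : Fin n → ℤ) : bf C v (-w) = -bf C v w := by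
  have := bf_add_right C v w (-w)
  rw [add_neg_cancel, bf_zero_right] at this
  linarith

theorem sg_mul_self (v w : Fin n → ℤ) : sg C v w * sg C v w = 1 := by
  unfold sg; split_ifs <;> simp

theorem sg_cases (v w : Fin n → ℤ) : sg C v w = 1 ∨ sg C v w = -1 := by
  unfold sg; split_ifs <;> simp

theorem sg_ne_zero (v w : Fin n → ℤ) : (sg C v w : F) ≠ 0 := by
  rcases sg_cases C v w with h | h <;> simp [h]

theorem sg_sq (v w : Fin n → ℤ) : (sg C v w : F) * (sg C v w : F) = 1 := by
  have := sg_mul_self C v w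
  exact_mod_cast congrArg (Int.cast : ℤ → F) this

theorem sg_add_left (u v w : Fin n → ℤ) : sg C (u + v) w = sg C u w * sg C v w := by
  unfold sg
  rw [bf_add_left]
  by_cases h1 : Even (bf C u w) <;> by_cases h2 : Even (bf C v w) <;> simp [h1, h2, Int.even_add]

theorem sg_add_right (u v w : Fin n → ℤ) : sg C u (v + w) = sg C u v * sg C u w := by
  unfold sg
  rw [bf_add_right]
  by_cases h1 : Even (bf C u v) <;> by_cases h2 : Even (bf C u w) <;> simp [h1, h2, Int.even_add]

theorem sg_neg_left (v w : Fin n → ℤ) : sg C (-v) w = sg C v w := by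
  unfold sg
  rw [bf_neg_left]
  simp

theorem sg_neg_right (v w : Fin n → ℤ) : sg C v (-w) = sg C v w := by
  unfold sg
  rw [bf_neg_right]
  simp

theorem sg_sub_left (u v w : Fin n → ℤ) : sg C (u - v) w = sg C u w * sg C v w := by
  rw [sub_eq_add_neg, sg_add_left, sg_neg_left]

theorem sg_sub_right (u v w : Fin n → ℤ) : sg C u (v - w) = sg C u v * sg C u w := by
  rw [sub_eq_add_neg, sg_add_right, sg_neg_right]

variable [IsC C]

theorem bf_self_add (v w : Fin n → ℤ) : bf C v w + bf C w v = ip C v w := by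
  have e : ∀ v w : Fin n → ℤ, bf C v w = ∑ i, ∑ j, ((if i = j then v i * w j else 0) + if i < j then v i * C i j * w j else 0) := by
    intro v w
    simp [bf, Finset.sum_add_distrib]
  rw [e v w, e w v, Finset.sum_comm (f := fun i j => ((if i = j then w i * v j else 0) + if i < j then w i * C i j * v j else 0)),
    ← Finset.sum_add_distrib, ip]
  refine Finset.sum_congr rfl fun i _ => ?_
  rw [← Finset.sum_add_distrib]
  refine Finset.sum_congr rfl fun j _ => ?_
  rcases lt_trichotomy i j with h | h | h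
  · simp [h, h.ne, h.ne', not_lt.2 h.le]
  · subst h
    simp [IsC.diag (C := C)]
    ring
  · simp [h, h.ne, h.ne', not_lt.2 h.le, IsC.symm (C := C) j i]
    ring

/-- `ε(v,w) ε(w,v) = (-1)^(v,w)` -/
theorem sg_comm_mul (v w : Fin n → ℤ) : sg C v w * sg C w v = if Even (ip C v w) then 1 else -1 := by
  rw [← bf_self_add C v w]
  unfold sg
  by_cases h1 : Even (bf C v w) <;> by_cases h2 : Even (bf C w v) <;> simp [h1, h2, Int.even_add]

/-- `ε(w,v) = - ε(v,w)` if `(v,w)` is odd -/
theorem sg_comm_odd (v w : Fin n → ℤ) (h : ¬ Even (ip C v w)) : sg C w v = -sg C v w := by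
  have h1 := sg_comm_mul C v w
  rw [if_neg h] at h1
  have h2 := sg_mul_self C v w
  rcases sg_cases C v w with e | e <;> rcases sg_cases C w v with e' | e' <;> simp_all

theorem sg_comm_even (v w : Fin n → ℤ) (h : Even (ip C v w)) : sg C w v = sg C v w := by
  have h1 := sg_comm_mul C v w
  rw [if_pos h] at h1
  rcases sg_cases C v w with e | e <;> rcases sg_cases C w v with e' | e' <;> simp_all

/-- `ε(α,α) = -1` for a root -/
theorem sg_self {α : Fin n → ℤ} (hα : ip C α α = 2) : sg C α α = -1 := by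
  have h := bf_self_add C α α
  have : bf C α α = 1 := by omega
  simp [sg, this]

/-! ## coefficients -/

omit [IsC C] in
theorem Lm_ext {x y : Lm C F} (h1 : x.1 = y.1) (h2 : ∀ γ, ip C γ γ = 2 → cf x γ = cf y γ) : x = y := by
  refine Prod.ext h1 (funext fun γ => ?_)
  have := h2 γ.1 γ.2
  simpa [cf, γ.2] using this

omit [IsC C] in
@[simp] theorem cf_add (x y : Lm C F) (w : Fin n → ℤ) : cf (x + y) w = cf x w + cf y w := by
  unfold cf; split_ifs <;> simp

omit [IsC C] in
@[simp] theorem cf_sub (x y : Lm C F) (w : Fin n → ℤ) : cf (x - y) w = cf x w - cf y w := by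
  unfold cf; split_ifs <;> simp

omit [IsC C] in
@[simp] theorem cf_neg (x : Lm C F) (w : Fin n → ℤ) : cf (-x) w = -cf x w := by
  unfold cf; split_ifs <;> simp

omit [IsC C] in
@[simp] theorem cf_smul (c : F) (x : Lm C F) (w : Fin n → ℤ) : cf (c • x) w = c * cf x w := by
  unfold cf; split_ifs <;> simp

omit [IsC C] in
@[simp] theorem cf_zero (w : Fin n → ℤ) : cf (0 : Lm C F) w = 0 := by
  unfold cf; split_ifs <;> simp

omit [IsC C] in
@[simp] theorem cf_mk_zero (h : Fin n → F) (w : Fin n → ℤ) : cf ((h, 0) : Lm C F) w = 0 := by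
  unfold cf; split_ifs <;> simp

omit [IsC C] in
@[simp] theorem cf_ht (α w : Fin n → ℤ) : cf (ht C α : Lm C F) w = 0 := by
  unfold ht; simp

omit [IsC C] in
theorem cf_eq_zero (x : Lm C F) {w : Fin n → ℤ} (h : ip C w w ≠ 2) : cf x w = 0 := by
  simp [cf, h]

omit [IsC C] in
theorem cf_E {α : Fin n → ℤ} (hα : ip C α α = 2) (w : Fin n → ℤ) : cf (E C α : Lm C F) w = if w = α then 1 else 0 := by
  unfold cf E
  by_cases h : ip C w w = 2
  · by_cases hw : w = α
    · subst hw; simp [h]
    · have : (⟨w, h⟩ : Rt C) ≠ ⟨α, hα⟩ := fun e => hw (congrArg Subtype.val e)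
      simp [h, hα, hw, this]
  · have hw : w ≠ α := fun e => h (e ▸ hα)
    simp [h, hw]

omit [IsC C] in
theorem E_eq_zero {w : Fin n → ℤ} (h : ip C w w ≠ 2) : (E C w : Lm C F) = 0 := by simp [E, h]

omit [IsC C] in
@[simp] theorem E_fst (w : Fin n → ℤ) : (E C w : Lm C F).1 = 0 := by unfold E; split_ifs <;> simp

omit [IsC C] in
@[simp] theorem ht_fst (w : Fin n → ℤ) : (ht C w : Lm C F).1 = fun i => (w i : F) := rfl

omit [IsC C] in
@[simp] theorem ht_snd (w : Fin n → ℤ) : (ht C w : Lm C F).2 = 0 := rfl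

omit [IsC C] in
theorem ht_add (v w : Fin n → ℤ) : (ht C (v + w) : Lm C F) = ht C v + ht C w := by
  ext <;> simp [ht]

omit [IsC C] in
theorem ht_neg (v : Fin n → ℤ) : (ht C (-v) : Lm C F) = -ht C v := by
  ext <;> simp [ht]

omit [IsC C] in
theorem E_ne_zero {α : Fin n → ℤ} (hα : ip C α α = 2) : (E C α : Lm C F) ≠ 0 := by
  intro h
  have := cf_E (F := F) C hα α
  rw [h] at this
  simp at this

/-- an element is the sum of its components -/
theorem Lm_sum (x : Lm C F) : x = (x.1, 0) + ∑ α : Rt C, x.2 α • E C α.1 := by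
  refine Prod.ext ?_ (funext fun γ => ?_)
  · rw [Prod.fst_add, Prod.fst_sum]
    simp
  · rw [Prod.snd_add, Prod.snd_sum]
    simp only [Prod.smul_snd, Pi.add_apply, Pi.zero_apply, zero_add, Finset.sum_apply, Pi.smul_apply, smul_eq_mul]
    rw [Finset.sum_eq_single γ]
    · simp [E, γ.2]
    · intro b _ hb
      simp [E, b.2, Ne.symm hb]
    · simp

/-- induction on elements of the Lie algebra -/
theorem Lm_ind {P : Lm C F → Prop} (hadd : ∀ x y, P x → P y → P (x + y)) (hsmul : ∀ (c : F) x, P x → P (c • x))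
    (hE : ∀ α, ip C α α = 2 → P (E C α)) (hH : ∀ h : Fin n → F, P (h, 0)) (x : Lm C F) : P x := by
  rw [Lm_sum C x]
  refine hadd _ _ (hH _) ?_
  have h0 : P 0 := hH 0
  have : ∀ s : Finset (Rt C), P (∑ α ∈ s, x.2 α • E C α.1) := by
    intro s
    induction s using Finset.induction_on with
    | empty => simpa using h0
    | insert a s ha ih => rw [Finset.sum_insert ha]; exact hadd _ _ (hsmul _ _ (hE _ a.2)) ih
  exact this _

/-! ## the bracket and the form -/

theorem br_fst (x y : Lm C F) : (br C x y).1 = -∑ α : Rt C, (x.2 α * cf y (-α.1)) • fun i => (α.1 i : F) := rfl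

theorem br_cf (x y : Lm C F) {γ : Fin n → ℤ} (hγ : ip C γ γ = 2) : cf (br C x y) γ =
    ev C γ x.1 * cf y γ - ev C γ y.1 * cf x γ + ∑ α : Rt C, (sg C α.1 (γ - α.1) : F) * x.2 α * cf y (γ - α.1) := by
  simp [cf, br, hγ]

theorem br_add_left (x x' y : Lm C F) : br C (x + x') y = br C x y + br C x' y := by
  refine Lm_ext C ?_ fun γ hγ => ?_
  · simp only [Prod.fst_add, br_fst, Prod.snd_add, Pi.add_apply, add_mul, add_smul, Finset.sum_add_distrib]
    abel
  · rw [cf_add, br_cf C _ _ hγ, br_cf C _ _ hγ, br_cf C _ _ hγ]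
    simp only [Prod.fst_add, ev_add_right, cf_add, Prod.snd_add, Pi.add_apply, mul_add, add_mul, Finset.sum_add_distrib]
    ring

theorem br_add_right (x y y' : Lm C F) : br C x (y + y') = br C x y + br C x y' := by
  refine Lm_ext C ?_ fun γ hγ => ?_
  · simp only [Prod.fst_add, br_fst, cf_add, mul_add, add_smul, Finset.sum_add_distrib]
    abel
  · rw [cf_add, br_cf C _ _ hγ, br_cf C _ _ hγ, br_cf C _ _ hγ]
    simp only [Prod.fst_add, ev_add_right, cf_add, mul_add, add_mul, Finset.sum_add_distrib]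
    ring

theorem br_smul_left (c : F) (x y : Lm C F) : br C (c • x) y = c • br C x y := by
  refine Lm_ext C ?_ fun γ hγ => ?_
  · simp only [Prod.smul_fst, br_fst, Prod.smul_snd, Pi.smul_apply, smul_eq_mul, smul_neg, Finset.smul_sum, smul_smul, mul_assoc]
  · rw [cf_smul, br_cf C _ _ hγ, br_cf C _ _ hγ]
    simp only [Prod.smul_fst, ev_smul_right, cf_smul, Prod.smul_snd, Pi.smul_apply, smul_eq_mul, mul_add, mul_sub, Finset.mul_sum]
    congr 1
    · ring
    · exact Finset.sum_congr rfl fun α _ => by ring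

theorem br_smul_right (c : F) (x y : Lm C F) : br C x (c • y) = c • br C x y := by
  refine Lm_ext C ?_ fun γ hγ => ?_
  · simp only [Prod.smul_fst, br_fst, cf_smul, smul_neg, Finset.smul_sum, smul_smul]
    congr 1
    exact Finset.sum_congr rfl fun α _ => by rw [mul_left_comm]
  · rw [cf_smul, br_cf C _ _ hγ, br_cf C _ _ hγ]
    simp only [Prod.smul_fst, ev_smul_right, cf_smul, mul_add, mul_sub, Finset.mul_sum]
    congr 1
    · ring
    · exact Finset.sum_congr rfl fun α _ => by ring

@[simp] theorem br_zero_left (y : Lm C F) : br C 0 y = 0 := by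
  have := br_smul_left C (0 : F) 0 y
  simpa using this

@[simp] theorem br_zero_right (y : Lm C F) : br C y 0 = 0 := by
  have := br_smul_right C (0 : F) y 0
  simpa using this

theorem br_neg_left (x y : Lm C F) : br C (-x) y = -br C x y := by
  have := br_smul_left C (-1 : F) x y
  simpa using this

theorem br_neg_right (x y : Lm C F) : br C x (-y) = -br C x y := by
  have := br_smul_right C (-1 : F) x y
  simpa using this

theorem br_sub_right (x y y' : Lm C F) : br C x (y - y') = br C x y - br C x y' := by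
  rw [sub_eq_add_neg, br_add_right, br_neg_right, sub_eq_add_neg]

theorem br_sub_left (x x' y : Lm C F) : br C (x - x') y = br C x y - br C x' y := by
  rw [sub_eq_add_neg, br_add_left, br_neg_left, sub_eq_add_neg]

theorem fm_add_left (x x' y : Lm C F) : fm C (x + x') y = fm C x y + fm C x' y := by
  simp only [fm, Prod.fst_add, Prod.snd_add, Pi.add_apply, add_mul, Finset.sum_add_distrib]
  ring

theorem fm_add_right (x y y' : Lm C F) : fm C x (y + y') = fm C x y + fm C x y' := by
  simp only [fm, Prod.fst_add, Pi.add_apply, cf_add, mul_add, Finset.sum_add_distrib]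
  ring

theorem fm_smul_left (c : F) (x y : Lm C F) : fm C (c • x) y = c * fm C x y := by
  simp only [fm, Prod.smul_fst, Prod.smul_snd, Pi.smul_apply, smul_eq_mul, mul_add, mul_neg, Finset.mul_sum, mul_assoc]

theorem fm_smul_right (c : F) (x y : Lm C F) : fm C x (c • y) = c * fm C x y := by
  simp only [fm, Prod.smul_fst, Pi.smul_apply, smul_eq_mul, cf_smul, mul_add, mul_neg, Finset.mul_sum]
  congr 1
  · congr 1
    exact Finset.sum_congr rfl fun i _ => Finset.sum_congr rfl fun j _ => by ring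
  · exact Finset.sum_congr rfl fun i _ => by ring

@[simp] theorem fm_zero_left (y : Lm C F) : fm C 0 y = 0 := by
  have := fm_smul_left C (0 : F) 0 y
  simpa using this

@[simp] theorem fm_zero_right (y : Lm C F) : fm C y 0 = 0 := by
  have := fm_smul_right C (0 : F) y 0
  simpa using this

theorem fm_neg_left (x y : Lm C F) : fm C (-x) y = -fm C x y := by
  have := fm_smul_left C (-1 : F) x y
  simpa using this

theorem fm_neg_right (x y : Lm C F) : fm C x (-y) = -fm C x y := by
  have := fm_smul_right C (-1 : F) x y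
  simpa using this

theorem fm_sub_right (x y y' : Lm C F) : fm C x (y - y') = fm C x y - fm C x y' := by
  rw [sub_eq_add_neg, fm_add_right, fm_neg_right, sub_eq_add_neg]

/-- `[E α, y]` -/
theorem br_E {α : Fin n → ℤ} (hα : ip C α α = 2) (y : Lm C F) : (br C (E C α) y).1 = -(cf y (-α)) • (fun i => (α i : F)) ∧
    ∀ γ, ip C γ γ = 2 → cf (br C (E C α) y) γ = -(if γ = α then ev C α y.1 else 0) + (sg C α (γ - α) : F) * cf y (γ - α) := by
  constructor
  · rw [br_fst, Finset.sum_eq_single (⟨α, hα⟩ : Rt C)]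
    · simp [E, hα]
    · intro b _ hb
      have : (E C α : Lm C F).2 b = 0 := by simp [E, hα, hb]
      simp [this]
    · simp
  · intro γ hγ
    rw [br_cf C _ _ hγ, Finset.sum_eq_single (⟨α, hα⟩ : Rt C)]
    · rw [cf_E C hα]
      have : (E C α : Lm C F).2 ⟨α, hα⟩ = 1 := by simp [E, hα]
      rw [this, E_fst]
      by_cases h : γ = α
      · subst h; simp
      · simp [h]
    · intro b _ hb
      have : (E C α : Lm C F).2 b = 0 := by simp [E, hα, hb]
      simp [this]
    · simp

/-- `[E α, E β] = ε(α,β) E (α+β) - [β = -α] h_α` (`E (α+β) = 0` if `α+β` is not a root) -/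
theorem br_E_E {α β : Fin n → ℤ} (hα : ip C α α = 2) (hβ : ip C β β = 2) : (br C (E C α) (E C β) : Lm C F) =
    (sg C α β : F) • E C (α + β) - if β = -α then ht C α else 0 := by
  obtain ⟨h1, h2⟩ := br_E (F := F) C hα (E C β)
  refine Lm_ext C ?_ fun γ hγ => ?_
  · rw [h1, cf_E C hβ]
    by_cases h : β = -α
    · rw [if_pos h.symm, if_pos h]; simp
    · rw [if_neg (fun e => h e.symm), if_neg h]; simp
  · rw [h2 γ hγ, cf_E C hβ, E_fst]
    have e1 : cf (if β = -α then ht C α else 0 : Lm C F) γ = 0 := by split_ifs <;> simp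
    rw [cf_sub, e1, cf_smul]
    by_cases h : γ = α + β
    · have e2 : γ - α = β := by rw [h]; abel
      have hαβ : ip C (α + β) (α + β) = 2 := h ▸ hγ
      rw [e2, cf_E C hαβ, if_pos h]
      simp
    · have e2 : γ - α ≠ β := fun e => h (by rw [← e]; abel)
      have e3 : cf (E C (α + β) : Lm C F) γ = 0 := by
        by_cases hαβ : ip C (α + β) (α + β) = 2
        · rw [cf_E C hαβ, if_neg h]
        · rw [E_eq_zero C hαβ, cf_zero]
      rw [e3]
      simp [e2]

theorem br_E_H {α : Fin n → ℤ} (hα : ip C α α = 2) (h : Fin n → F) : br C (E C α) (h, 0) = -(ev C α h) • (E C α : Lm C F) := by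
  obtain ⟨h1, h2⟩ := br_E (F := F) C hα (h, 0)
  refine Lm_ext C ?_ fun γ hγ => ?_
  · rw [h1]; simp
  · rw [h2 γ hγ, cf_smul, cf_E C hα]
    by_cases e : γ = α <;> simp [e]

theorem br_H_E {β : Fin n → ℤ} (hβ : ip C β β = 2) (h : Fin n → F) : br C (h, 0) (E C β) = ev C β h • (E C β : Lm C F) := by
  refine Lm_ext C ?_ fun γ hγ => ?_
  · rw [br_fst]; simp
  · rw [br_cf C _ _ hγ, cf_smul, cf_E C hβ]
    by_cases e : γ = β <;> simp [e]

theorem br_H_H (h h' : Fin n → F) : br C (h, 0) (h', 0) = (0 : Lm C F) := by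
  refine Lm_ext C ?_ fun γ hγ => ?_
  · rw [br_fst]; simp
  · rw [br_cf C _ _ hγ]; simp

/-- `fm (E α) y` is the coefficient of `y` at `-α` -/
theorem fm_E {α : Fin n → ℤ} (hα : ip C α α = 2) (y : Lm C F) : fm C (E C α) y = cf y (-α) := by
  rw [fm, Finset.sum_eq_single (⟨α, hα⟩ : Rt C)]
  · simp [E, hα]
  · intro b _ hb
    have : (E C α : Lm C F).2 b = 0 := by simp [E, hα, hb]
    simp [this]
  · simp

theorem fm_E_E {α β : Fin n → ℤ} (hα : ip C α α = 2) (hβ : ip C β β = 2) :
    fm C (E C α) (E C β : Lm C F) = if β = -α then 1 else 0 := by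
  rw [fm_E C hα, cf_E C hβ]
  by_cases h : β = -α
  · rw [if_pos h, if_pos h.symm]
  · rw [if_neg h, if_neg fun e => h e.symm]

theorem fm_E_H {α : Fin n → ℤ} (hα : ip C α α = 2) (h : Fin n → F) : fm C (E C α) ((h, 0) : Lm C F) = 0 := by
  rw [fm_E C hα]; simp

theorem fm_H_E (α : Fin n → ℤ) (h : Fin n → F) : fm C ((h, 0) : Lm C F) (E C α) = 0 := by
  rw [fm]; simp

theorem fm_H_H (h h' : Fin n → F) : fm C ((h, 0) : Lm C F) (h', 0) = -(∑ i, ∑ j, h i * (C i j : F) * h' j) := by
  rw [fm]; simp

end Pool.Agent.EXC
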