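import Pool.Agent.helper22.GS.Defs

/-!
# Project EXC (MP_561ff4_al): the groups `E₆(q)`, `E₇(q)`, `E₈(q)`. Definitions and basic lemmas

`C` is a simply laced Cartan matrix (positive definite), a root is a vector `α ∈ ℤⁿ` (coordinates with respect to the simple roots) with
`(α, α) = 2`. The Chevalley Lie algebra `L = Lm C F` over a field `F` has the elements `h ∈ Fⁿ` (coordinates with respect to the simple
coroots) and the root vectors `E α`; `[h, E α] = α(h) E α`, `[E α, E β] = ε(α,β) E (α+β)` if `α + β` is a root, `[E α, E (-α)] = -h_α`,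
with the bimultiplicative sign `ε = sg`. `fm` is the invariant form with `fm (E α) (E (-α)) = 1`, and for a root vector (more generally
an extremal element) `a` the root elements are `xe a t v = v + t [a,v] + t² fm(a,v) a`. `GE C F` is the group of linear maps generated
by the `xe (E α) t`: the adjoint Chevalley group.
-/

set_option autoImplicit false

open Finset

namespace Pool.Agent.EXC

variable {n : ℕ}

/-- the symmetric bilinear form on the root lattice `ℤⁿ` -/
def ip (C : Matrix (Fin n) (Fin n) ℤ) (v w : Fin n → ℤ) : ℤ := ∑ i, ∑ j, v i * C i j * w j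

/-- the simple root `α_i` -/
def sr (i : Fin n) : Fin n → ℤ := Pi.single i 1

/-- simply laced Cartan matrices of finite type -/
class IsC (C : Matrix (Fin n) (Fin n) ℤ) : Prop where
  symm : ∀ i j, C i j = C j i
  diag : ∀ i, C i i = 2
  off : ∀ i j, i ≠ j → C i j ≤ 0
  pos : ∀ v : Fin n → ℤ, v ≠ 0 → 0 < ip C v v

/-- the roots -/
abbrev Rt (C : Matrix (Fin n) (Fin n) ℤ) : Type := {v : Fin n → ℤ // ip C v v = 2}

section form
variable (C : Matrix (Fin n) (Fin n) ℤ)

theorem ip_add_left (u v w : Fin n → ℤ) : ip C (u + v) w = ip C u w + ip C v w := by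
  simp [ip, add_mul, Finset.sum_add_distrib]

theorem ip_add_right (u v w : Fin n → ℤ) : ip C u (v + w) = ip C u v + ip C u w := by
  simp [ip, mul_add, Finset.sum_add_distrib]

theorem ip_smul_left (c : ℤ) (v w : Fin n → ℤ) : ip C (c • v) w = c * ip C v w := by
  simp only [ip, Pi.smul_apply, smul_eq_mul, Finset.mul_sum]
  exact Finset.sum_congr rfl fun i _ => Finset.sum_congr rfl fun j _ => by ring

theorem ip_smul_right (c : ℤ) (v w : Fin n → ℤ) : ip C v (c • w) = c * ip C v w := by
  simp only [ip, Pi.smul_apply, smul_eq_mul, Finset.mul_sum]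
  exact Finset.sum_congr rfl fun i _ => Finset.sum_congr rfl fun j _ => by ring

@[simp] theorem ip_zero_left (w : Fin n → ℤ) : ip C 0 w = 0 := by simp [ip]

@[simp] theorem ip_zero_right (w : Fin n → ℤ) : ip C w 0 = 0 := by simp [ip]

theorem ip_neg_left (v w : Fin n → ℤ) : ip C (-v) w = -ip C v w := by
  have := ip_smul_left C (-1) v w
  simpa using this

theorem ip_neg_right (v w : Fin n → ℤ) : ip C v (-w) = -ip C v w := by
  have := ip_smul_right C (-1) v w
  simpa using this

theorem ip_sub_left (u v w : Fin n → ℤ) : ip C (u - v) w = ip C u w - ip C v w := by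
  rw [sub_eq_add_neg, ip_add_left, ip_neg_left, sub_eq_add_neg]

theorem ip_sub_right (u v w : Fin n → ℤ) : ip C u (v - w) = ip C u v - ip C u w := by
  rw [sub_eq_add_neg, ip_add_right, ip_neg_right, sub_eq_add_neg]

theorem ip_sum_left {ι : Type} (s : Finset ι) (f : ι → Fin n → ℤ) (w : Fin n → ℤ) :
    ip C (∑ i ∈ s, f i) w = ∑ i ∈ s, ip C (f i) w := by
  classical
  induction s using Finset.induction_on with
  | empty => simp
  | insert a s ha ih => rw [Finset.sum_insert ha, Finset.sum_insert ha, ip_add_left, ih]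

theorem ip_sr_right (v : Fin n → ℤ) (i : Fin n) : ip C v (sr i) = ∑ k, v k * C k i := by
  simp [ip, sr, Pi.single_apply]

theorem ip_sr_left (v : Fin n → ℤ) (i : Fin n) : ip C (sr i) v = ∑ k, C i k * v k := by
  simp [ip, sr, Pi.single_apply]

theorem ip_sr_sr (i j : Fin n) : ip C (sr i) (sr j) = C i j := by
  simp [ip, sr, Pi.single_apply]

/-- `(v, w) = ∑ v_i (α_i, w)` -/
theorem ip_eq_sum (v w : Fin n → ℤ) : ip C v w = ∑ i, v i * ip C (sr i) w := by
  have h : ∀ i, v i * ip C (sr i) w = ∑ j, v i * C i j * w j := fun i => by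
    rw [ip_sr_left, Finset.mul_sum]
    exact Finset.sum_congr rfl fun j _ => by ring
  rw [ip]
  exact Finset.sum_congr rfl fun i _ => (h i).symm

end form

section IsC
variable (C : Matrix (Fin n) (Fin n) ℤ) [IsC C]

theorem ip_comm (v w : Fin n → ℤ) : ip C v w = ip C w v := by
  rw [ip, ip, Finset.sum_comm]
  refine Finset.sum_congr rfl fun i _ => Finset.sum_congr rfl fun j _ => ?_
  rw [IsC.symm (C := C) j i]
  ring

theorem ip_sr_self (i : Fin n) : ip C (sr i) (sr i) = 2 := by rw [ip_sr_sr, IsC.diag (C := C)]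

theorem ip_nonneg (v : Fin n → ℤ) : 0 ≤ ip C v v := by
  by_cases h : v = 0
  · subst h; simp
  · exact (IsC.pos (C := C) v h).le

/-- the form is even -/
theorem ip_even (v : Fin n → ℤ) : Even (ip C v v) := by
  have key : ∀ s : Finset (Fin n), Even (∑ i ∈ s, ∑ j ∈ s, v i * C i j * v j) := by
    intro s
    induction s using Finset.induction_on with
    | empty => simp
    | insert a s ha ih =>
      rw [Finset.sum_insert ha, Finset.sum_insert ha]
      have e : ∑ i ∈ s, ∑ j ∈ insert a s, v i * C i j * v j =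
          ∑ i ∈ s, v i * C i a * v a + ∑ i ∈ s, ∑ j ∈ s, v i * C i j * v j := by
        rw [← Finset.sum_add_distrib]
        exact Finset.sum_congr rfl fun i _ => Finset.sum_insert ha
      have e2 : ∑ j ∈ s, v a * C a j * v j = ∑ i ∈ s, v i * C i a * v a :=
        Finset.sum_congr rfl fun i _ => by rw [IsC.symm (C := C) a i]; ring
      rw [e, e2, IsC.diag (C := C) a]
      obtain ⟨k, hk⟩ := ih
      rw [hk]
      exact ⟨v a * v a + ∑ i ∈ s, v i * C i a * v a + k, by ring⟩
  exact key Finset.univ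

theorem ip_two_le (v : Fin n → ℤ) (hv : v ≠ 0) : 2 ≤ ip C v v := by
  have h1 := IsC.pos (C := C) v hv
  obtain ⟨k, hk⟩ := ip_even C v
  omega

variable {C} in
/-- inner products of roots -/
theorem ip_abs_le {α β : Fin n → ℤ} (hα : ip C α α = 2) (hβ : ip C β β = 2) : -2 ≤ ip C α β ∧ ip C α β ≤ 2 := by
  have h1 := ip_nonneg C (α + β)
  have h2 := ip_nonneg C (α - β)
  rw [ip_add_left, ip_add_right, ip_add_right, ip_comm C β α] at h1
  rw [ip_sub_left, ip_sub_right, ip_sub_right, ip_comm C β α] at h2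
  omega

variable {C} in
theorem eq_of_ip_eq_two {α β : Fin n → ℤ} (hα : ip C α α = 2) (hβ : ip C β β = 2) (h : ip C α β = 2) : α = β := by
  by_contra hne
  have h2 := IsC.pos (C := C) (α - β) (sub_ne_zero.2 hne)
  rw [ip_sub_left, ip_sub_right, ip_sub_right, ip_comm C β α] at h2
  omega

variable {C} in
theorem eq_neg_of_ip_eq_neg_two {α β : Fin n → ℤ} (hα : ip C α α = 2) (hβ : ip C β β = 2) (h : ip C α β = -2) :
    β = -α := by
  by_contra hne
  have h2 := IsC.pos (C := C) (α + β) (fun h => hne (eq_neg_of_add_eq_zero_right h))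
  rw [ip_add_left, ip_add_right, ip_add_right, ip_comm C β α] at h2
  omega

variable {C} in
/-- `α + β` is a root iff `(α, β) = -1` -/
theorem add_root_iff {α β : Fin n → ℤ} (hα : ip C α α = 2) (hβ : ip C β β = 2) :
    ip C (α + β) (α + β) = 2 ↔ ip C α β = -1 := by
  rw [ip_add_left, ip_add_right, ip_add_right, ip_comm C β α]
  omega

variable {C} in
theorem sub_root_iff {α β : Fin n → ℤ} (hα : ip C α α = 2) (hβ : ip C β β = 2) :
    ip C (α - β) (α - β) = 2 ↔ ip C α β = 1 := by
  rw [ip_sub_left, ip_sub_right, ip_sub_right, ip_comm C β α]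
  omega

omit [IsC C] in
theorem neg_root {α : Fin n → ℤ} (hα : ip C α α = 2) : ip C (-α) (-α) = 2 := by
  rw [ip_neg_left, ip_neg_right, neg_neg, hα]

instance finite_Rt : Finite (Rt C) := by
  let f : Rt C → (Fin n → Finset.Icc (-2 : ℤ) 2) := fun v i =>
    ⟨ip C v.1 (sr i), Finset.mem_Icc.2 (ip_abs_le v.2 (ip_sr_self C i))⟩
  refine Finite.of_injective f fun v w h => ?_
  have h1 : ∀ i, ip C (v.1 - w.1) (sr i) = 0 := by
    intro i
    have := congrArg Subtype.val (congrFun h i)
    simp only [f] at this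
    rw [ip_sub_left, this, sub_self]
  have h2 : ip C (v.1 - w.1) (v.1 - w.1) = 0 := by
    rw [ip_comm, ip_eq_sum]
    refine Finset.sum_eq_zero fun i _ => ?_
    rw [ip_comm, h1 i, mul_zero]
  by_contra hne
  have h3 := IsC.pos (C := C) (v.1 - w.1) (sub_ne_zero.2 fun h => hne (Subtype.ext h))
  omega

noncomputable instance fintype_Rt : Fintype (Rt C) := Fintype.ofFinite _

end IsC

/-- the reflection at the simple root `α_i` -/
def rf (C : Matrix (Fin n) (Fin n) ℤ) (i : Fin n) (v : Fin n → ℤ) : Fin n → ℤ := v - ip C v (sr i) • sr i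

/-- nonnegative vectors -/
def Pos (v : Fin n → ℤ) : Prop := ∀ i, 0 ≤ v i

/-- two pairs of vectors are in the same orbit of the Weyl group -/
def WP (C : Matrix (Fin n) (Fin n) ℤ) : (Fin n → ℤ) × (Fin n → ℤ) → (Fin n → ℤ) × (Fin n → ℤ) → Prop :=
  Relation.ReflTransGen fun p q => ∃ i, q = (rf C i p.1, rf C i p.2)

/-- the set `J` of nodes is connected -/
def Conn (C : Matrix (Fin n) (Fin n) ℤ) (J : Finset (Fin n)) : Prop :=
  ∀ K, K ⊆ J → K.Nonempty → K ≠ J → ∃ i ∈ K, ∃ j ∈ J \ K, C i j ≠ 0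

/-- the data of a diagram of type `E`: `θ` is a root with `(θ, α_i) = 0` except for one node `j0` with `(θ, α_j0) = 1`; the diagram and
the diagram without `j0` are connected; `δ 0, ..., δ 4` is a chain of nodes of type `A₅` -/
structure IsE (C : Matrix (Fin n) (Fin n) ℤ) (j0 : Fin n) (θ : Fin n → ℤ) (δ : Fin 5 → Fin n) : Prop where
  th2 : ip C θ θ = 2
  thd : ∀ i, ip C θ (sr i) = if i = j0 then 1 else 0
  con : Conn C Finset.univ
  con' : Conn C (Finset.univ.erase j0)
  inc : StrictMono δ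
  ch : ∀ a b : Fin 5, C (δ a) (δ b) = if a = b then 2 else if (a : ℕ) + 1 = b ∨ (b : ℕ) + 1 = a then -1 else 0

/-! ## The Lie algebra -/

/-- the bilinear form `b` with `b(v,w) + b(w,v) = (v,w)` mod 2 and `b(v,v) = (v,v)/2` -/
def bf (C : Matrix (Fin n) (Fin n) ℤ) (v w : Fin n → ℤ) : ℤ :=
  ∑ i, v i * w i + ∑ i, ∑ j, if i < j then v i * C i j * w j else 0

/-- the sign `ε(v,w) = (-1)^b(v,w)` -/
def sg (C : Matrix (Fin n) (Fin n) ℤ) (v w : Fin n → ℤ) : ℤ := if Even (bf C v w) then 1 else -1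

/-- the Chevalley Lie algebra: elements `h ∈ Fⁿ` (coordinates with respect to the simple coroots) and coefficients of the root vectors -/
abbrev Lm (C : Matrix (Fin n) (Fin n) ℤ) (F : Type) : Type := (Fin n → F) × (Rt C → F)

section Lie
variable (C : Matrix (Fin n) (Fin n) ℤ) {F : Type} [Field F]

/-- the value `γ(h)` of `γ ∈ ℤⁿ` at `h` -/
def ev (γ : Fin n → ℤ) (h : Fin n → F) : F := ∑ i, ∑ j, (γ i : F) * (C i j : F) * h j

/-- the coefficient of the root vector of `w` (`0` if `w` is not a root) -/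
def cf {C : Matrix (Fin n) (Fin n) ℤ} {F : Type} [Field F] (x : Lm C F) (w : Fin n → ℤ) : F :=
  if h : ip C w w = 2 then x.2 ⟨w, h⟩ else 0

/-- the root vector of `w` (`0` if `w` is not a root) -/
def E (w : Fin n → ℤ) : Lm C F := if h : ip C w w = 2 then (0, Pi.single ⟨w, h⟩ 1) else 0

/-- the coroot of `α` -/
def ht (α : Fin n → ℤ) : Lm C F := (fun i => (α i : F), 0)

variable [IsC C]

/-- the bracket -/
noncomputable def br (x y : Lm C F) : Lm C F :=
  (-∑ α : Rt C, (x.2 α * cf y (-α.1)) • fun i => (α.1 i : F),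
    fun γ => ev C γ.1 x.1 * y.2 γ - ev C γ.1 y.1 * x.2 γ + ∑ α : Rt C, (sg C α.1 (γ.1 - α.1) : F) * x.2 α * cf y (γ.1 - α.1))

/-- the invariant form -/
noncomputable def fm (x y : Lm C F) : F :=
  -(∑ i, ∑ j, x.1 i * (C i j : F) * y.1 j) + ∑ α : Rt C, x.2 α * cf y (-α.1)

/-- the root element `x_a(t)` (for an extremal element `a`) -/
noncomputable def xe (a : Lm C F) (t : F) (v : Lm C F) : Lm C F := v + t • br C a v + (t ^ 2 * fm C a v) • a

/-- the linear bijection `g` is `x_a(t)` -/
def IsX (a : Lm C F) (t : F) (g : Lm C F ≃ₗ[F] Lm C F) : Prop := ∀ v, g v = xe C a t v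

variable (F) in
/-- the adjoint Chevalley group: generated by the root elements `x_α(t)` -/
def GE : Subgroup (Lm C F ≃ₗ[F] Lm C F) := Subgroup.closure {g | ∃ α, ip C α α = 2 ∧ ∃ t, IsX C (E C α) t g}

variable (F) in
/-- the adjoint Chevalley group as a type -/
abbrev EG : Type := ↥(GE C F)

/-- the subgroup `A` of `E(q)` is a root subgroup: `A = g X_α g⁻¹` -/
def IsRS (A : Subgroup (EG C F)) : Prop :=
  ∃ (g : EG C F) (α : Fin n → ℤ), ip C α α = 2 ∧
    ∀ h : EG C F, h ∈ A ↔ ∃ t, IsX C (E C α) t ((g⁻¹ * h * g : EG C F) : Lm C F ≃ₗ[F] Lm C F)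

/-- the automorphism `x` maps root subgroups to root subgroups -/
def RA (x : MulAut (EG C F)) : Prop := ∀ A, IsRS C A → IsRS C (A.map x.toMonoidHom)

/-- extremal vectors: nonzero multiples of `g (E α)`, `g` in the group -/
def Ex (a : Lm C F) : Prop := ∃ g ∈ GE C F, ∃ α, ip C α α = 2 ∧ ∃ c : F, c ≠ 0 ∧ a = c • g (E C α)

/-- the pair `(a, b)` is conjugate to `(c E θ, c' E β)` with `(θ, β) = m` -/
def Tp (θ : Fin n → ℤ) (a b : Lm C F) (m : ℤ) : Prop :=
  ∃ k ∈ GE C F, ∃ β, ip C β β = 2 ∧ ip C θ β = m ∧ ∃ c c' : F, c ≠ 0 ∧ c' ≠ 0 ∧ k a = c • E C θ ∧ k b = c' • E C β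

/-- the automorphism `x` maps the root subgroup `X_a` onto `X_b` -/
def Im (x : MulAut (EG C F)) (a b : Lm C F) : Prop :=
  ∀ h : EG C F, (∃ t, IsX C a t (h : Lm C F ≃ₗ[F] Lm C F)) ↔ ∃ t, IsX C b t ((x h : EG C F) : Lm C F ≃ₗ[F] Lm C F)

end Lie

end Pool.Agent.EXC
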