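import Pool.Agent.helper17.EXC.Basic

/-!
# Project EXC: further definitions (auxiliary notions for the proof)
-/

set_option autoImplicit false

open Finset

namespace Pool.Agent.EXC

variable {n : ℕ} (C : Matrix (Fin n) (Fin n) ℤ) [IsC C] {F : Type} [Field F]

/-- the identities which make `x_a(t)` an automorphism -/
structure Xtr (a : Lm C F) : Prop where
  jac : ∀ v w : Lm C F, br C a (br C v w) = br C (br C a v) w + br C v (br C a w)
  str : ∀ v w : Lm C F, fm C a (br C v w) • a = fm C a v • br C a w - fm C a w • br C a v + br C (br C a v) (br C a w)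
  inv : ∀ v w : Lm C F, fm C (br C a v) w = -fm C v (br C a w)
  sq : ∀ v : Lm C F, br C a (br C a v) = (2 * fm C a v) • a
  aa : br C a a = 0
  ff : fm C a a = 0

/-- `g` preserves the bracket and the form -/
structure Au (g : Lm C F ≃ₗ[F] Lm C F) : Prop where
  br : ∀ v w : Lm C F, g (br C v w) = br C (g v) (g w)
  fm : ∀ v w : Lm C F, fm C (g v) (g w) = fm C v w

variable (F) in
/-- the unipotent group `U` -/
def UG : Subgroup (Lm C F ≃ₗ[F] Lm C F) := Subgroup.closure {g | ∃ γ, ip C γ γ = 2 ∧ Pos γ ∧ ∃ t, IsX C (E C γ) t g}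

variable (F) in
/-- the unipotent group `U_i` -/
def UI (i : Fin n) : Subgroup (Lm C F ≃ₗ[F] Lm C F) :=
  Subgroup.closure {g | ∃ γ, ip C γ γ = 2 ∧ Pos γ ∧ γ ≠ sr i ∧ ∃ t, IsX C (E C γ) t g}

/-! ## The subsystem of type `A₅` -/

/-- `α_{δ 0} + ... + α_{δ (a-1)}` -/
def pr (δ : Fin 5 → Fin n) (a : Fin 6) : Fin n → ℤ := ∑ k : Fin 5, if (k : ℕ) < a then sr (δ k) else 0

/-- the root `ε_a - ε_b` of the subsystem of type `A₅` -/
def ro (δ : Fin 5 → Fin n) (a b : Fin 6) : Fin n → ℤ := pr δ b - pr δ a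

/-- the sign `η_ab` -/
def et (a b : Fin 6) : ℤ := if a < b then -1 else 1

/-- the embedding of the matrices of trace zero -/
noncomputable def io (δ : Fin 5 → Fin n) (M : Matrix (Fin 6) (Fin 6) F) : Lm C F :=
  ∑ k : Fin 5, (∑ a : Fin 6, if (a : ℕ) ≤ k then M a a else 0) • ht C (sr (δ k)) +
    ∑ a : Fin 6, ∑ b : Fin 6, if a = b then 0 else ((et a b : F) * M a b) • E C (ro δ a b)

/-- `h` acts on the matrices of trace zero as the conjugation by `m` -/
def Rm (δ : Fin 5 → Fin n) (h : Lm C F ≃ₗ[F] Lm C F) (m : Matrix.SpecialLinearGroup (Fin 6) F) : Prop :=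
  ∀ M : Matrix (Fin 6) (Fin 6) F, M.trace = 0 →
    h (io C δ M) = io C δ ((m : Matrix (Fin 6) (Fin 6) F) * M * ((m⁻¹ : Matrix.SpecialLinearGroup (Fin 6) F) : Matrix (Fin 6) (Fin 6) F))

omit [IsC C] in
theorem io_add (δ : Fin 5 → Fin n) (M M' : Matrix (Fin 6) (Fin 6) F) : io C δ (M + M') = io C δ M + io C δ M' := by
  have h1 : ∀ k : Fin 5, (∑ a : Fin 6, if (a : ℕ) ≤ k then (M + M') a a else 0) =
      (∑ a : Fin 6, if (a : ℕ) ≤ k then M a a else 0) + ∑ a : Fin 6, if (a : ℕ) ≤ k then M' a a else 0 := by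
    intro k
    rw [← Finset.sum_add_distrib]
    exact Finset.sum_congr rfl fun a _ => by split_ifs <;> simp
  have h2 : ∀ a b : Fin 6, (if a = b then 0 else ((et a b : F) * (M + M') a b) • E C (ro δ a b) : Lm C F) =
      (if a = b then 0 else ((et a b : F) * M a b) • E C (ro δ a b)) + if a = b then 0 else ((et a b : F) * M' a b) • E C (ro δ a b) := by
    intro a b
    split_ifs
    · simp
    · rw [Matrix.add_apply, mul_add, add_smul]
  simp only [io, h1, h2, add_smul, Finset.sum_add_distrib]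
  abel

omit [IsC C] in
theorem io_smul (δ : Fin 5 → Fin n) (c : F) (M : Matrix (Fin 6) (Fin 6) F) : io C δ (c • M) = c • io C δ M := by
  have h1 : ∀ k : Fin 5, (∑ a : Fin 6, if (a : ℕ) ≤ k then (c • M) a a else 0) = c * ∑ a : Fin 6, if (a : ℕ) ≤ k then M a a else 0 := by
    intro k
    rw [Finset.mul_sum]
    exact Finset.sum_congr rfl fun a _ => by split_ifs <;> simp
  have h2 : ∀ a b : Fin 6, (if a = b then 0 else ((et a b : F) * (c • M) a b) • E C (ro δ a b) : Lm C F) =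
      c • (if a = b then 0 else ((et a b : F) * M a b) • E C (ro δ a b)) := by
    intro a b
    split_ifs
    · simp
    · rw [Matrix.smul_apply, smul_smul, smul_eq_mul]; congr 1; ring
  simp only [io, h1, h2]
  simp only [smul_add, Finset.smul_sum, smul_smul]

/-! ## Matrices -/

/-- `y = 1 + V Φ` with `V` injective, `Φ` surjective and `Φ V = N` -/
def Cl (N : Matrix (Fin 2) (Fin 2) F) (y : Matrix (Fin 6) (Fin 6) F) : Prop :=
  ∃ (V : Matrix (Fin 6) (Fin 2) F) (Φ : Matrix (Fin 2) (Fin 6) F),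
    (∃ V' : Matrix (Fin 2) (Fin 6) F, V' * V = 1) ∧ (∃ Φ' : Matrix (Fin 6) (Fin 2) F, Φ * Φ' = 1) ∧ Φ * V = N ∧ y = 1 + V * Φ

/-- if `z ^ m` is scalar then `r ∣ m` -/
def NSc (r : ℕ) (z : Matrix (Fin 6) (Fin 6) F) : Prop := ∀ m : ℕ, (∃ c : F, z ^ m = c • (1 : Matrix (Fin 6) (Fin 6) F)) → r ∣ m

/-- the block of the index `p` (`0, 1 | 2, 3 | 4, 5`) -/
def bk (p : Fin 6) : Fin 3 := ⟨(p : ℕ) / 2, by omega⟩

/-- the place of the index `p` in its block -/
def pl (p : Fin 6) : Fin 2 := ⟨(p : ℕ) % 2, by omega⟩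

/-- the matrix `1 + e_i [A 0 | A 1 | A 2]` (blocks of size 2) -/
def rb (i : Fin 3) (A : Fin 3 → Matrix (Fin 2) (Fin 2) F) : Matrix (Fin 6) (Fin 6) F :=
  1 + Matrix.of fun p q => if bk p = i then A (bk q) (pl p) (pl q) else 0

end Pool.Agent.EXC
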