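import Pool.Agent.helper17.EXC.SpecRA
import Pool.Agent.helper13.EXC.RFL
import Pool.Agent.helper78.EXC.DIC
import Pool.Agent.helper29.EXC.RFP
import Pool.Agent.helper51.EXC.DOM
import Pool.Agent.helper54.EXC.THT
import Pool.Agent.helper28.EXC.DE6
import Pool.Agent.helper92.EXC.DE7
import Pool.Agent.helper17.EXC.DE8
import Pool.Agent.helper11.EXC.RHO
import Pool.Agent.helper90.EXC.JAC
import Pool.Agent.helper6.EXC.STR
import Pool.Agent.helper9.EXC.INV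
import Pool.Agent.helper41.EXC.XAU
import Pool.Agent.helper67.EXC.EXF
import Pool.Agent.helper74.EXC.ACT
import Pool.Agent.helper3.EXC.COL
import Pool.Agent.helper49.EXC.NRF
import Pool.Agent.helper45.EXC.WPG
import Pool.Agent.helper28.EXC.NBR
import Pool.Agent.helper85.EXC.TSY
import Pool.Agent.helper43.EXC.GEN
import Pool.Agent.helper25.EXC.UIN
import Pool.Agent.helper14.EXC.RKO
import Pool.Agent.helper2.EXC.YST
import Pool.Agent.helper26.EXC.PCL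
import Pool.Agent.helper5.EXC.TPF
import Pool.Agent.helper8.EXC.UNQ
import Pool.Agent.helper53.EXC.THR
import Pool.Agent.helper53.EXC.IMX
import Pool.Agent.helper20.EXC.IMT
import Pool.Agent.helper39.EXC.WUQ
import Pool.Agent.helper24.EXC.NRM
import Pool.Agent.helper60.EXC.FIX
import Pool.Agent.helper68.EXC.GEO
import Pool.Agent.helper3.EXC.COR
import Pool.Agent.helper21.EXC.IOT
import Pool.Agent.helper64.EXC.RMB
import Pool.Agent.helper27.EXC.SLT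
import Pool.Agent.helper27.EXC.LIF
import Pool.Agent.helper34.EXC.CL3
import Pool.Agent.helper21.EXC.PLN
import Pool.Agent.helper61.EXC.CNN
import Pool.Agent.helper39.EXC.RPX
import Pool.Agent.helper31.EXC.PEL
import Pool.Agent.helper15.EXC.IOI
import Pool.Agent.helper15.EXC.CJG
import Pool.Agent.helper27.EXC.KND
import Pool.Agent.helper29.EXC.E2C
import Pool.Agent.helper27.EXC.RBC
import Pool.Agent.helper74.EXC.EIG
import Pool.Agent.helper57.EXC.FL0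
import Pool.Agent.helper60.EXC.FL3
import Pool.Agent.helper93.EXC.FL6
import Pool.Agent.helper27.EXC.LS2
import Pool.Agent.helper7.EXC.L31
import Pool.Agent.helper7.EXC.L61
import Pool.Agent.helper50.EXC.L62
import Pool.Agent.helper18.EXC.GRP
import Pool.Agent.helper7.EXC.PRD
import Pool.Agent.helper80.EXC.BPW
import Pool.Agent.helper80.EXC.BMN
import Pool.Agent.helper92.EXC.DMN
import Pool.Agent.helper51.EXC.UPG
import Pool.Agent.helper42.EXC.FPU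
import Pool.Agent.helper45.EXC.SYL
import Pool.Agent.helper67.EXC.GMN
import Pool.Agent.helper89.EXC.CUB
import Pool.Agent.helper44.EXC.QUN
import Pool.Agent.helper43.EXC.QNF
import Pool.Agent.helper25.EXC.CUX
import Pool.Agent.helper6.EXC.ARA

/-!
# Project EXC (MP_561ff4_al): all rows of `Spec.lean` and `SpecRA.lean`, proved
-/

set_option autoImplicit false

open Finset

namespace Pool.Agent.EXC

theorem f_RFL : RFL_stmt := RFL
theorem f_DIC : DIC_stmt := DIC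
theorem f_RFP : RFP_stmt := RFP f_RFL f_DIC
theorem f_DOM : DOM_stmt := DOM f_RFL f_DIC
theorem f_THT : THT_stmt := THT f_RFL f_DIC f_DOM
theorem f_DE6 : DE6_stmt := DE6
theorem f_DE7 : DE7_stmt := DE7
theorem f_DE8 : DE8_stmt := DE8
theorem f_RHO : RHO_stmt := RHO
theorem f_JAC : JAC_stmt := JAC
theorem f_STR : STR_stmt := STR
theorem f_INV : INV_stmt := INV
theorem f_XAU : XAU_stmt := XAU f_INV
theorem f_EXF : EXF_stmt := EXF f_JAC f_STR f_INV f_XAU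
theorem f_ACT : ACT_stmt := ACT
theorem f_COL : COL_stmt := COL f_JAC f_STR f_INV f_XAU
theorem f_NRF : NRF_stmt := NRF f_EXF f_ACT f_RFL
theorem f_WPG : WPG_stmt := WPG f_NRF f_RFL
theorem f_NBR : NBR_stmt := NBR f_RFL f_DOM
theorem f_TSY : TSY_stmt := TSY f_NBR f_WPG f_RFL
theorem f_GEN : GEN_stmt := GEN f_DIC f_RFP f_EXF f_ACT f_COL
theorem f_UIN : UIN_stmt := UIN f_RFP f_EXF f_ACT f_COL
theorem f_RKO : RKO_stmt := RKO f_ACT
theorem f_YST : YST_stmt := YST f_EXF f_GEN f_UIN f_RKO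
theorem f_PCL : PCL_stmt := PCL f_EXF f_ACT f_YST f_NBR f_WPG
theorem f_TPF : TPF_stmt := TPF f_EXF f_ACT f_COL f_INV
theorem f_UNQ : UNQ_stmt := UNQ f_EXF f_PCL f_ACT f_NBR
theorem f_THR : THR_stmt := THR f_EXF f_PCL f_UNQ f_ACT f_COL f_TPF f_NBR
theorem f_IMX : IMX_stmt := IMX f_EXF f_UNQ f_NBR
theorem f_IMT : IMT_stmt := IMT f_PCL f_TPF f_THR f_IMX f_EXF f_NBR f_UNQ
theorem f_WUQ : WUQ_stmt := WUQ
theorem f_NRM : NRM_stmt := NRM f_EXF f_ACT
theorem f_FIX : FIX_stmt := FIX f_EXF f_UNQ f_NRM f_NBR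
theorem f_GEO : GEO_stmt := GEO f_PCL f_TPF f_IMX f_IMT f_WUQ f_FIX f_UNQ f_ACT f_EXF f_NBR
theorem f_COR : COR_stmt := COR
theorem f_IOT : IOT_stmt := IOT f_RHO
theorem f_RMB : RMB_stmt := RMB f_IOT f_RHO
theorem f_SLT : SLT_stmt := SLT
theorem f_LIF : LIF_stmt := LIF f_RMB f_SLT f_RHO f_EXF f_NBR
theorem f_CL3 : CL3_stmt := CL3 f_RHO f_EXF f_ACT f_COL f_XAU f_NBR f_WPG f_LIF
theorem f_PLN : PLN_stmt := PLN f_CL3 f_COR f_IMX f_IMT f_TPF f_PCL f_COL f_UNQ f_EXF f_ACT f_NBR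
theorem f_CNN : CNN_stmt := CNN f_EXF f_ACT f_NBR f_WPG f_RFL f_TPF
theorem f_RPX : RPX_stmt := RPX f_PLN f_CNN f_IMX f_IMT f_TPF f_PCL f_FIX f_EXF f_UNQ f_INV f_TSY f_NBR
theorem f_PEL : PEL_stmt := PEL f_EXF f_ACT f_COL f_TPF
theorem f_IOI : IOI_stmt := IOI f_RHO
theorem f_CJG : CJG_stmt := CJG
theorem f_KND : KND_stmt := KND
theorem f_E2C : E2C_stmt := E2C
theorem f_RBC : RBC_stmt := RBC
theorem f_EIG : EIG_stmt := EIG
theorem f_FL0 : FL0_stmt := FL0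
theorem f_FL3 : FL3_stmt := FL3 f_FL0
theorem f_FL6 : FL6_stmt := FL6 f_FL0
theorem f_LS2 : LS2_stmt := LS2 f_FL0 f_E2C f_RBC f_KND f_EIG
theorem f_L31 : L31_stmt := L31 f_FL0 f_FL3 f_E2C f_RBC f_KND f_EIG
theorem f_L61 : L61_stmt := L61 f_FL0 f_FL6 f_E2C f_RBC f_KND f_EIG
theorem f_L62 : L62_stmt := L62 f_FL0 f_FL6 f_RBC f_EIG
theorem f_GRP : GRP_stmt := GRP
theorem f_PRD : PRD_stmt := PRD f_RHO f_RMB f_LIF f_CJG f_KND f_IOI f_FIX f_WPG f_THT f_NBR f_TPF f_EXF f_UNQ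
theorem f_BPW : BPW_stmt := BPW f_RPX f_PEL f_FIX f_EXF f_GRP f_NBR
theorem f_BMN : BMN_stmt := BMN f_GEO f_PRD f_GRP f_LS2 f_L31 f_L61 f_L62
theorem f_DMN : DMN_stmt := DMN f_DIC
theorem f_UPG : UPG_stmt := UPG f_ACT
theorem f_FPU : FPU_stmt := FPU f_EXF f_YST f_ACT f_DMN f_NBR
theorem f_SYL : SYL_stmt := SYL f_EXF f_FPU f_UPG f_NBR
theorem f_GMN : GMN_stmt := GMN f_EXF f_DMN f_DIC f_NBR
theorem f_CUB : CUB_stmt := CUB f_EXF f_UNQ f_YST f_FPU f_DMN f_NBR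
theorem f_QUN : QUN_stmt := QUN f_EXF f_ACT f_COL f_DMN f_NBR
theorem f_QNF : QNF_stmt := QNF f_EXF f_ACT f_COL f_NBR
theorem f_CUX : CUX_stmt := CUX f_CUB f_QUN f_QNF f_GMN f_EXF f_ACT f_DMN f_NBR
theorem f_ARA : ARA_stmt := ARA f_UPG f_SYL f_CUX f_EXF f_DMN f_NBR f_WPG

end Pool.Agent.EXC
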