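import Pool.Agent.helper17.EXC.Chev
import Pool.Agent.helper17.EXC.All11
import Pool.Agent.helper16.EXC.All3

/-!
# The bounds for all automorphisms of `E₆(q)`, `E₇(q)`, `E₈(q)` (MP_561ff4_al)
-/

set_option autoImplicit false

namespace Pool.Agent.EXN

open Pool.Agent.EXC

theorem ordbd {r q : ℕ} (hr : r.Prime) (h5 : 5 ≤ r) (h6 : r ∣ q ^ 6 - 1) (hq : ¬ r ∣ q ^ 4 - 1) (h1 : 1 ≤ q) : 7 ≤ r := by
  by_contra hlt
  have hr5 : r = 5 := by
    have : r < 7 := by omega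
    interval_cases r
    · rfl
    · exact absurd hr (by norm_num)
  subst hr5
  have hq5 : ¬ 5 ∣ q := by
    intro hd
    have h7 : 5 ∣ q ^ 6 := dvd_pow hd (by norm_num)
    have h8 : 5 ∣ q ^ 6 - (q ^ 6 - 1) := Nat.dvd_sub h7 h6
    have h9 : q ^ 6 - (q ^ 6 - 1) = 1 := by have := Nat.one_le_pow 6 q h1; omega
    rw [h9] at h8
    omega
  apply hq
  have h10 : (q : ZMod 5) ^ 4 = 1 := by
    have h11 : (q : ZMod 5) ≠ 0 := by
      intro h0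
      exact hq5 ((ZMod.natCast_eq_zero_iff q 5).1 h0)
    revert h11
    generalize (q : ZMod 5) = z
    revert z
    decide
  have h12 : ((q ^ 4 - 1 : ℕ) : ZMod 5) = 0 := by
    rw [Nat.cast_sub (Nat.one_le_pow 4 q h1)]
    push_cast
    rw [h10, sub_self]
  exact (ZMod.natCast_eq_zero_iff _ 5).1 h12

theorem ntd {r q : ℕ} (hr : r.Prime) (k : ℕ) (hk : k ≠ 0) (h : r ∣ q ^ k - 1) (h1 : 1 ≤ q) : ¬ r ∣ q := by
  intro hd
  have h7 : r ∣ q ^ k := dvd_pow hd hk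
  have h8 : r ∣ q ^ k - (q ^ k - 1) := Nat.dvd_sub h7 h
  have h9 : q ^ k - (q ^ k - 1) = 1 := by have := Nat.one_le_pow k q h1; omega
  rw [h9] at h8
  exact hr.one_lt.ne' (Nat.dvd_one.1 h8)

theorem dvd4_of_2 {r q : ℕ} (h : r ∣ q ^ 2 - 1) : r ∣ q ^ 4 - 1 := by
  have h2 : q ^ 2 - 1 ∣ q ^ 4 - 1 := by
    have := Nat.sub_dvd_pow_sub_pow (q ^ 2) 1 2
    simpa [← pow_mul] using this
  exact h.trans h2

theorem dvd57 {r q : ℕ} (hr : r = 5 ∨ r = 7) : r ∣ q * (q ^ 4 - 1) * (q ^ 6 - 1) := by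
  rcases Nat.eq_zero_or_pos q with h0 | h1
  · subst h0; simp
  rcases hr with hr | hr
  · subst hr
    by_cases hq : 5 ∣ q
    · exact Dvd.dvd.mul_right (Dvd.dvd.mul_right hq _) _
    have h10 : (q : ZMod 5) ^ 4 = 1 := by
      have h11 : (q : ZMod 5) ≠ 0 := fun h0 => hq ((ZMod.natCast_eq_zero_iff q 5).1 h0)
      revert h11
      generalize (q : ZMod 5) = z
      revert z
      decide
    have h12 : ((q ^ 4 - 1 : ℕ) : ZMod 5) = 0 := by
      rw [Nat.cast_sub (Nat.one_le_pow 4 q h1)]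
      push_cast
      rw [h10, sub_self]
    exact Dvd.dvd.mul_right (Dvd.dvd.mul_left ((ZMod.natCast_eq_zero_iff _ 5).1 h12) _) _
  · subst hr
    by_cases hq : 7 ∣ q
    · exact Dvd.dvd.mul_right (Dvd.dvd.mul_right hq _) _
    have h10 : (q : ZMod 7) ^ 6 = 1 := by
      have h11 : (q : ZMod 7) ≠ 0 := fun h0 => hq ((ZMod.natCast_eq_zero_iff q 7).1 h0)
      revert h11
      generalize (q : ZMod 7) = z
      revert z
      decide
    have h12 : ((q ^ 6 - 1 : ℕ) : ZMod 7) = 0 := by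
      rw [Nat.cast_sub (Nat.one_le_pow 6 q h1)]
      push_cast
      rw [h10, sub_self]
    exact Dvd.dvd.mul_left ((ZMod.natCast_eq_zero_iff _ 7).1 h12) _

theorem dvd3 (q : ℕ) : 3 ∣ q * (q ^ 4 - 1) * (q ^ 6 - 1) := by
  rcases Nat.eq_zero_or_pos q with h0 | h1
  · subst h0; simp
  by_cases hq : 3 ∣ q
  · exact Dvd.dvd.mul_right (Dvd.dvd.mul_right hq _) _
  have h10 : (q : ZMod 3) ^ 4 = 1 := by
    have h11 : (q : ZMod 3) ≠ 0 := fun h0 => hq ((ZMod.natCast_eq_zero_iff q 3).1 h0)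
    revert h11
    generalize (q : ZMod 3) = z
    revert z
    decide
  have h12 : ((q ^ 4 - 1 : ℕ) : ZMod 3) = 0 := by
    rw [Nat.cast_sub (Nat.one_le_pow 4 q h1)]
    push_cast
    rw [h10, sub_self]
  exact Dvd.dvd.mul_right (Dvd.dvd.mul_left ((ZMod.natCast_eq_zero_iff _ 3).1 h12) _) _

theorem r3_of {n : ℕ} (C : Matrix (Fin n) (Fin n) ℤ) [IsC C] (j0 : Fin n) (θ : Fin n → ℤ) (δ : Fin 5 → Fin n) (h : IsE C j0 θ δ)
    (F : Type) [Field F] [Finite F] (x : MulAut (EG C F)) (h1 : x ≠ 1) : ∃ k ∈ Pool.Agent.GS.CSet 3 x, k ≤ 3 := by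
  have hx : RA C x := f_ARA n C F j0 θ δ h x
  by_cases h3 : 3 ∣ Nat.card F
  · obtain ⟨p, hp⟩ := CharP.exists F
    have := hp
    have : Fintype F := Fintype.ofFinite F
    obtain ⟨m, hpp, hm⟩ := FiniteField.card F p
    rw [Nat.card_eq_fintype_card, hm] at h3
    have : 3 = p := (Nat.prime_dvd_prime_iff_eq Nat.prime_three hpp).1 (Nat.prime_three.dvd_of_dvd_pow h3)
    subst this
    exact ⟨2, f_BPW n C F j0 θ δ h x hx h1 3 Nat.prime_three hp, by norm_num⟩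
  · exact A3.g_Z3F n C F j0 θ δ h h3 x hx h1

theorem bd_of {n : ℕ} (C : Matrix (Fin n) (Fin n) ℤ) [IsC C] (j0 : Fin n) (θ : Fin n → ℤ) (δ : Fin 5 → Fin n) (h : IsE C j0 θ δ)
    (F : Type) [Field F] [Finite F] (x : MulAut (EG C F)) (h1 : x ≠ 1) : Bounds (Nat.card F) x := by
  intro r hr hd'
  have hd : r ∣ Nat.card F * (Nat.card F ^ 4 - 1) * (Nat.card F ^ 6 - 1) := by
    rcases hd' with h | h | h
    · exact h
    · exact h ▸ dvd3 _
    · exact dvd57 h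
  have hx : RA C x := f_ARA n C F j0 θ δ h x
  have hq1 : 1 ≤ Nat.card F := Nat.one_le_iff_ne_zero.2 Nat.card_pos.ne'
  have hB : (r ∣ Nat.card F → 2 ∈ Pool.Agent.GS.CSet r x) := by
    intro hq
    obtain ⟨p, hp⟩ := CharP.exists F
    have := hp
    have : Fintype F := Fintype.ofFinite F
    obtain ⟨m, hpp, hm⟩ := FiniteField.card F p
    rw [Nat.card_eq_fintype_card, hm] at hq
    have : r = p := (Nat.prime_dvd_prime_iff_eq hr hpp).1 (hr.dvd_of_dvd_pow hq)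
    subst this
    exact f_BPW n C F j0 θ δ h x hx h1 r hr hp
  have hM : r ∣ Nat.card F ^ 4 - 1 → 4 ∈ Pool.Agent.GS.CSet r x := fun h4 =>
    (f_BMN n C F j0 θ δ h x hx h1 r hr (ntd hr 4 (by norm_num) h4 hq1)).1 h4
  have hN : r ∣ Nat.card F ^ 6 - 1 → ¬ r ∣ Nat.card F ^ 4 - 1 → 6 ∈ Pool.Agent.GS.CSet r x := fun h6 h4 =>
    (f_BMN n C F j0 θ δ h x hx h1 r hr (ntd hr 6 (by norm_num) h6 hq1)).2 h6 (fun h2 => h4 (dvd4_of_2 h2))
  have hne : (Pool.Agent.GS.CSet r x).Nonempty := by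
    rcases (Nat.Prime.dvd_mul hr).1 hd with h' | h6
    · rcases (Nat.Prime.dvd_mul hr).1 h' with hq | h4
      · exact ⟨2, hB hq⟩
      · exact ⟨4, hM h4⟩
    · by_cases h4 : r ∣ Nat.card F ^ 4 - 1
      · exact ⟨4, hM h4⟩
      · exact ⟨6, hN h6 h4⟩
  have hl : IsLeast (Pool.Agent.GS.CSet r x) (sInf (Pool.Agent.GS.CSet r x)) :=
    ⟨Nat.sInf_mem hne, fun k hk => Nat.sInf_le hk⟩
  refine ⟨_, hl, fun hq => hl.2 (hB hq), fun h4 => hl.2 (hM h4), fun h6 => ?_, fun h3 => ?_, fun h5 => ?_⟩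
  · by_cases h4 : r ∣ Nat.card F ^ 4 - 1
    · exact (hl.2 (hM h4)).trans (by norm_num)
    · exact hl.2 (hN h6 h4)
  · subst h3
    obtain ⟨k, hk, hk3⟩ := r3_of C j0 θ δ h F x h1
    exact (hl.2 hk).trans hk3
  · rcases (Nat.Prime.dvd_mul hr).1 hd with h' | h6
    · rcases (Nat.Prime.dvd_mul hr).1 h' with hq | h4
      · exact (hl.2 (hB hq)).trans (by omega)
      · exact (hl.2 (hM h4)).trans (by omega)
    · by_cases h4 : r ∣ Nat.card F ^ 4 - 1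
      · exact (hl.2 (hM h4)).trans (by omega)
      · have := ordbd hr h5 h6 h4 hq1
        exact (hl.2 (hN h6 h4)).trans (by omega)

theorem r11_of (F : Type) [Field F] [Finite F] (x : MulAut (EG CartanMatrix.E₈ F)) (h1 : x ≠ 1) :
    ∃ β, IsLeast (Pool.Agent.GS.CSet 11 x) β ∧ β ≤ 10 := by
  have hk : 10 ∈ Pool.Agent.GS.CSet 11 x := f_T11 F x (f_ARA _ _ F _ _ _ f_DE8.2 x) h1
  have hl : IsLeast (Pool.Agent.GS.CSet 11 x) (sInf (Pool.Agent.GS.CSet 11 x)) :=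
    ⟨Nat.sInf_mem ⟨_, hk⟩, fun k hk => Nat.sInf_le hk⟩
  exact ⟨_, hl, hl.2 hk⟩

theorem main_EG (F : Type) [Field F] [Finite F] :
    (∀ x : MulAut (EG CartanMatrix.E₆ F), x ≠ 1 → Bounds (Nat.card F) x) ∧
    (∀ x : MulAut (EG CartanMatrix.E₇ F), x ≠ 1 → Bounds (Nat.card F) x) ∧
    ∀ x : MulAut (EG CartanMatrix.E₈ F), x ≠ 1 → Bounds (Nat.card F) x ∧ ∃ β, IsLeast (Pool.Agent.GS.CSet 11 x) β ∧ β ≤ 10 :=
  ⟨fun x => bd_of _ _ _ _ f_DE6.2 F x, fun x => bd_of _ _ _ _ f_DE7.2 F x,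
    fun x h1 => ⟨bd_of _ _ _ _ f_DE8.2 F x h1, r11_of F x h1⟩⟩

/-- The theorem for the groups `E₆(q)`, `E₇(q)`, `E₈(q)`. -/
theorem main (F : Type) [Field F] [Finite F] :
    (∀ x : MulAut (Chev CartanMatrix.E₆ F), x ≠ 1 → Bounds (Nat.card F) x) ∧
    (∀ x : MulAut (Chev CartanMatrix.E₇ F), x ≠ 1 → Bounds (Nat.card F) x) ∧
    ∀ x : MulAut (Chev CartanMatrix.E₈ F), x ≠ 1 → Bounds (Nat.card F) x ∧ ∃ β, IsLeast (Pool.Agent.GS.CSet 11 x) β ∧ β ≤ 10 :=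
  main_EG F

end Pool.Agent.EXN
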