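import Pool.Agent.helper17.EXC.Defs2

/-!
# Project EXC (MP_561ff4_al): Q1 for the groups `E₆(q)`, `E₇(q)`, `E₈(q)`. The rows

Page: `/team-store/G7_561ff4_EXC_helper17.md`. Complete paper proof in the docstrings. RULES. Row `XXX`: file
`Pool/Agent/<seat>/EXC/XXX.lean`, `import Pool.Agent.helper17.EXC.Spec`, `set_option autoImplicit false`, `open Finset`,
`namespace Pool.Agent.EXC`, theorem line exactly as in the lock note (other rows only as hypotheses), auxiliary lemmas prefixed `XXX_`.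
Free lemmas: `Basic.lean` (bilinearity of `ip`, `ev`, `br`, `fm`; `br_E_E`, `br_E_H`, `br_H_E`, `fm_E`, `fm_E_E`, `Lm_ind`, `Lm_ext`, signs) and
`Defs.lean` (`ip_abs_le`, `eq_of_ip_eq_two`, `eq_neg_of_ip_eq_neg_two`, `add_root_iff`, `sub_root_iff`, `ip_eq_sum`, `ip_two_le`).
No straight double quotes, no convert / congr!. Land, note DONE + path, one line to helper17. A doubtful statement: tell me.

CONVENTIONS. A root is `α : Fin n → ℤ` with `ip C α α = 2`; `α_i = sr i`. `x_α(t)` stands for a `g` with `IsX C (E C α) t g`; `m = (α, β) = ip C α β`.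
-/

set_option autoImplicit false

open Finset

namespace Pool.Agent.EXC

/-! ## A. Roots -/

/-- **RFL** (short). Elementary facts on `rf`: expand (`ip_sub_left`, `ip_smul_left`, `ip_sr_self`). -/
def RFL_stmt : Prop := ∀ (n : ℕ) (C : Matrix (Fin n) (Fin n) ℤ) [IsC C] (i : Fin n) (v w : Fin n → ℤ),
  ip C (rf C i v) (rf C i w) = ip C v w ∧ rf C i (rf C i v) = v ∧ rf C i (-v) = -rf C i v ∧ rf C i (v + w) = rf C i v + rf C i w ∧
    (∀ j, j ≠ i → rf C i v j = v j)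

/-- **DIC** (short-medium). Every root is positive or negative. `v = v⁺ - v⁻` (`v⁺ = max v 0`, `v⁻ = max (-v) 0`), `(v⁺, v⁻) = ∑ v⁺_i C_ij v⁻_j ≤ 0` (the terms `i = j` vanish, the others are `≤ 0`), so
`2 = (v⁺,v⁺) + (v⁻,v⁻) - 2 (v⁺,v⁻)`, which is `≥ 4` if both are not `0` (`ip_two_le`). -/
def DIC_stmt : Prop := ∀ (n : ℕ) (C : Matrix (Fin n) (Fin n) ℤ) [IsC C] (v : Fin n → ℤ), ip C v v = 2 → Pos v ∨ Pos (-v)

/-- **RFP** (short-medium). uses: RFL, DIC. A positive root `v ≠ α_i` has a coordinate `v_k > 0`, `k ≠ i` (otherwise `v = c α_i`, `2 c² = 2`, `c = 1`). `rf C i v`, `v + α_i`, `v - α_i` (if they are roots) have the same coordinate `k`, so they are positive by DIC.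
Last part: `2 = (v, v) = ∑ v_i (α_i, v)`, so some `(v, α_i) > 0` with `v_i > 0`; `(v, α_i) = 2` means `v = α_i`. -/
def RFP_stmt : Prop := ∀ (n : ℕ) (C : Matrix (Fin n) (Fin n) ℤ) [IsC C] (v : Fin n → ℤ), ip C v v = 2 → Pos v →
  (∀ i, v ≠ sr i → Pos (rf C i v) ∧ (ip C v (sr i) = -1 → Pos (v + sr i)) ∧ (ip C v (sr i) = 1 → Pos (v - sr i))) ∧
  ((∃ i, v = sr i) ∨ ∃ i, ip C v (sr i) = 1 ∧ 0 < v i)

/-- **DOM** (medium). uses: RFL, DIC. All roots supported on a connected set `J` are in one orbit of `⟨s_i : i ∈ J⟩`. The relation is symmetric (`rf` is an involution) and preserves roots supported on `J`. In the orbit of `v` (finitely many roots) take a root `γ` with the largest sum of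
coordinates: `(γ, α_i) ≥ 0` for `i ∈ J` (the sum of the coordinates of `rf C i γ` is larger by `-(γ, α_i)`). `γ` is positive: otherwise `(γ,γ) = ∑ γ_i (α_i,γ) ≤ 0`. Full support: `K = {i ∈ J : γ_i > 0}`; if `K ≠ J` there are `i ∈ K`, `j ∈ J \ K`, `C i j < 0`, then `(γ, α_j) < 0`. If `γ, γ'` are two
such roots, then `(γ, γ') = ∑ γ'_i (α_i, γ) > 0` (some `(α_i, γ) > 0` as `∑ γ_i (α_i, γ) = 2`, and `γ'_i > 0`), so it is `2` (`γ = γ'`) or `1`; then `γ - γ'` is a root, supported on `J`; if it is positive then `0 ≤ (γ', γ - γ') = 1 - 2`, a contradiction; if it is negative exchange them. -/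
def DOM_stmt : Prop := ∀ (n : ℕ) (C : Matrix (Fin n) (Fin n) ℤ) [IsC C] (J : Finset (Fin n)), Conn C J → ∀ v w : Fin n → ℤ,
  ip C v v = 2 → ip C w w = 2 → (∀ i, i ∉ J → v i = 0) → (∀ i, i ∉ J → w i = 0) →
  Relation.ReflTransGen (fun a b => ∃ i ∈ J, b = rf C i a) v w

/-- **THT** (medium). uses: RFL, DIC, DOM. The Weyl group is transitive on the ordered pairs of roots with given product `m = -2, -1, 0`. WP is symmetric and transitive. DOM (`J = univ`) moves `α` to `θ` (apply the same reflections to `β`). The `s_i`, `i ≠ j0`, fix `θ`. `m = -2`: `β = -α`. `m = 0`: `(β, θ) = β_{j0} = 0`: DOM with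
`J = univ.erase j0`. `m = -1`: `β_{j0} = -1`; `γ = -β`, `γ_{j0} = 1`: in its orbit under the `s_i`, `i ≠ j0` (they do not change the coordinate `j0`), take the root with the smallest sum of coordinates: `(γ, α_i) ≤ 0` for `i ≠ j0`, `γ ≥ 0` (DIC), `2 = (γ,γ) = (γ, α_j0) + ∑_(i≠j0) γ_i (γ, α_i) ≤ (γ, α_j0)`, so
`γ = α_j0`. So every pair is in the orbit of `(θ, -θ)`, `(θ, -α_j0)` or `(θ, β₀)`. -/
def THT_stmt : Prop := ∀ (n : ℕ) (C : Matrix (Fin n) (Fin n) ℤ) [IsC C] (j0 : Fin n) (θ : Fin n → ℤ) (δ : Fin 5 → Fin n), IsE C j0 θ δ →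
  ∀ α β α' β' : Fin n → ℤ, ip C α α = 2 → ip C β β = 2 → ip C α' α' = 2 → ip C β' β' = 2 → ip C α β = ip C α' β' →
  (ip C α β = -2 ∨ ip C α β = -1 ∨ ip C α β = 0) → WP C (α, β) (α', β')

/-- **DE6** (short-medium). `E₆`. Positivity: completing squares: `(v,v) = 2 (v1 - v3/2)² + 2 (v0 - v2/2)² + (3/2)(v2 - (2/3) v3)² + 2 (v5 - v4/2)² + (3/2)(v4 - (2/3) v3)² + (1/6) v3²` (times a common denominator; over ℤ by `nlinarith` / `ring` and cases). The rest: `decide` / `fin_cases`, `simp`. -/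
def DE6_stmt : Prop := IsC CartanMatrix.E₆ ∧ IsE CartanMatrix.E₆ 1 ![1, 2, 2, 3, 2, 1] ![0, 2, 3, 4, 5]

/-- **DE7** (short-medium). `E₇`. The same with the arm `v4, v5, v6` (of length 3: `(3/4) v3²` is subtracted): rest `(1/12) v3²`. -/
def DE7_stmt : Prop := IsC CartanMatrix.E₇ ∧ IsE CartanMatrix.E₇ 0 ![2, 2, 3, 4, 3, 2, 1] ![0, 2, 3, 4, 5]

/-- **DE8** (short-medium). `E₈`. The same with the arm `v4, .., v7` (length 4: `(4/5) v3²`): rest `(1/30) v3²`. -/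
def DE8_stmt : Prop := IsC CartanMatrix.E₈ ∧ IsE CartanMatrix.E₈ 7 ![2, 3, 4, 6, 5, 4, 3, 2] ![0, 2, 3, 4, 5]

/-- **RHO** (short-medium). The roots `ε_a - ε_b` of the subsystem of type `A₅`. `pr δ a` is a sum over the chain; `(pr a, pr b)` from `IsE.ch` (`a, b : Fin 6`: `decide`-like computation with `ip_sum_left`, or: `f a b = (pr a, pr b)`, recursion `pr (a+1) = pr a + α_{δ a}`). Signs: `bf` is bilinear, `bf (sr (δ k)) (sr (δ k)) = 1`,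
`bf (sr (δ k)) (sr (δ (k+1))) = -1`, `bf (sr (δ (k+1))) (sr (δ k)) = 0` (`δ` is increasing), all others `0`; then a finite check. -/
def RHO_stmt : Prop := ∀ (n : ℕ) (C : Matrix (Fin n) (Fin n) ℤ) [IsC C] (j0 : Fin n) (θ : Fin n → ℤ) (δ : Fin 5 → Fin n), IsE C j0 θ δ →
  (∀ a b c d : Fin 6, ip C (ro δ a b) (ro δ c d) = (if a = c then 1 else 0) + (if b = d then 1 else 0) - (if a = d then 1 else 0) -
    (if b = c then 1 else 0)) ∧
  (∀ a b c : Fin 6, a ≠ b → b ≠ c → a ≠ c → sg C (ro δ a b) (ro δ b c) * et a b * et b c = et a c) ∧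
  (∀ a b c : Fin 6, ro δ a b + ro δ b c = ro δ a c) ∧ (∀ a b : Fin 6, ro δ b a = -ro δ a b) ∧
  ∀ a b c d : Fin 6, a ≠ b → c ≠ d → ro δ a b = ro δ c d → a = c ∧ b = d

/-! ## B. The Lie algebra and the group -/

section
variable {n : ℕ} {F : Type} [Field F]

/-- **JAC** (medium-long). Jacobi identity for a root vector. By `Lm_ind` in `v` and `w`. Cases: (H, H): both sides `0` by `br_E_H`, `br_H_H` (`ev α h (..)` symmetric). (E β, H), (H, E β): `ev C (α+β) h = ev C α h + ev C β h`, `ev C (-α) h = - ev C α h`, `br (ht α) ..`. (E β, E γ): by `br_E_E`; with `p = (α,β)`, `q = (α,γ)`, `s = (β,γ)`: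
the coefficient of `E (α+β+γ)`: it is a root only if `3 + p + q + s = 1`, i.e. `p + q + s = -2`; a term `[E α, [E β, E γ]]` is `ε(β,γ) ε(α,β+γ)` if `s = -1` (then `(α, β+γ) = p + q = -1` automatically), and so on; at least ... exactly two of `p, q, s` are `-1` or one is `-2` and then the other two sum to `0`; use `sg_add_right`, `sg_comm_odd`, `sg_comm_even`.
`α + β + γ = 0` (then `p = q = s = -1`): `E (β+γ) = E (-α)`, `- ε(β,γ) h_α` etc. and `h_α + h_β + h_γ = 0`. The cases with `γ = -β` etc.: `[E α, -h_β] = (α,β) E α` (`ev_coroot`). -/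
def JAC_stmt : Prop := ∀ (n : ℕ) (C : Matrix (Fin n) (Fin n) ℤ) [IsC C] (F : Type) [Field F] (α : Fin n → ℤ), ip C α α = 2 → ∀ v w : Lm C F,
  br C (E C α) (br C v w) = br C (br C (E C α) v) w + br C v (br C (E C α) w)

/-- **STR** (medium-long). The second identity for a root vector. By `Lm_ind` in `v`, `w`; `fm_E`: `fm (E α) y` is the coefficient of `y` at `-α`. (H, H): `[[a,h],[a,h']]` is a multiple of `[a,a] = 0`. (E β, H): `fm a (br v w)` etc. are `0` unless `β = -α`: `[E(-α), h] = α(h) E(-α)`. (E β, E γ), `p = (α,β)`, `q = (α,γ)`, `s = (β,γ)`: the left side is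
`[β+γ = -α] ε(β,γ) E α` (then `p = q = s = -1`; right side `[[a,v],[a,w]] = ε(α,β) ε(α,γ) [E(α+β), E(α+γ)]`, `(α+β, α+γ) = 2+p+q+s = -1`, sum `= α`). If `β = -α`: `fm a v = 1`, `[a,v] = -h_α`, `[[a,v],[a,w]] = -(α, α+γ) ε(α,γ) E (α+γ)` for `q = -1`: `(α, α+γ) = 1`. If `β = γ = -α`: `0`. Otherwise
`2 + p + q + s ≥ 0` or both sides vanish: `[E (α+β), E(α+γ)] ≠ 0` needs `p = q = -1` and `(α+β, α+γ) = s ≤ -1`; `s = -1` is the first case (`β + γ = -α` as `(α, β+γ) = -2`), `s = -2`: `γ = -β`, but then `q = -p`. -/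
def STR_stmt : Prop := ∀ (n : ℕ) (C : Matrix (Fin n) (Fin n) ℤ) [IsC C] (F : Type) [Field F] (α : Fin n → ℤ), ip C α α = 2 → ∀ v w : Lm C F,
  fm C (E C α) (br C v w) • (E C α : Lm C F) = fm C (E C α) v • br C (E C α) w - fm C (E C α) w • br C (E C α) v +
    br C (br C (E C α) v) (br C (E C α) w)

/-- **INV** (medium). Invariance and symmetry of the form, `[a,[a,v]] = 2 fm(a,v) a`, antisymmetry of the bracket. By `Lm_ind`. `fm(E(α+β), E γ) ε(α,β)` for `γ = -(α+β)` (so `(α,β) = -1`, `(α,γ) = -1`) against `- fm(E β, E(α+γ)) ε(α,γ)`, `β = -(α+γ)`: `ε(α,γ) = ε(α,α) ε(α,β) = -ε(α,β)`. -/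
def INV_stmt : Prop := ∀ (n : ℕ) (C : Matrix (Fin n) (Fin n) ℤ) [IsC C] (F : Type) [Field F],
  (∀ α, ip C α α = 2 → ∀ v w : Lm C F, fm C (br C (E C α) v) w = -fm C v (br C (E C α) w)) ∧
  (∀ α, ip C α α = 2 → ∀ v : Lm C F, br C (E C α) (br C (E C α) v) = (2 * fm C (E C α) v) • E C α) ∧
  (∀ v w : Lm C F, fm C v w = fm C w v) ∧ (∀ v w : Lm C F, br C v w = -br C w v) ∧
  ∀ α, ip C α α = 2 → br C (E C α) (E C α) = (0 : Lm C F) ∧ fm C (E C α) (E C α : Lm C F) = 0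

/-- **XAU** (medium). uses: INV. `x_a(t)` is an automorphism if `Xtr a`. (1) `x_a(s) x_a(t) = x_a(s+t)`: expand: `fm a (v + t[a,v] + ..) = fm a v` (`fm(a,[a,v]) = -fm([a,a],v) = 0`), `[a,[a,v]] = 2 fm(a,v) a`. So `x_a(t)` is bijective (inverse `x_a(-t)`), linear. (2) it preserves `br` and `fm`: compare the coefficients of `t, t², t³, t⁴`:
`jac`, `str`, `fm(a,w)[[a,v],a] + fm(a,v)[a,[a,w]] = 0`, `[a,a] = 0`; `inv`, `fm([a,v],[a,w]) = -fm(v,[a,[a,w]]) = -2 fm(a,w) fm(v,a)`, `0`, `fm(a,a) = 0`. (3) an automorphism `g`: `Xtr (g a)` (apply `g` to the identities for `g⁻¹ v, g⁻¹ w`), `g x_a(t) v = x_{ga}(t) (g v)`. (4) scalars. (5) the inverse and the product of automorphisms are automorphisms. -/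
def XAU_stmt : Prop := ∀ (n : ℕ) (C : Matrix (Fin n) (Fin n) ℤ) [IsC C] (F : Type) [Field F] (a : Lm C F), Xtr C a →
  (∀ s t v, xe C a s (xe C a t v) = xe C a (s + t) v) ∧ (∀ t, ∃ g, IsX C a t g ∧ Au C g) ∧
  (∀ g, Au C g → Xtr C (g a) ∧ ∀ t v, g (xe C a t v) = xe C (g a) t (g v)) ∧
  ∀ c : F, Xtr C (c • a) ∧ ∀ t v, xe C (c • a) t v = xe C a (c * t) v

/-- **EXF** (short-medium). uses: JAC, STR, INV, XAU. Basic facts. `Xtr (E α)` from JAC, STR, INV. Generators are automorphisms (XAU, linear maps with the same values are equal), so all elements of `GE` (closure induction; products and inverses). `a = c • g (E α)`: `Xtr a`, `x_a(t) = g x_α(ct) g⁻¹ ∈ GE`. Conjugation: XAU (3). `a ≠ 0`: `E_ne_zero`.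
Injectivity of `t ↦ x_a(t)`: for `a = E α` evaluate at `E (-α)`: the `h`-part (if `h_α ≠ 0` in `F`) is not enough in characteristic 2.., so use a root `β` with `(α,β) = -1` (hypothesis `hβ`): `x_α(t) E β = E β + t ε E (α+β)`. The last two parts: definition of `IsRS`, `IsX C (E α) t (g⁻¹ h g)` iff `IsX C (g E α) t h`. -/
def EXF_stmt : Prop := ∀ (n : ℕ) (C : Matrix (Fin n) (Fin n) ℤ) [IsC C] (F : Type) [Field F],
  (∀ α, ip C α α = 2 → ∃ β, ip C β β = 2 ∧ ip C α β = -1) →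
  (∀ g ∈ GE C F, Au C g) ∧ (∀ α, ip C α α = 2 → Ex C (E C α : Lm C F)) ∧
  (∀ a : Lm C F, Ex C a → Xtr C a ∧ a ≠ 0 ∧ (∀ g ∈ GE C F, Ex C (g a)) ∧ (∀ c : F, c ≠ 0 → Ex C (c • a)) ∧ (∀ t, ∃ h ∈ GE C F, IsX C a t h) ∧
    (∀ h, (∃ t, IsX C a t h) → h ∈ GE C F) ∧
    (∀ s t h, IsX C a s h → IsX C a t h → s = t) ∧
    (∀ g ∈ GE C F, ∀ t h, IsX C a t h → IsX C (g a) t (g * h * g⁻¹)) ∧
    (∀ s t g h, IsX C a s g → IsX C a t h → IsX C a (s + t) (g * h))) ∧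
  ∀ A : Subgroup (EG C F), IsRS C A ↔ ∃ a, Ex C a ∧ ∀ h : EG C F, h ∈ A ↔ ∃ t, IsX C a t (h : Lm C F ≃ₗ[F] Lm C F)

/-- **ACT** (short-medium). Action of `x_α(t)` on the basis: `xe`, `br_E_E`, `br_E_H`, `fm_E_E`, `fm_E_H`, `ev_coroot`. -/
def ACT_stmt : Prop := ∀ (n : ℕ) (C : Matrix (Fin n) (Fin n) ℤ) [IsC C] (F : Type) [Field F] (α : Fin n → ℤ) (t : F), ip C α α = 2 →
  (∀ β, ip C β β = 2 → 0 ≤ ip C α β → xe C (E C α) t (E C β) = (E C β : Lm C F)) ∧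
  (∀ β, ip C β β = 2 → ip C α β = -1 → xe C (E C α) t (E C β) = (E C β + (t * (sg C α β : F)) • E C (α + β) : Lm C F)) ∧
  xe C (E C α) t (E C (-α)) = (E C (-α) - t • ht C α + t ^ 2 • E C α : Lm C F) ∧
  (∀ h : Fin n → F, xe C (E C α) t (h, 0) = ((h, 0) - (t * ev C α h) • E C α : Lm C F)) ∧
  ∀ β, xe C (E C α) t (ht C β) = (ht C β - (t * (ip C α β : F)) • E C α : Lm C F)

/-- **COL** (medium). uses: INV. Commuting root elements. `(β,γ) ≥ 0`: `[E β, E γ] = 0`, `fm (E β) (E γ) = 0` and, if `(β,γ) = 1`: `[E β, [E γ, v]] = fm(E β, v) E γ + fm(E γ, v) E β` (check on the basis: `v = E (-β)`: `ε(γ,-β) ε(β,γ-β) = ε(γ,β) ε(β,γ) ε(β,β) = 1`; `v = E (-γ)`: `[E β, -h_γ] = (β,γ) E β`; all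
other `v`: `0`); if `(β,γ) = 0`: `[E β,[E γ,v]] = [E γ,[E β,v]]` (JAC-like; check on the basis or from `hJ`). Then expand `x_β(b) x_γ(c) v`. -/
def COL_stmt : Prop := ∀ (n : ℕ) (C : Matrix (Fin n) (Fin n) ℤ) [IsC C] (F : Type) [Field F] (β γ : Fin n → ℤ), ip C β β = 2 → ip C γ γ = 2 →
  (ip C β γ = 1 → (∀ (b c t : F) (v : Lm C F), xe C (b • E C β + c • E C γ) t v = xe C (E C β) (b * t) (xe C (E C γ) (c * t) v)) ∧
    ∀ v : Lm C F, br C (E C β) (br C (E C γ) v) = fm C (E C β) v • E C γ + fm C (E C γ) v • E C β) ∧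
  (0 ≤ ip C β γ → ∀ (b c : F) (v : Lm C F), xe C (E C β) b (xe C (E C γ) c v) = xe C (E C γ) c (xe C (E C β) b v))

/-- **NRF** (medium). uses: EXF, ACT, RFL. The reflections. `α = α_i`, `g = x_α(1) x_{-α}(1) x_α(1)`, `m = (α,γ)`, `ε = ε(α,γ)`. `m = 0`: fixed. `m = 1`: `E γ ↦ E γ + ε E(γ-α) ↦ E γ + ε E(γ-α) + ε ε(α,γ-α) E γ = ε E(γ-α)` as `ε(α,γ-α) = -ε`. `m = -1`: `E γ + ε E(γ+α) ↦ E γ + ε E(γ+α) - E γ = ε E(γ+α)`, fixed by the last factor.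
`γ = α`: `E α ↦ E α ↦ E α + h_α + E(-α) ↦ E(-α)`; `γ = -α`: `E(-α) ↦ E(-α) - h_α + E α ↦ E α`. -/
def NRF_stmt : Prop := ∀ (n : ℕ) (C : Matrix (Fin n) (Fin n) ℤ) [IsC C] (F : Type) [Field F],
  (∀ α, ip C α α = 2 → ∃ β, ip C β β = 2 ∧ ip C α β = -1) → ∀ i : Fin n, ∃ g ∈ GE C F, ∀ γ, ip C γ γ = 2 →
  ∃ s : ℤ, (s = 1 ∨ s = -1) ∧ g (E C γ) = (s : F) • (E C (rf C i γ) : Lm C F)

/-- **WPG** (short). uses: NRF, RFL. Induction on the chain of reflections. -/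
def WPG_stmt : Prop := ∀ (n : ℕ) (C : Matrix (Fin n) (Fin n) ℤ) [IsC C] (F : Type) [Field F],
  (∀ α, ip C α α = 2 → ∃ β, ip C β β = 2 ∧ ip C α β = -1) → ∀ α β α' β' : Fin n → ℤ, ip C α α = 2 → ip C β β = 2 → WP C (α, β) (α', β') →
  ∃ g ∈ GE C F, ∃ s s' : ℤ, (s = 1 ∨ s = -1) ∧ (s' = 1 ∨ s' = -1) ∧ g (E C α) = (s : F) • (E C α' : Lm C F) ∧
    g (E C β) = (s' : F) • (E C β' : Lm C F)

/-- **NBR** (short-medium). uses: RFL, DOM. Every root has a root with product `-1` and all the roots are in one orbit: `(α_{δ 0}, α_{δ 1}) = -1`; DOM with `J = univ` from `α_{δ 0}` to `α`, apply the same reflections to `α_{δ 1}`. -/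
def NBR_stmt : Prop := ∀ (n : ℕ) (C : Matrix (Fin n) (Fin n) ℤ) [IsC C] (j0 : Fin n) (θ : Fin n → ℤ) (δ : Fin 5 → Fin n), IsE C j0 θ δ →
  (∀ α, ip C α α = 2 → ∃ β, ip C β β = 2 ∧ ip C α β = -1) ∧
  ∀ α α' β, ip C α α = 2 → ip C α' α' = 2 → ip C β β = 2 → ∃ β', ip C β' β' = 2 ∧ WP C (α, β) (α', β')

/-- **TSY** (short). uses: NBR, WPG, RFL. The type is symmetric: `k a = c E θ`, `k b = c' E β`; NBR: `(β, θ)` is in the orbit of some `(θ, β')`, the products are preserved (RFL, induction on `WP`); WPG. -/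
def TSY_stmt : Prop := ∀ (n : ℕ) (C : Matrix (Fin n) (Fin n) ℤ) [IsC C] (F : Type) [Field F] (j0 : Fin n) (θ : Fin n → ℤ) (δ : Fin 5 → Fin n),
  IsE C j0 θ δ → ∀ (a b : Lm C F) (m : ℤ), Tp C θ a b m → Tp C θ b a m

/-- **GEN** (medium). uses: DIC, RFP, EXF, ACT, COL. The group is generated by the `x_{±α_i}(t)`. Induction on the sum of the coordinates of a positive root `γ`. If `γ ≠ α_i`: `(γ, α_i) = 1` for some `i` (RFP), `γ' = γ - α_i` is a positive root, `(α_i, γ') = -1`: `x_{α_i}(s) x_{γ'}(1) x_{α_i}(-s) = x_{b}(1)`, `b = E γ' + s ε E γ`, which is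
`x_{γ'}(1) x_γ(s ε)` (COL, `(γ', γ) = 1`); so `x_γ(s ε)` is generated. Negative roots: the same with `-α_i`, `-γ'`. -/
def GEN_stmt : Prop := ∀ (n : ℕ) (C : Matrix (Fin n) (Fin n) ℤ) [IsC C] (F : Type) [Field F],
  (∀ α, ip C α α = 2 → ∃ β, ip C β β = 2 ∧ ip C α β = -1) → ∀ γ, ip C γ γ = 2 → ∀ (t : F) (g : Lm C F ≃ₗ[F] Lm C F), IsX C (E C γ) t g →
  g ∈ Subgroup.closure {g : Lm C F ≃ₗ[F] Lm C F | ∃ i t, IsX C (E C (sr i)) t g ∨ IsX C (E C (-sr i)) t g}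

/-- **UIN** (medium). uses: RFP, EXF, ACT, COL. `U_i` is normalised by `x_{±α_i}(t)`; `U = U_i X_{α_i}`. Generators of `U_i`: `γ` positive, `γ ≠ α_i`, `σ = ±α_i`: `g x_γ(c) g⁻¹ = x_{b}(c)`, `b = x_σ(t) E γ`, which is `E γ` if `(σ,γ) ≥ 0` (`(σ,γ) = -2` is impossible), and `E γ + t ε E(σ+γ)` if `(σ,γ) = -1`; COL, `σ + γ` is a positive root (RFP),
different from `α_i`. Second part: the set of the `u' g` is closed under left multiplication by generators `x_γ(c)` of `U`: if `γ ≠ α_i` clear; `x_{α_i}(c) u' g = (x_{α_i}(c) u' x_{α_i}(-c)) x_{α_i}(c) g`. (Closure induction from the left: `Subgroup.closure_induction_left`; inverses of generators are generators.) -/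
def UIN_stmt : Prop := ∀ (n : ℕ) (C : Matrix (Fin n) (Fin n) ℤ) [IsC C] (F : Type) [Field F],
  (∀ α, ip C α α = 2 → ∃ β, ip C β β = 2 ∧ ip C α β = -1) → ∀ i : Fin n,
  (∀ u ∈ UI C F i, ∀ (t : F) (g : Lm C F ≃ₗ[F] Lm C F), (IsX C (E C (sr i)) t g ∨ IsX C (E C (-sr i)) t g) → g * u * g⁻¹ ∈ UI C F i) ∧
  (∀ u ∈ UG C F, ∃ u' ∈ UI C F i, ∃ (t : F) (g : Lm C F ≃ₗ[F] Lm C F), IsX C (E C (sr i)) t g ∧ u = u' * g) ∧ UI C F i ≤ UG C F

/-- **RKO** (medium). uses: ACT. Rank one. `m = (α,β)`. `m = 0`: `E β`. `m = 1`: `x_{-α}(t) E β = E β + t ε' E(β-α)`: if `t ≠ 0` it is `t ε' x_α(s') E(β-α)`. `m = -1`: `(1 + s t ε ε') E β + s ε E(β+α)`, `ε = ε(α,β)`, `ε' = ε(-α, β+α)`: if the first coefficient is `≠ 0` it is a multiple of `x_α(s') E β`, otherwise a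
multiple of `E(β+α)`. `β = α`: `E α + t h_α + t² E(-α)`, for `t ≠ 0`: `t² x_α(-1/t) E(-α)`. `β = -α`: `(1-st)² E(-α) - s(1-st) h_α + s² E α`: `(1-st)² x_α(s/(1-st)) E(-α)` or `s² E α`. -/
def RKO_stmt : Prop := ∀ (n : ℕ) (C : Matrix (Fin n) (Fin n) ℤ) [IsC C] (F : Type) [Field F] (α β : Fin n → ℤ) (s t : F), ip C α α = 2 →
  ip C β β = 2 → ∃ β' : Fin n → ℤ, ip C β' β' = 2 ∧ ∃ c : F, c ≠ 0 ∧ ∃ s' : F,
    xe C (E C (-α)) t (xe C (E C α) s (E C β)) = c • (xe C (E C α) s' (E C β') : Lm C F)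

/-- **YST** (medium). uses: EXF, GEN, UIN, RKO. Every `g E β` is a multiple of some `u E β'`, `u ∈ U`. The set of the `c • u E β'` is stable under `x_{α_i}(t) ∈ U` and under `x_{-α_i}(t)`: `u = u' x_{α_i}(s)` (UIN), `x_{-α_i}(t) u' = u'' x_{-α_i}(t)`, then RKO. GEN (closure induction). -/
def YST_stmt : Prop := ∀ (n : ℕ) (C : Matrix (Fin n) (Fin n) ℤ) [IsC C] (F : Type) [Field F],
  (∀ α, ip C α α = 2 → ∃ β, ip C β β = 2 ∧ ip C α β = -1) → ∀ g ∈ GE C F, ∀ β, ip C β β = 2 → ∃ u ∈ UG C F, ∃ β', ip C β' β' = 2 ∧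
  ∃ c : F, c ≠ 0 ∧ g (E C β) = c • (u (E C β') : Lm C F)

/-- **PCL** (medium). uses: EXF, ACT, YST, NBR, WPG. Classification of pairs. `a = c g (E α)`; all root vectors are conjugate to `± E θ` (NBR, WPG), so we may take `a = c g (E θ)`, `b = c' g' (E θ)`; `g⁻¹ g' (E θ) = c'' u (E β)` (YST); `k = u⁻¹ g⁻¹`; `u` fixes `E θ`: `(γ, θ) = ∑ γ_i (α_i, θ) ≥ 0` for positive `γ` (ACT). -/
def PCL_stmt : Prop := ∀ (n : ℕ) (C : Matrix (Fin n) (Fin n) ℤ) [IsC C] (F : Type) [Field F] (j0 : Fin n) (θ : Fin n → ℤ) (δ : Fin 5 → Fin n),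
  IsE C j0 θ δ → ∀ a b : Lm C F, Ex C a → Ex C b → ∃ m, -2 ≤ m ∧ m ≤ 2 ∧ Tp C θ a b m

/-- **TPF** (medium). uses: EXF, ACT, COL, INV. Facts on types; everything is invariant under `k ∈ GE`, so take `a = c E θ`, `b = c' E β`. `m = 2`: `β = θ`. `fm a b ≠ 0` iff `β = -θ` (`fm_E_E`). `m = 1`: `b = [a, v]` with `v` a multiple of `E (β-θ)`, `fm a v = 0`. Commuting: `m ≥ 0` COL. `m = -1`: `x_θ(1) x_β(1) x_θ(-1) = x_{b'}(1)`,
`b' = E β + ε E(θ+β)`; if `x_θ(1), x_β(1)` commute this is `x_β(1)`; evaluate at `E (-θ-β)`: the coefficient of `E (θ+β)` of `x_{b'}(1) E(-θ-β)` is `fm(b', E(-θ-β)) ε = ε² = 1` (plus that of `[b', E(-θ-β)]`, which is `0`), but that of `x_β(1) E(-θ-β)` is `0`. `m = -2`: `b' = x_θ(1) E(-θ) = E(-θ) - h_θ + E θ`,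
`x_{b'}(1) E(-θ)` has the coefficient `fm(b', E(-θ)) = 1` at `E θ`, but `x_{-θ}(1) E(-θ) = E(-θ)`. Proportional `a, b` have only the type `2` (`(θ, β) = 2` as `E β` is a multiple of `E θ`). -/
def TPF_stmt : Prop := ∀ (n : ℕ) (C : Matrix (Fin n) (Fin n) ℤ) [IsC C] (F : Type) [Field F] (θ : Fin n → ℤ), ip C θ θ = 2 →
  (∀ α, ip C α α = 2 → ∃ β, ip C β β = 2 ∧ ip C α β = -1) → ∀ (a b : Lm C F) (m : ℤ), Tp C θ a b m →
  Ex C a ∧ Ex C b ∧ (∀ k ∈ GE C F, Tp C θ (k a) (k b) m) ∧ (∀ c c' : F, c ≠ 0 → c' ≠ 0 → Tp C θ (c • a) (c' • b) m) ∧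
  (m = 2 ↔ ∃ c : F, b = c • a) ∧ (fm C a b ≠ 0 ↔ m = -2) ∧ (m = 1 → ∃ v, fm C a v = 0 ∧ b = br C a v) ∧
  ((∀ h k : EG C F, (∃ t, IsX C a t (h : Lm C F ≃ₗ[F] Lm C F)) → (∃ t, IsX C b t (k : Lm C F ≃ₗ[F] Lm C F)) → h * k = k * h) ↔ 0 ≤ m)

/-- **UNQ** (short-medium). uses: EXF, PCL, ACT. An element `≠ 1` of a root group determines it. By PCL `a = c E θ`, `b = c' E β` (after conjugation): `x_θ(c) = x_β(c' t)`; evaluate at `E(-θ)`: the coefficient of `E θ` is `c²` on the left, and on the right `0` if `β ≠ θ`. Then `c = c' t`. -/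
def UNQ_stmt : Prop := ∀ (n : ℕ) (C : Matrix (Fin n) (Fin n) ℤ) [IsC C] (F : Type) [Field F] (j0 : Fin n) (θ : Fin n → ℤ) (δ : Fin 5 → Fin n),
  IsE C j0 θ δ → ∀ (a b : Lm C F) (t : F) (h : Lm C F ≃ₗ[F] Lm C F), Ex C a → Ex C b → IsX C a 1 h → IsX C b t h → a = t • b

/-- **THR** (medium). uses: EXF, PCL, UNQ, ACT, COL. Third root groups in a product. `m = 1` (after conjugation `a = c E θ`, `b = c' E β`): `d = E θ + E β = x_{θ-β}(±1) E β` is extremal, `x_d(t) = x_θ(t) x_β(t)` (COL). `m = 0`: suppose `x_d(1) = x_θ(s) x_β(t)`, `d` extremal. If `t = 0` or `s = 0`: UNQ (`s t ≠ 0` if `d` is not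
proportional to `a` or `b`). Otherwise compare `x_d(1) E(-θ) = E(-θ) + [d, E(-θ)] + fm(d, E(-θ)) d` with `x_θ(s) x_β(t) E(-θ) = E(-θ) - s h_θ + s² E θ`: coefficients at `E θ`: `[d, E(-θ)]` has none (`2θ` is no root), so `d_θ² = s² ≠ 0` (`fm(d, E(-θ)) = d_θ`, the coefficient of `d` at `E θ`); at `E β`: `[d, E(-θ)]`
has none (`θ + β` is no root), so `d_θ d_β = 0`, `d_β = 0`. In the same way with `E(-β)`: `d_β² = t² ≠ 0`. -/
def THR_stmt : Prop := ∀ (n : ℕ) (C : Matrix (Fin n) (Fin n) ℤ) [IsC C] (F : Type) [Field F] (j0 : Fin n) (θ : Fin n → ℤ) (δ : Fin 5 → Fin n),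
  IsE C j0 θ δ → ∀ a b : Lm C F,
  (Tp C θ a b 1 → ∃ d, Ex C d ∧ (∀ c : F, d ≠ c • a) ∧ (∀ c : F, d ≠ c • b) ∧ ∀ h, (∃ t, IsX C d t h) →
    ∃ h1 h2, (∃ t, IsX C a t h1) ∧ (∃ t, IsX C b t h2) ∧ h = h1 * h2) ∧
  (Tp C θ a b 0 → ∀ d, Ex C d → (∃ h h1 h2, IsX C d 1 h ∧ (∃ t, IsX C a t h1) ∧ (∃ t, IsX C b t h2) ∧ h = h1 * h2) →
    (∃ c : F, d = c • a) ∨ ∃ c : F, d = c • b)

/-- **IMX** (short-medium). uses: EXF, UNQ. Images of root groups. `x(X_a)` is a root subgroup (EXF last part, `RA`). If `Im x a b` and `Im x a' b` then `X_a = X_{a'}` as `x` is injective; then UNQ. -/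
def IMX_stmt : Prop := ∀ (n : ℕ) (C : Matrix (Fin n) (Fin n) ℤ) [IsC C] (F : Type) [Field F] (j0 : Fin n) (θ : Fin n → ℤ) (δ : Fin 5 → Fin n),
  IsE C j0 θ δ → ∀ x : MulAut (EG C F), RA C x → (∀ a, Ex C a → ∃ b, Ex C b ∧ Im C x a b) ∧
  (∀ a a' b, Ex C a → Ex C a' → Ex C b → Im C x a b → Im C x a' b → ∃ c : F, c ≠ 0 ∧ a' = c • a) ∧
  (∀ a b b', Ex C a → Ex C b → Ex C b' → Im C x a b → Im C x a b' → ∃ c : F, c ≠ 0 ∧ b' = c • b) ∧
  ∀ (a b : Lm C F) (c c' : F), Ex C a → Ex C b → c ≠ 0 → c' ≠ 0 → Im C x a b → Im C x (c • a) (c' • b)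

/-- **IMT** (short-medium). uses: PCL, TPF, THR, IMX, EXF. `x` preserves the type 1. `X_a, X_b` commute, so `X_{a'}, X_{b'}` commute, so their type `m'` is `≥ 0` (TPF); `m' ≠ 2`: otherwise `b'` is proportional to `a'`, so `b` to `a` (IMX); `m' ≠ 0`: the image of the third root group `X_d` is a third root group in `X_{a'} X_{b'}` (THR). -/
def IMT_stmt : Prop := ∀ (n : ℕ) (C : Matrix (Fin n) (Fin n) ℤ) [IsC C] (F : Type) [Field F] (j0 : Fin n) (θ : Fin n → ℤ) (δ : Fin 5 → Fin n),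
  IsE C j0 θ δ → ∀ x : MulAut (EG C F), RA C x → ∀ a b a' b' : Lm C F, Ex C a' → Ex C b' → Im C x a a' → Im C x b b' → Tp C θ a b 1 → Tp C θ a' b' 1

/-- **WUQ** (short-medium). The common neighbour. `[E β, v]` with `fm (E β) v = 0` has the `h`-part `0` and coefficients only at roots `γ` with `(γ, β) ≥ 1` (`br_E`: `γ = β`, or `γ - β` is a root). The same for `E γ'`. A root `ρ` with `(ρ, β) ≥ 1`, `(ρ, γ) ≥ 1` has `(ρ, β+γ) ≥ 2`, so `ρ = β + γ`. -/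
def WUQ_stmt : Prop := ∀ (n : ℕ) (C : Matrix (Fin n) (Fin n) ℤ) [IsC C] (F : Type) [Field F] (β γ : Fin n → ℤ), ip C β β = 2 → ip C γ γ = 2 →
  ip C β γ = -1 → ∀ (b c : F) (v w d : Lm C F), fm C (b • E C β) v = 0 → fm C (c • E C γ) w = 0 → d = br C (b • E C β) v →
  d = br C (c • E C γ) w → ∃ κ : F, d = κ • E C (β + γ)

/-- **NRM** (medium). uses: EXF, ACT. An element which fixes all extremal points is `1`. `c (E α) = κ_α E α`. If `(α,β) = 1` then `E α + E β = x_{α-β}(±1) E β` is extremal, so `κ_α = κ_β`. If `(α,β) = -1`: `c` preserves the bracket: `κ_{α+β} = κ_α κ_β`, and `κ_{α+β} = κ_α`, so `κ_β = 1`. `c h_α = -c [E α, E(-α)] = h_α`, `(h, 0) = ∑ h_i h_{α_i}`; `Lm_ind`. -/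
def NRM_stmt : Prop := ∀ (n : ℕ) (C : Matrix (Fin n) (Fin n) ℤ) [IsC C] (F : Type) [Field F],
  (∀ α, ip C α α = 2 → ∃ β, ip C β β = 2 ∧ ip C α β = -1) → ∀ c ∈ GE C F, (∀ a, Ex C a → ∃ κ : F, c a = κ • a) → c = 1

/-- **FIX** (short-medium). uses: EXF, UNQ, NRM. (1) If `x` fixes all root groups then `x = 1`: for `g`, `X_{ga} = g X_a g⁻¹ = x(g X_a g⁻¹) = x(g) X_a x(g)⁻¹ = X_{x(g)a}`, so `x(g) a = κ g a` (UNQ) and `g⁻¹ x(g) = 1` (NRM). (2) The centre is trivial: `z X_a z⁻¹ = X_a`, `z a = κ a`. -/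
def FIX_stmt : Prop := ∀ (n : ℕ) (C : Matrix (Fin n) (Fin n) ℤ) [IsC C] (F : Type) [Field F] (j0 : Fin n) (θ : Fin n → ℤ) (δ : Fin 5 → Fin n),
  IsE C j0 θ δ → (∀ x : MulAut (EG C F), (∀ a, Ex C a → Im C x a a) → x = 1) ∧ ∀ z : EG C F, (∀ g, z * g = g * z) → z = 1

/-- **GEO** (medium). uses: PCL, TPF, IMX, IMT, WUQ, FIX, UNQ, ACT, EXF. `x ≠ 1` moves some point far. Suppose all pairs `(a, a')` (`Im x a a'`) have types `1` or `2`. By FIX some `a'` is not proportional to `a` (type 1); conjugate (`x' = conj k * x * conj k⁻¹`, or transport everything by `k`): `a = E θ`, `a' = c E β`, `(θ,β) = 1`. `b = E (θ-β)`: `(a, b)` has type 1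
(`(θ, θ-β) = 1`), so `(a', b')` has type 1 (IMT). `(b, b')` has type 1 or 2. If 2: `b'` is a multiple of `E(θ-β)`, but `(β, θ-β) = -1`: `X_{a'}`, `X_{b'}` would not commute (TPF). So `b' = [b, v]`, `b' = [a', w]` (TPF), WUQ: `b'` is a multiple of `E θ`. The same for `b₂ = x_β(1) E(θ-β) = E(θ-β) ± E θ`: transport by `x_β(-1)`,
which fixes `E θ`, `E β` and maps `b₂` to `b`. So `b₂'` is a multiple of `E θ`. By IMX `b₂` is a multiple of `b`: contradiction. -/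
def GEO_stmt : Prop := ∀ (n : ℕ) (C : Matrix (Fin n) (Fin n) ℤ) [IsC C] (F : Type) [Field F] (j0 : Fin n) (θ : Fin n → ℤ) (δ : Fin 5 → Fin n),
  IsE C j0 θ δ → ∀ x : MulAut (EG C F), RA C x → x ≠ 1 → ∃ a a' : Lm C F, ∃ m : ℤ, Ex C a ∧ Ex C a' ∧ Im C x a a' ∧ Tp C θ a a' m ∧
    (m = -2 ∨ m = -1 ∨ m = 0)

/-! ## B2. The case `r = p` -/

/-- **COR** (medium; Mathlib only). A correlation of a plane has an absolute point. `V = F³`, `q = |F|`. `φ(F v) = F φ(v)` (both have `q` elements), so for every functional `f` on `W` with `f(φ v₀) ≠ 0` for some `v₀` the set `{v : f(φ v) = 0}` is additive, closed under scalars, so a subspace; `v ↦ f(φ v)` is additive. Suppose `B v (φ v) ≠ 0` for all `v ≠ 0`.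
Count lines (points of the plane; `Projectivization F V`, or 1-dimensional subspaces): `D(v, w) = 1` if `B v (φ w) = 0`, else `0`, a matrix over `ZMod p`. For fixed `v ≠ 0`: `{w : B v (φ w) = 0}` is a subspace; it has dimension 2: the image of `φ` is an `F`-subspace of dimension 3 (additive, closed under scalars, `q³` elements), `B v` is not `0` on it. For fixed `w`:
`{v : B v (φ w) = 0}` has dimension 2. So `(D²)(v,w)` = number of points of the intersection of two planes of `V` = `1` or `q+1`, `= 1` mod `p`: `D² = J`. Row and column sums are `q+1 = 1`: `DJ = JD = J`, `J² = (q²+q+1) J = J`. `(D - J)² = 0`, so `tr D = tr J = q²+q+1 = 1` (`Matrix.isNilpotent_trace_of_isNilpotent`), but `tr D = 0`. -/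
def COR_stmt : Prop := ∀ (F W : Type) [Field F] [Finite F] [AddCommGroup W] [Module F W] (φ : (Fin 3 → F) →+ W)
  (B : (Fin 3 → F) →ₗ[F] W →ₗ[F] F), Function.Injective φ → (∀ (c : F) (v : Fin 3 → F), ∃ c' : F, φ (c • v) = c' • φ v) →
  ∃ v : Fin 3 → F, v ≠ 0 ∧ B v (φ v) = 0

/-- **CL3** (medium). uses: RHO, EXF, ACT, COL, XAU, NBR, WPG, LIF. A singular plane. `ι(v) = io (∑_(i<3) v_i E_i3)`, so `ι(v) = -∑ v_i E ρ_i`, `ρ_i = ro δ i 3`, mutual products `1` (RHO). For `A ∈ SL_3(F)` and `m = diag(A, 1, 1, 1)`: `m (∑ v_i E_i3) m⁻¹ = ∑ (A v)_i E_i3`, so a lift `h ∈ GE` of `m` (LIF) maps `ι(v)` to `ι(A v)`.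
`SL_3(F)` is transitive on the nonzero vectors and maps independent `v, w` to `e_0, e_1` (third basis vector scaled). So `ι v` is extremal, and `(ι v, ι w)` is conjugate to `(-E ρ_0, -E ρ_1)`, which has type 1 (NBR, WPG: transport `ρ_0` to `θ`; products are preserved). `x_{ι(v)}(1) = x_{ρ_0}(-v_0) x_{ρ_1}(-v_1) x_{ρ_2}(-v_2)`: for `a = v_0 E ρ_0`,
`b = v_1 E ρ_1 + v_2 E ρ_2`: `[a,b] = 0`, `fm(a,b) = 0`, `[a,[b,w]] = fm(a,w) b + fm(b,w) a` (COL, linear in `b`); expand as in COL. So `x_{ι(v)}(1) x_{ι(w)}(1) = x_{ι(v+w)}(1)` (the factors commute, COL, and add, XAU). Or directly: the identity `[a,[b,w]] = fm(a,w) b + fm(b,w) a` for all `a, b` in the plane (bilinear; for `a = b` it is `Xtr.sq`). -/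
def CL3_stmt : Prop := ∀ (n : ℕ) (C : Matrix (Fin n) (Fin n) ℤ) [IsC C] (F : Type) [Field F] (j0 : Fin n) (θ : Fin n → ℤ) (δ : Fin 5 → Fin n),
  IsE C j0 θ δ → ∃ ι : (Fin 3 → F) →ₗ[F] Lm C F, Function.Injective ι ∧ (∀ v, v ≠ 0 → Ex C (ι v)) ∧
    (∀ v w, LinearIndependent F ![v, w] → Tp C θ (ι v) (ι w) 1) ∧ ∀ v w u, xe C (ι v) 1 (xe C (ι w) 1 u) = xe C (ι (v + w)) 1 u

/-- **PLN** (medium). uses: CL3, COR, IMX, IMT, TPF, PCL, COL, UNQ, EXF. Not all points go to opposite points. `T v ∈ GE` with `IsX (ι v) 1 (T v)`. For every `v` there is a unique `φ(v)` with `φ(v) = 0` or `Ex (φ v)`, and `IsX (φ v) 1 (x (T v))` (`Im x (ι v) b`: `x(T v) = x_b(s)`, `φ v = s b`; uniqueness: UNQ). `φ` is additive: `T(v+w) = T v * T w`; if `v, w` are independent, then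
`(ι v, ι w)` has type 1, so `(φ v, φ w)` has type 1 (IMT, TPF for scalars), conjugate to `(c E θ, c' E β)` with `(θ,β) = 1`: `φ v + φ w` is extremal (or use THR-like argument) and `x_{φv}(1) x_{φw}(1) = x_{φv+φw}(1)` (COL); uniqueness. If they are dependent: `φ(w)` is a multiple of `φ(v)` (IMX), `xe_add` (EXF). `φ(c v)` is a multiple of `φ(v)` (IMX), `φ` is injective.
COR with `B v w = fm (ι v) w`: some `v ≠ 0` with `fm (ι v) (φ v) = 0`; TPF. -/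
def PLN_stmt : Prop := ∀ (n : ℕ) (C : Matrix (Fin n) (Fin n) ℤ) [IsC C] (F : Type) [Field F] [Finite F] (j0 : Fin n) (θ : Fin n → ℤ)
  (δ : Fin 5 → Fin n), IsE C j0 θ δ → ∀ x : MulAut (EG C F), RA C x →
  ∃ a a' : Lm C F, ∃ m : ℤ, Ex C a ∧ Ex C a' ∧ Im C x a a' ∧ Tp C θ a a' m ∧ m ≠ -2

/-- **CNN** (medium). uses: EXF, ACT, NBR, PCL, TPF, RFL. Connectedness. First: all root vectors are connected by steps of type 1: `α` and `s_i α` have the product `2 - (α,α_i)² = 1` or are equal or opposite (`α = ±α_i`); `α_i, α_i + α_j, α_j, -α_i` for a node `j` with `C i j = -1` (`con`); `Tp (E α) (E β) 1` if `(α,β) = 1` (WPG, NBR: transport `α` to `θ`). Then for a generator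
`g = x_γ(t)`: `E α` is connected with `E γ`, so `g E α` with `g E γ = E γ`, so with `E α`; by induction on words (`g h`: `h E α ~ E α`, apply `g`) every `g E α` is connected with `E α`. Scalars: hypothesis. -/
def CNN_stmt : Prop := ∀ (n : ℕ) (C : Matrix (Fin n) (Fin n) ℤ) [IsC C] (F : Type) [Field F] (j0 : Fin n) (θ : Fin n → ℤ) (δ : Fin 5 → Fin n),
  IsE C j0 θ δ → ∀ P : Lm C F → Prop, (∀ a (c : F), c ≠ 0 → P a → P (c • a)) → (∀ a b, Tp C θ a b 1 → P a → P b) → (∀ a b, Tp C θ a b 1 → P b → P a) →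
  (∃ a, Ex C a ∧ P a) → ∀ b, Ex C b → P b

/-- **RPX** (medium). uses: PLN, CNN, IMX, IMT, TPF, PCL, FIX, EXF, UNQ, INV. There is an `a` with `(a, a')` not of type `-2` and `x` not trivial on `X_a`. Otherwise (PLN) `x` is trivial on some `X_a`. If `x` is trivial on `X_a` and `(a,b)` has type 1: `(a, b')` has type 1 (IMT, `a' = a`); `b = [a,v]`, `b' = [a,w]`, `fm(a,w) = 0`:
`fm(b, b') = fm([a,v],[a,w]) = -fm(v,[a,[a,w]]) = 0`, so `(b,b')` is not of type `-2`, so `x` is trivial on `X_b`. (The type 1 is symmetric: TSY.) CNN: `x` is trivial on all root groups; FIX: `x = 1`. -/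
def RPX_stmt : Prop := ∀ (n : ℕ) (C : Matrix (Fin n) (Fin n) ℤ) [IsC C] (F : Type) [Field F] [Finite F] (j0 : Fin n) (θ : Fin n → ℤ)
  (δ : Fin 5 → Fin n), IsE C j0 θ δ → ∀ x : MulAut (EG C F), RA C x → x ≠ 1 →
  ∃ a a' : Lm C F, ∃ m : ℤ, Ex C a ∧ Ex C a' ∧ Im C x a a' ∧ Tp C θ a a' m ∧ m ≠ -2 ∧
    ∃ h : EG C F, (∃ t, IsX C a t (h : Lm C F ≃ₗ[F] Lm C F)) ∧ x h ≠ h

/-- **PEL** (medium). uses: EXF, ACT, COL, TPF, UNQ. The product of elements of two root groups which are not opposite has `p`-power order. After conjugation `x_θ(s)`, `x_β(t)`, `(θ,β) ≥ -1`. If `≥ 0` they commute and have order `p` or `1` (`x_a(s)^p = x_a(ps)`). If `-1`: `x_θ(s) x_β(t) x_θ(s)⁻¹ = x_β(t) x_{θ+β}(±st)` (ACT, COL), and `x_{θ+β}` commutes with both; the group generated is nilpotent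
of class 2, `(y z)^p ∈ X_{θ+β}` (`(y z)^k = z^k y^k c_k`, `c_k ∈ X_{θ+β}` by induction), so `(y z)^(p²) = 1`. -/
def PEL_stmt : Prop := ∀ (n : ℕ) (C : Matrix (Fin n) (Fin n) ℤ) [IsC C] (F : Type) [Field F] (θ : Fin n → ℤ), ip C θ θ = 2 →
  (∀ α, ip C α α = 2 → ∃ β, ip C β β = 2 ∧ ip C α β = -1) → ∀ p : ℕ, p.Prime → CharP F p → ∀ (a b : Lm C F) (m : ℤ), Tp C θ a b m → m ≠ -2 →
  ∀ g h : Lm C F ≃ₗ[F] Lm C F, (∃ t, IsX C a t g) → (∃ t, IsX C b t h) → (h * g) ^ (p ^ 2) = 1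

end

/-! ## C. The subgroup of type `A₅` -/

/-- **IOT** (medium-long). uses: RHO. The embedding of the matrices of trace zero. Both sides are linear in `M`; `M` of trace `0` is a combination of the `E_cd` (`c ≠ d`) and the `E_kk - E_{k+1,k+1}`. `io (E_cd) = η_cd E(ρ_cd)`, `io (E_kk - E_{k+1,k+1}) = h_{α_{δ k}}` (only the sum for this `k` is `1`), `io (E_aa - E_bb) = h_{ρ_ab}` (telescoping). `br_E_E`, RHO:
`[E ρ_ab, η_cd E ρ_cd]` is `η_cd ε(ρ_ab, ρ_cd) E(ρ_ab+ρ_cd)` if the product is `-1`: `b = c`, `a ≠ d`: `= η_cd ε E ρ_ad`, and `η_ab ε η_bd = η_ad`; `a = d`, `b ≠ c`: `= η_ca ε(ρ_ab,ρ_ca) E ρ_cb`, `ε(ρ_ab,ρ_ca) = -ε(ρ_ca,ρ_ab)`; `c = b, d = a`: `-η_ba h_{ρ_ab}`, `η_ba = -η_ab`. `[E ρ_ab, h_{α_{δ k}}] = -(ρ_ab, α_{δ k}) E ρ_ab`,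
`α_{δ k} = ρ_{k,k+1}`. The form: `fm (E ρ_ab) y` is the coefficient at `ρ_ba`. -/
def IOT_stmt : Prop := ∀ (n : ℕ) (C : Matrix (Fin n) (Fin n) ℤ) [IsC C] (F : Type) [Field F] (j0 : Fin n) (θ : Fin n → ℤ) (δ : Fin 5 → Fin n),
  IsE C j0 θ δ → ∀ (a b : Fin 6), a ≠ b → ∀ M : Matrix (Fin 6) (Fin 6) F, M.trace = 0 →
  br C (E C (ro δ a b)) (io C δ M) = (et a b : F) • io C δ (Matrix.single a b 1 * M - M * Matrix.single a b 1) ∧
  fm C (E C (ro δ a b)) (io C δ M) = -((et a b : F) * M b a)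

/-- **IOI** (short-medium). uses: RHO. `io` is injective on matrices of trace zero: the coefficient at `E ρ_ab` is `η_ab M a b`; the `h`-part at the node `δ k` is `∑_(a ≤ k) M a a` (`δ` injective), so all `M a a = 0` (the last one by the trace). A matrix `m` of determinant `1` with `m M m⁻¹ = M` for all `M` of trace zero is scalar
(it commutes with all `E_ab`, `a ≠ b`). -/
def IOI_stmt : Prop := ∀ (n : ℕ) (C : Matrix (Fin n) (Fin n) ℤ) [IsC C] (F : Type) [Field F] (j0 : Fin n) (θ : Fin n → ℤ) (δ : Fin 5 → Fin n),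
  IsE C j0 θ δ → (∀ M : Matrix (Fin 6) (Fin 6) F, M.trace = 0 → io C δ M = 0 → M = 0) ∧
  ∀ m : Matrix.SpecialLinearGroup (Fin 6) F, Rm C δ 1 m → ∃ c : F, (m : Matrix (Fin 6) (Fin 6) F) = c • (1 : Matrix (Fin 6) (Fin 6) F)

/-- **RMB** (short-medium). uses: IOT. `x_{ρ_ab}(η_ab t)` acts as the conjugation by `1 + t E_ab`: `x_a(s) v = v + s[a,v] + s² fm(a,v) a`, `(1 + tE) M (1 - tE) = M + t(EM - ME) - t² E M E`, `E_ab M E_ab = M b a E_ab`, `io E_ab = η_ab E ρ_ab`, `η² = 1`. Multiplicativity: `tr(m M m⁻¹) = tr M`. -/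
def RMB_stmt : Prop := ∀ (n : ℕ) (C : Matrix (Fin n) (Fin n) ℤ) [IsC C] (F : Type) [Field F] (j0 : Fin n) (θ : Fin n → ℤ) (δ : Fin 5 → Fin n),
  IsE C j0 θ δ → (∀ (a b : Fin 6) (t : F) (g : Lm C F ≃ₗ[F] Lm C F) (m : Matrix.SpecialLinearGroup (Fin 6) F), a ≠ b →
    IsX C (E C (ro δ a b)) (et a b * t) g → (m : Matrix (Fin 6) (Fin 6) F) = 1 + Matrix.single a b t → Rm C δ g m) ∧
  (∀ (g h : Lm C F ≃ₗ[F] Lm C F) (m m' : Matrix.SpecialLinearGroup (Fin 6) F), Rm C δ g m → Rm C δ h m' → Rm C δ (g * h) (m * m')) ∧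
  (∀ (g : Lm C F ≃ₗ[F] Lm C F) (m : Matrix.SpecialLinearGroup (Fin 6) F), Rm C δ g m → Rm C δ g⁻¹ m⁻¹) ∧ Rm C δ (1 : Lm C F ≃ₗ[F] Lm C F) 1

/-- **SLT** (medium; Mathlib only). `SL_6(F)` is generated by transvections. (`Matrix.Pivot`: a matrix is a product of transvections, a diagonal matrix, transvections; a diagonal matrix of determinant `1` is a product of the `diag(.., c, .., c⁻¹, ..)`, and each of them is a product of transvections: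
`[[c,0],[0,1/c]]` = product of four or six elementary matrices.) -/
def SLT_stmt : Prop := ∀ (F : Type) [Field F], Subgroup.closure {m : Matrix.SpecialLinearGroup (Fin 6) F | ∃ (a b : Fin 6) (t : F), a ≠ b ∧
  (m : Matrix (Fin 6) (Fin 6) F) = 1 + Matrix.single a b t} = ⊤

/-- **LIF** (short). uses: RMB, SLT, RHO, EXF. Lifts: `x_{ρ_ab}(η_ab t) ∈ GE` acts as `1 + t E_ab`; closure induction. -/
def LIF_stmt : Prop := ∀ (n : ℕ) (C : Matrix (Fin n) (Fin n) ℤ) [IsC C] (F : Type) [Field F] (j0 : Fin n) (θ : Fin n → ℤ) (δ : Fin 5 → Fin n),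
  IsE C j0 θ δ → ∀ m : Matrix.SpecialLinearGroup (Fin 6) F, ∃ h ∈ GE C F, Rm C δ h m

/-! ## D. Matrices (Mathlib only) -/

/-- **CJG** (medium). Conjugacy. `y = 1 + VΦ`, `y' = 1 + V'Φ'`, `ΦV = Φ'V' = N`. There is an invertible `g` with `g V = V'`, `Φ' g = Φ`: linear maps `V : F² → F⁶` injective, `Φ : F⁶ → F²` surjective. On `im V`: `g (V x) = V' x`. `V x ∈ ker Φ` iff `N x = 0` iff `V' x ∈ ker Φ'`; extend `V x ↦ V' x` (`N x = 0`) to an isomorphism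
`ker Φ → ker Φ'` (both of dimension 4). So `g : im V + ker Φ → im V' + ker Φ'`; on a complement `w` choose `g w` with `Φ'(g w) = Φ w`. `g` is injective: `g z = 0` gives `Φ z = Φ'(g z) = 0`, `z ∈ ker Φ`, where `g` is injective. (Other way: choose a basis of `F⁶` adapted to `V`, `Φ` and show that all `(V, Φ)` with the same `N` are equivalent.) Then `g y g⁻¹ = y'`.
Determinant: choose `u ∈ ker Φ`, `u ∉ im V`, a functional `f` with `f V = 0`, `f u = 1`; `1 + (c-1) u f` commutes with `y`, has determinant `c`. -/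
def CJG_stmt : Prop := ∀ (F : Type) [Field F] (N : Matrix (Fin 2) (Fin 2) F) (y y' : Matrix (Fin 6) (Fin 6) F), Cl N y → Cl N y' →
  ∃ m : Matrix.SpecialLinearGroup (Fin 6) F, y' = (m : Matrix (Fin 6) (Fin 6) F) * y * ((m⁻¹ : Matrix.SpecialLinearGroup (Fin 6) F) : Matrix (Fin 6) (Fin 6) F)

/-- **KND** (short-medium). The three kinds. (1,0): `V = [e0, e1]`, `Φ = N [e0*, e1*]`, `N = [[0, s2],[s1, s1 s2]]`. (1,2): `y = 1 + s2 E01 + s1 E12`, `V = [e0, e1]`, `Φ = [s2 e1*; s1 e2*]`, `N = [[0, s2],[0,0]]`. (2,3): `V = [e0, e2]`, `Φ = [s2 e1*; s1 e3*]`, `N = 0`. Also `N` may be replaced by `h N h⁻¹` (`V h⁻¹`, `h Φ`). -/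
def KND_stmt : Prop := ∀ (F : Type) [Field F], (∀ (s1 s2 : F) (c d : Fin 6), s1 ≠ 0 → s2 ≠ 0 → ((c = 1 ∧ d = 0) ∨ (c = 1 ∧ d = 2) ∨ (c = 2 ∧ d = 3)) →
    ∃ N : Matrix (Fin 2) (Fin 2) F, (1 + N).det = 1 ∧ (N = 0 ∨ ∀ e : F, N ≠ e • (1 : Matrix (Fin 2) (Fin 2) F)) ∧
      Cl N ((1 + Matrix.single c d s1) * (1 + Matrix.single 0 1 s2))) ∧
  ∀ (N h h' : Matrix (Fin 2) (Fin 2) F) (y : Matrix (Fin 6) (Fin 6) F), h * h' = 1 → Cl N y → Cl (h * N * h') y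

/-- **E2C** (short-medium). Matrices of size 2. (1) `E⁻¹ = adj E` is conjugate to `E` (`det E = 1`): `adj E = J Eᵀ J⁻¹`, and `Eᵀ` is conjugate to `E`; or: nonscalar `E`, both conjugate to the companion matrix of `X² - τX + 1` by (2). (2) Nonscalar `E, E'` with determinant `1` and the same trace are conjugate: `v` not an eigenvector of `E`, basis `v, E v`. -/
def E2C_stmt : Prop := ∀ (F : Type) [Field F], (∀ E : Matrix (Fin 2) (Fin 2) F, E.det = 1 → ∃ h h' : Matrix (Fin 2) (Fin 2) F, h * h' = 1 ∧ h' * h = 1 ∧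
    E.adjugate = h * E * h') ∧
  ∀ E E' : Matrix (Fin 2) (Fin 2) F, E.det = 1 → E'.det = 1 → E.trace = E'.trace → (∀ c : F, E ≠ c • (1 : Matrix (Fin 2) (Fin 2) F)) →
    (∀ c : F, E' ≠ c • (1 : Matrix (Fin 2) (Fin 2) F)) → ∃ h h' : Matrix (Fin 2) (Fin 2) F, h * h' = 1 ∧ h' * h = 1 ∧ E' = h * E * h'

/-- **RBC** (short-medium). The class of `rb i A`: `V` = inclusion of the block `i`, `Φ = [A 0 | A 1 | A 2]`; `Φ` is surjective as its rows are independent. -/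
def RBC_stmt : Prop := ∀ (F : Type) [Field F] (i : Fin 3) (A : Fin 3 → Matrix (Fin 2) (Fin 2) F),
  (∀ u : Fin 2 → F, (∀ j, Matrix.vecMul u (A j) = 0) → u = 0) → Cl (A i) (rb i A)

/-- **EIG** (short-medium). The eigenvector. `v` in blocks `v_1, v_2, v_3 = w`: `v_2 = w' = (ζ - E) w`, `v_1 = (ζ - E⁻¹) w'` (`E⁻¹ = adj E`, `det E = 1`). `rb 2`: the block 3 becomes `w + w' + (E - 1) w = ζ w`; `rb 1`: `w' + v_1 + (E⁻¹ - 1) w' = ζ w'`; `rb 0`: `E v_1 + ζ (N2 w' + N3 w)`, and this is `ζ v_1` as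
`(ζ - E)(ζ - E⁻¹) = ζ² - τζ + 1 = ζ (τ' - τ)`, `τ' = ζ + 1/ζ`. (All matrices are mapped to `K`.) Conclusion: if `z ^ m = c` then `ζ ^ m = c` (`w ≠ 0`). The second part (two factors): `w` in the block 2, `v_1 = (ζ - E⁻¹) w`, and the vector `e_4` is fixed by `z`, so `c = 1`. -/
def EIG_stmt : Prop := ∀ (F K : Type) [Field F] [Field K] [Algebra F K] (E N2 N3 : Matrix (Fin 2) (Fin 2) F) (ζ : K) (w w' : Fin 2 → K), E.det = 1 →
  ζ ≠ 0 → w ≠ 0 →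
  ((w' = ζ • w - Matrix.mulVec (E.map (algebraMap F K)) w →
    (ζ + ζ⁻¹ - algebraMap F K E.trace) • w' = Matrix.mulVec (N2.map (algebraMap F K)) w' + Matrix.mulVec (N3.map (algebraMap F K)) w →
    ∀ (m : ℕ) (c : F), (rb 0 ![E - 1, N2, N3] * rb 1 ![1, E.adjugate - 1, 0] * rb 2 ![0, 1, E - 1]) ^ m = c • (1 : Matrix (Fin 6) (Fin 6) F) →
      ζ ^ m = algebraMap F K c)) ∧
  ((ζ + ζ⁻¹ - algebraMap F K E.trace) • w = Matrix.mulVec (N2.map (algebraMap F K)) w →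
    ∀ (m : ℕ) (c : F), (rb 0 ![E - 1, N2, 0] * rb 1 ![1, E.adjugate - 1, 0]) ^ m = c • (1 : Matrix (Fin 6) (Fin 6) F) → ζ ^ m = 1)

/-- **FL0** (short-medium). Field facts. `K` an algebraic closure of `F`, `q = |F|`. `r ∤ q`: a primitive `r`-th root of unity exists. `x ^ q = x` implies `x ∈ F` (the polynomial `X^q - X` has the `q` roots in `F`). If `ζ ^ m ∈ F` and `r ∤ q - 1` then `(ζ^m)^(q-1) = 1`, so `r ∣ m (q-1)`. -/
def FL0_stmt : Prop := ∀ (F K : Type) [Field F] [Finite F] [Field K] [Algebra F K] [IsAlgClosed K] (r : ℕ), r.Prime → ¬ r ∣ Nat.card F →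
  (∃ ζ : K, IsPrimitiveRoot ζ r) ∧ (∀ x : K, x ^ Nat.card F = x → ∃ c : F, x = algebraMap F K c) ∧
  (∀ x y : K, (x + y) ^ Nat.card F = x ^ Nat.card F + y ^ Nat.card F) ∧
  ∀ ζ : K, IsPrimitiveRoot ζ r → ¬ r ∣ Nat.card F - 1 → ∀ (m : ℕ) (c : F), ζ ^ m = algebraMap F K c → r ∣ m

/-- **FL3** (short-medium). uses: FL0. The order of `q` mod `r` is `3`. `ζ, ζ^q, ζ^(q²)` are different, `ζ^(q³) = ζ`; `(X - ζ)(X - ζ^q)(X - ζ^(q²))` has coefficients in `F` (fixed by `x ↦ x^q`), constant term `-ζ^(1+q+q²) = -1` (`r ∣ 1+q+q²`). Independence: a polynomial of degree `≤ 2` over `F` with the root `ζ` has the three roots `ζ^(q^i)`. -/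
def FL3_stmt : Prop := ∀ (F K : Type) [Field F] [Finite F] [Field K] [Algebra F K] [IsAlgClosed K] (r : ℕ), r.Prime → ¬ r ∣ Nat.card F →
  r ∣ Nat.card F ^ 3 - 1 → ¬ r ∣ Nat.card F - 1 → ∀ ζ : K, IsPrimitiveRoot ζ r →
  (∃ α β : F, ζ ^ 3 = algebraMap F K α * ζ ^ 2 - algebraMap F K β * ζ + 1) ∧
  ∀ c0 c1 c2 : F, algebraMap F K c0 + algebraMap F K c1 * ζ + algebraMap F K c2 * ζ ^ 2 = 0 → c0 = 0 ∧ c1 = 0 ∧ c2 = 0

/-- **FL6** (medium). uses: FL0. The order of `q` mod `r` is `6` (it divides `6`, and is not `1, 2, 3`). (1) For some primitive `ζ`: the minimal polynomial `∏_(i<6) (X - ζ^(q^i))` has coefficients in `F`, constant term `1`, and the trace `c5` is not `0`: the sum of all primitive `r`-th roots of unity is `-1`, and it is the sum of `(r-1)/6` such traces.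
Independence as in FL3. (2) `α = ζ + ζ^(q²) + ζ^(q⁴)`: `α^(q²) = α`, `s = α + α^q`, `d = α α^q` are in `F`; `ζ^(q³) = ζ⁻¹` (`r ∣ q³+1`), so `∏ (X - ζ^(q^(2i))) = X³ - αX² + α^q X - 1`: the second symmetric function is `∑ ζ^(-q^(2i)) = ∑ ζ^(q^(2i+3)) = α^q`. -/
def FL6_stmt : Prop := ∀ (F K : Type) [Field F] [Finite F] [Field K] [Algebra F K] [IsAlgClosed K] (r : ℕ), r.Prime → ¬ r ∣ Nat.card F →
  r ∣ Nat.card F ^ 6 - 1 → ¬ r ∣ Nat.card F ^ 2 - 1 → ¬ r ∣ Nat.card F ^ 3 - 1 →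
  (∃ ζ : K, IsPrimitiveRoot ζ r ∧ ∃ c1 c2 c3 c4 c5 : F, c5 ≠ 0 ∧
    ζ ^ 6 + algebraMap F K c5 * ζ ^ 5 + algebraMap F K c4 * ζ ^ 4 + algebraMap F K c3 * ζ ^ 3 + algebraMap F K c2 * ζ ^ 2 +
      algebraMap F K c1 * ζ + 1 = 0 ∧
    ∀ a0 a1 a2 a3 a4 a5 : F, algebraMap F K a0 + algebraMap F K a1 * ζ + algebraMap F K a2 * ζ ^ 2 + algebraMap F K a3 * ζ ^ 3 +
      algebraMap F K a4 * ζ ^ 4 + algebraMap F K a5 * ζ ^ 5 = 0 → a0 = 0 ∧ a1 = 0 ∧ a2 = 0 ∧ a3 = 0 ∧ a4 = 0 ∧ a5 = 0) ∧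
  ∀ ζ : K, IsPrimitiveRoot ζ r → ∃ (α : K) (s d : F), α ^ 2 = algebraMap F K s * α - algebraMap F K d ∧
    ζ ^ 3 - α * ζ ^ 2 + (algebraMap F K s - α) * ζ - 1 = 0

/-- **LS2** (medium). uses: FL0, E2C, RBC, KND, EIG. Two factors, `r ∣ q⁴ - 1`. `E = 1 + N`, `τ = tr E`, `τ' = ζ + 1/ζ`: `τ'^(q²) = τ'` (`ζ^(q²) = ζ^±1` as `r ∣ q²-1` or `r ∣ q²+1`), `s = τ' + τ'^q`, `d = τ'^(1+q)` in `F`. `R = [[s, -d],[1, 0]]`, `w = (τ', 1)`: `R w = τ' w`. `N2 = R - τ`. `y1 = rb 0 ![E-1, N2, 0]`, `y2 = rb 1 ![1, E⁻¹-1, 0]`.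
Classes: RBC; `y2`: the block `1` is invertible, `E⁻¹ - 1 = h (E-1) h⁻¹` (E2C). `y1`: `u (E-1) = 0`, `u (R - τ) = 0`, `u ≠ 0`: then `det (E-1) = 2 - τ = 0`, `τ = 2`, and `det (R - 2) = (2-τ')(2-τ'^q) ≠ 0` (`τ' = 2` gives `(ζ-1)² = 0`). EIG: `z^m = c` implies `ζ^m = 1`. -/
def LS2_stmt : Prop := ∀ (F : Type) [Field F] [Finite F] (r : ℕ), r.Prime → ¬ r ∣ Nat.card F → r ∣ Nat.card F ^ 4 - 1 →
  ∀ N : Matrix (Fin 2) (Fin 2) F, (1 + N).det = 1 → ∃ y1 y2 : Matrix (Fin 6) (Fin 6) F, Cl N y1 ∧ Cl N y2 ∧ NSc r (y1 * y2)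

/-- **L31** (medium). uses: FL0, FL3, E2C, RBC, KND, EIG. Three factors, order of `q` mod `r` equal to `3`. `E = 1 + N`. If `E` is not scalar, replace it by `E₀ = [[1,1],[τ-2,τ-1]]` (E2C, KND). `w = (1, ζ)`, `w' = (ζ - E₀) w = (-1, ζ² - (τ-1)ζ - (τ-2))`. With `A = α - 2τ + 3`: `N2 = [[-τ, -1],[0, A-τ]]`,
`N3 = [[-β-τ+2, α-τ],[2-τ-(τ-2)β+A(τ-2), -β-τ+3+(τ-2)α+A(τ-1)]]` satisfy the relation of EIG (use `ζ³ = αζ² - βζ + 1`, `1/ζ = ζ² - αζ + β`). Class of `y1`: if `u ≠ 0`, `u(E₀-1) = uN2 = uN3 = 0` then (`u` applied to the relation) `(τ'-τ) u·w' = 0`; `det(E₀-1) = 0` gives `τ = 2 ≠ τ'`, so `u·w' = 0`, but `w'_0, w'_1` are independent over `F`.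
`E = 1`: `N2 = (α-3)·1`, `N3 = (α-β)·1`, `w = (1, 0)`; class of `y1`: `α = 3`, `β = 3` would give `(ζ-1)³ = 0`. -/
def L31_stmt : Prop := ∀ (F : Type) [Field F] [Finite F] (r : ℕ), r.Prime → ¬ r ∣ Nat.card F → r ∣ Nat.card F ^ 3 - 1 → ¬ r ∣ Nat.card F - 1 →
  ∀ N : Matrix (Fin 2) (Fin 2) F, (1 + N).det = 1 → (N = 0 ∨ ∀ c : F, N ≠ c • (1 : Matrix (Fin 2) (Fin 2) F)) →
  ∃ y1 y2 y3 : Matrix (Fin 6) (Fin 6) F, Cl N y1 ∧ Cl N y2 ∧ Cl N y3 ∧ NSc r (y1 * y2 * y3)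

/-- **L61** (medium). uses: FL0, FL6, E2C, RBC, KND, EIG. Three factors, order `6`, `E = 1 + N` not scalar: replace `E` by `E₀ = [[0,-1],[1,τ]]`. `c = c5`, `b = (c3+τ)/c5`, `d = c4 - b`; `g = ζ³ + cζ² + dζ - τ`, `w = (g, 1)`. `P(T) = T³ - R2 T² - R1 T - E₀` with `-R2 = [[0, m2],[0, c]]`, `-R1 = [[b, m1],[0, d]]`, where
`(T³ + bT) g(T) + m2 T² + m1 T + 1` is the minimal polynomial: `m2 = c2 - b d`, `m1 = c1 + b τ` (compare: `T⁵: c`, `T⁴: d + b`, `T³: -τ + bc`, `T²: bd + m2`, `T: -bτ + m1`). `N2 = R2 - E₀ - τ`, `N3 = 1 + τE₀ + N2 E₀ + R1`. The relation of EIG is `P(ζ) w = 0` up to a factor: `(ζ-E)(ζ-E⁻¹)(ζ-E) - ζ(N2(ζ-E) + N3) = P(ζ)`. Class of `y1` as in L31: `w'_0 = ζg + 1`,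
`w'_1 = ζ - g - τ` are independent over `F` (FL6 independence). -/
def L61_stmt : Prop := ∀ (F : Type) [Field F] [Finite F] (r : ℕ), r.Prime → ¬ r ∣ Nat.card F → r ∣ Nat.card F ^ 6 - 1 →
  ¬ r ∣ Nat.card F ^ 2 - 1 → ¬ r ∣ Nat.card F ^ 3 - 1 → ∀ N : Matrix (Fin 2) (Fin 2) F, (1 + N).det = 1 →
  (∀ c : F, N ≠ c • (1 : Matrix (Fin 2) (Fin 2) F)) → ∃ y1 y2 y3 : Matrix (Fin 6) (Fin 6) F, Cl N y1 ∧ Cl N y2 ∧ Cl N y3 ∧ NSc r (y1 * y2 * y3)

/-- **L62** (short-medium). uses: FL0, FL6, RBC, EIG. Order `6`, `N = 0` (`E = 1`). `a = [[s,-d],[1,0]]`, `w = (α, 1)`, `a w = α w`. `N2 = a - 3`, `N3 = 2a - s`: the relation of EIG (`w' = (ζ-1) w`): `(ζ-1)²(ζ-1) = ζ((α-3)(ζ-1) + 2α - s)` is `ζ³ - αζ² + (s-α)ζ - 1 = 0`. Class of `y1`: `u(a-3) = 0`, `u(2a-s) = 0`, `u ≠ 0`: `s = 6`, `det (a-3) = 9 - 3s + d = 0`,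
`d = 9`, `α = 3`, `(ζ-1)³ = 0`. -/
def L62_stmt : Prop := ∀ (F : Type) [Field F] [Finite F] (r : ℕ), r.Prime → ¬ r ∣ Nat.card F → r ∣ Nat.card F ^ 6 - 1 →
  ¬ r ∣ Nat.card F ^ 2 - 1 → ¬ r ∣ Nat.card F ^ 3 - 1 → ∃ y1 y2 y3 : Matrix (Fin 6) (Fin 6) F, Cl 0 y1 ∧ Cl 0 y2 ∧ Cl 0 y3 ∧ NSc r (y1 * y2 * y3)

/-! ## E. Assembly -/

/-- **GRP** (medium; groups). `Y = x(t) t⁻¹`. In `MulAut G`: `x * conj t * x⁻¹ = conj (x t)`, so `conj Y = x * conj t * x⁻¹ * (conj t)⁻¹ = x * (conj t * x * (conj t)⁻¹)⁻¹`, and `conj (g Y g⁻¹)` is in the group generated by the conjugates of `x` by `conj g` and by `conj (g t)`. So `2 k` conjugates of `x` generate a group which contains `conj Z`,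
`Z = ∏ g_i Y g_i⁻¹`. Its order is divisible by the order of `conj Z`, hence by `r` (if `conj Z ^ m = 1` implies `r ∣ m`). `2 * k ∈ CSet r x`. -/
def GRP_stmt : Prop := ∀ (G : Type) [Group G] [Finite G] (x : MulAut G) (t : G) (r k : ℕ) (g : Fin k → G), 1 ≤ k →
  (∀ m : ℕ, (MulAut.conj (List.ofFn fun i => g i * (x t * t⁻¹) * (g i)⁻¹).prod) ^ m = 1 → r ∣ m) → 2 * k ∈ Pool.Agent.GS.CSet r x

/-- **PRD** (medium). uses: RHO, RMB, LIF, CJG, IOI, FIX, WPG, THT, NBR, TPF, EXF. From `a, a'` with `Im x a a'` and type `m ∈ {-2,-1,0}`: there are `t ∈ G` and `N` with `det (1+N) = 1` such that for all `y_1, .., y_k` in the class of `N` there are `g_i` with: `conj (∏ g_i Y g_i⁻¹) ^ j = 1` implies that `(∏ y_i)^j` is scalar. Proof. `k₁ a = c E θ`, `k₁ a' = c' E β` (Tp); THT, WPG (`ro δ 0 1`, and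
`ro δ 1 0`, `ro δ 1 2` or `ro δ 2 3` have the product `m`, RHO): `k₂ E θ = ± E ρ_01`, `k₂ E β = ± E ρ_cd`. `t` with `IsX a 1 t`; `x t` is `x_{a'}(s)`, `s ≠ 0`. `g₀ = k₂ k₁`: `g₀ Y g₀⁻¹ = x_{ρ_cd}(s₁) x_{ρ_01}(s₂)` with `s₁, s₂ ≠ 0`, so `Rm` with `y = (1 + s₁' E_cd)(1 + s₂' E_01)` (RMB), KND gives `N`. `y_i = m_i y m_i⁻¹` (CJG), `h_i` a lift of
`m_i` (LIF), `g_i = h_i g₀`: `Rm (∏ g_i Y g_i⁻¹) (∏ y_i)`. `conj Z ^ j = 1`: `Z^j` is central, so `1` (FIX), so `Rm 1 ((∏ y_i)^j)` and `(∏ y_i)^j` is scalar (IOI). Also `N = 0` or `N` is not scalar (`N = c`, `c ≠ 0` is impossible: `det Φ V`... in the three cases of KND: `s2 ≠ 0` is off the diagonal, or `N = 0`). -/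
def PRD_stmt : Prop := ∀ (n : ℕ) (C : Matrix (Fin n) (Fin n) ℤ) [IsC C] (F : Type) [Field F] (j0 : Fin n) (θ : Fin n → ℤ) (δ : Fin 5 → Fin n),
  IsE C j0 θ δ → ∀ x : MulAut (EG C F), ∀ (a a' : Lm C F) (m : ℤ), Ex C a → Ex C a' → Im C x a a' → Tp C θ a a' m → (m = -2 ∨ m = -1 ∨ m = 0) →
  ∃ (t : EG C F) (N : Matrix (Fin 2) (Fin 2) F), (1 + N).det = 1 ∧ (N = 0 ∨ ∀ c : F, N ≠ c • (1 : Matrix (Fin 2) (Fin 2) F)) ∧
    ∀ (k : ℕ) (y : Fin k → Matrix (Fin 6) (Fin 6) F), (∀ i, Cl N (y i)) → ∃ g : Fin k → EG C F, ∀ j : ℕ,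
      (MulAut.conj (List.ofFn fun i => g i * (x t * t⁻¹) * (g i)⁻¹).prod) ^ j = 1 → ∃ c : F, (List.ofFn y).prod ^ j = c • (1 : Matrix (Fin 6) (Fin 6) F)

/-- **BPW** (medium). uses: RPX, PEL, FIX, EXF. `r = p`: `β ≤ 2`. `h ∈ X_a`, `x h ≠ h`, `Y = x(h) h⁻¹ ≠ 1`, `x h ∈ X_{a'}`, so `Y^(p²) = 1` (PEL). `conj Y ≠ 1` (FIX), so its order is divisible by `p`: `conj Y ^ m = 1` implies `p ∣ m` (order a power of `p`, not `1`). GRP with `k = 1`. -/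
def BPW_stmt : Prop := ∀ (n : ℕ) (C : Matrix (Fin n) (Fin n) ℤ) [IsC C] (F : Type) [Field F] [Finite F] (j0 : Fin n) (θ : Fin n → ℤ)
  (δ : Fin 5 → Fin n), IsE C j0 θ δ → ∀ x : MulAut (EG C F), RA C x → x ≠ 1 → ∀ p : ℕ, p.Prime → CharP F p → 2 ∈ Pool.Agent.GS.CSet p x

/-- **BMN** (medium). uses: GEO, PRD, GRP, LS2, L31, L61, L62. `r ∣ q⁴-1`: `4 ∈ CSet r x`; `r ∣ q⁶-1`, `r ∤ q²-1`: `6 ∈ CSet r x`. GEO gives `a, a'`, PRD gives `t, N`; `y_1, y_2` from LS2, resp. `y_1, y_2, y_3` from L31 (order 3), L61, L62 (order 6, `N ≠ 0` / `N = 0`). GRP. -/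
def BMN_stmt : Prop := ∀ (n : ℕ) (C : Matrix (Fin n) (Fin n) ℤ) [IsC C] (F : Type) [Field F] [Finite F] (j0 : Fin n) (θ : Fin n → ℤ)
  (δ : Fin 5 → Fin n), IsE C j0 θ δ → ∀ x : MulAut (EG C F), RA C x → x ≠ 1 → ∀ r : ℕ, r.Prime → ¬ r ∣ Nat.card F →
  (r ∣ Nat.card F ^ 4 - 1 → 4 ∈ Pool.Agent.GS.CSet r x) ∧ (r ∣ Nat.card F ^ 6 - 1 → ¬ r ∣ Nat.card F ^ 2 - 1 → 6 ∈ Pool.Agent.GS.CSet r x)

end Pool.Agent.EXC
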