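import Pool.Agent.helper17.EXC.Spec

/-!
# Project EXC (MP_561ff4_al), block RA: every automorphism of `E₆(q)`, `E₇(q)`, `E₈(q)` permutes the root subgroups

`x : MulAut (EG C F)` any abstract automorphism, `F` finite of characteristic `p`. `U = UG C F`. Idea: `P` a Sylow `p`-subgroup containing `U`;
`U` fixes exactly one extremal point `⟨E θ⟩`, so the number of points is `1` mod `p`, so `P` fixes `⟨E θ⟩` and centralises `X_θ`; `C_G(U) = X_θ`;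
so `X_θ` is the centre of `P`, and automorphisms permute the Sylow subgroups. RULES as in `Spec.lean`: file `Pool/Agent/<seat>/EXC/XXX.lean`,
`import Pool.Agent.helper17.EXC.SpecRA`, `namespace Pool.Agent.EXC`.
-/

set_option autoImplicit false

open Finset

namespace Pool.Agent.EXC

section
variable {n : ℕ} {F : Type} [Field F]

/-- the group `Q` generated by the root groups `X_γ` with `(γ, θ) ≥ 1` -/
def UQ (C : Matrix (Fin n) (Fin n) ℤ) [IsC C] (F : Type) [Field F] (θ : Fin n → ℤ) : Subgroup (Lm C F ≃ₗ[F] Lm C F) :=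
  Subgroup.closure {g | ∃ γ, ip C γ γ = 2 ∧ 1 ≤ ip C γ θ ∧ ∃ t, IsX C (E C γ) t g}

end

/-- **DMN** (short-medium). uses: DIC. `θ` is positive and is the only dominant root. Let `β` be a root with `(β, α_i) ≥ 0` for all `i`. `β` is positive: otherwise `-β ≥ 0` and `-2 = (-β, β) = ∑ (-β_i) (α_i, β) ≥ 0`. Full support: if `K = {i : β_i > 0}` is not everything, `con` gives `i ∈ K`, `j ∉ K`
with `C i j < 0`, so `(β, α_j) = ∑ β_k C k j < 0`. In particular `(θ, β) = ∑ β_i (θ, α_i) = β_j0 > 0`. If it is `2`, `β = θ`. If it is `1`: `θ - β` is a root; positive: `(β, θ - β) = -1`, but it is `≥ 0`; negative: `(θ, β - θ) = -1`, but it is `≥ 0`. The rest is the contrapositive and `ip_abs_le` (`(β, α_i) = -2`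
means `β = -α_i`). -/
def DMN_stmt : Prop := ∀ (n : ℕ) (C : Matrix (Fin n) (Fin n) ℤ) [IsC C] (j0 : Fin n) (θ : Fin n → ℤ) (δ : Fin 5 → Fin n), IsE C j0 θ δ →
  Pos θ ∧ (∀ γ, Pos γ → 0 ≤ ip C γ θ) ∧ (∀ γ, ip C γ γ = 2 → 1 ≤ ip C γ θ → Pos γ) ∧
  ∀ β, ip C β β = 2 → β ≠ θ → ∃ i, ip C β (sr i) = -1 ∨ β = -sr i

/-- **UPG** (medium). uses: ACT. `U` is a `p`-group. For `v : Lm` say `v ∈ F_m` if `v.1 = 0` when `m > 0` and `v.2 γ = 0` for all roots `γ` with height `∑ γ_i < m`. For `u = x_γ(t)`, `γ` positive: `u v - v ∈ F_(m+1)` for `v ∈ F_m` (ACT or the formula of `xe`); this property is stable under products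
(`u u' v - v = (u (u' v - v) - (u' v - v)) + (u' v - v) + (u v - v)`) and inverses (or: the inverse of a generator is a generator). So `(u - 1)^N = 0` in `Module.End F Lm` for large `N`, and `u ^ (p ^ k) - 1 = (u - 1)^(p ^ k) = 0` (`sub_pow_char_pow_of_commute` / `add_pow_char_pow_of_commute`; `Module.End F Lm` has
characteristic `p`). -/
def UPG_stmt : Prop := ∀ (n : ℕ) (C : Matrix (Fin n) (Fin n) ℤ) [IsC C] (F : Type) [Field F] (p : ℕ), p.Prime → CharP F p →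
  ∀ u ∈ UG C F, ∃ k : ℕ, u ^ (p ^ k) = 1

/-- **FPU** (short-medium). uses: EXF, YST, ACT, DMN, NBR. `U` fixes `E θ` (`(γ, θ) ≥ 0` for positive `γ`), and `⟨E θ⟩` is the only fixed point. `a = c g (E β')`, YST: `a = c' u (E β)`, `u ∈ U`. So `U` fixes `⟨E β⟩` (`u⁻¹ u' u`). If `β ≠ θ`, DMN gives `i` with `(β, α_i) = -1` or `β = -α_i`; `x_{α_i}(1) E β = E β ± E (β + α_i)`, resp.
`E(-α_i) - h + E α_i`, is not a multiple of `E β` (coefficient at `β + α_i`, resp. `α_i`). So `β = θ`, `a = c' u (E θ) = c' E θ`. -/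
def FPU_stmt : Prop := ∀ (n : ℕ) (C : Matrix (Fin n) (Fin n) ℤ) [IsC C] (F : Type) [Field F] (j0 : Fin n) (θ : Fin n → ℤ) (δ : Fin 5 → Fin n),
  IsE C j0 θ δ → (∀ u ∈ UG C F, u (E C θ) = E C θ) ∧
  ∀ a : Lm C F, Ex C a → (∀ u ∈ UG C F, ∃ κ : F, u a = κ • a) → ∃ c : F, a = c • E C θ

/-- **SYL** (medium). uses: EXF, FPU, UPG, NBR. A `p`-subgroup `P` of the group which contains `U` fixes `E θ`. `Ep := {W : Submodule F (Lm C F) // ∃ a, Ex C a ∧ W = F ∙ a}` is a finite type with an action of `EG C F` (`W ↦ W.map g`; EXF: `g a` is extremal). Restricted to `U` (`(UG C F).subgroupOf (GE C F)`, a `p`-group by UPG; `U ≤ GE` by EXF):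
exactly one fixed point (FPU), so `Nat.card Ep ≡ 1` mod `p` (`IsPGroup.card_modEq_card_fixedPoints`); so `P` has a fixed point (same lemma), it is fixed by `U`, so it is `⟨E θ⟩`. So `g E θ = κ E θ` for `g ∈ P`; `g ^ (p^k) = 1`, so `κ ^ (p^k) = 1`, `(κ - 1)^(p^k) = 0`, `κ = 1`. -/
def SYL_stmt : Prop := ∀ (n : ℕ) (C : Matrix (Fin n) (Fin n) ℤ) [IsC C] (F : Type) [Field F] [Finite F] (j0 : Fin n) (θ : Fin n → ℤ)
  (δ : Fin 5 → Fin n), IsE C j0 θ δ → ∀ p : ℕ, p.Prime → CharP F p → ∀ P : Subgroup (EG C F), IsPGroup p P →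
  (∀ g : EG C F, (g : Lm C F ≃ₗ[F] Lm C F) ∈ UG C F → g ∈ P) → ∀ g ∈ P, (g : Lm C F ≃ₗ[F] Lm C F) (E C θ) = E C θ

/-- **GMN** (short-medium). uses: EXF, DMN, DIC, NBR. An element which fixes `E γ` for all positive `γ` and `E (-θ)` is `1`. `g` preserves the bracket. `E (-γ)`, `γ` positive, is fixed: induction on the height downwards (`∑ θ_i - ∑ γ_i`; or: on a bound of the height): `γ ≠ θ`: DMN gives `i` with `(γ, α_i) = -1`
(`γ = -α_i` is not positive), `γ + α_i` is a positive root, `[E α_i, E (-(γ+α_i))] = ± E (-γ)`. To see that the induction ends: the height of a root is bounded (finitely many roots). `h_{α_i} = -[E α_i, E (-α_i)]` is fixed; `Lm_ind` / `Lm_ext`. -/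
def GMN_stmt : Prop := ∀ (n : ℕ) (C : Matrix (Fin n) (Fin n) ℤ) [IsC C] (F : Type) [Field F] (j0 : Fin n) (θ : Fin n → ℤ) (δ : Fin 5 → Fin n),
  IsE C j0 θ δ → ∀ g ∈ GE C F, (∀ γ, ip C γ γ = 2 → Pos γ → g (E C γ) = E C γ) → g (E C (-θ)) = E C (-θ) → g = 1

/-- **CUB** (short-medium). uses: EXF, UNQ, YST, FPU, DMN, NBR. `g` commutes with `U`. `x_{g E γ}(1) = g x_γ(1) g⁻¹ = x_γ(1)`, so `g E γ = E γ` (UNQ). `fm(E γ, g E(-θ)) = fm(g E γ, g E(-θ)) = fm(E γ, E(-θ)) = 0` if `γ ≠ θ` (`Au`, `fm_E_E`). YST: `g E(-θ) = c u (E β)`; `1 = fm(E θ, g E(-θ)) = c fm(E θ, u E β) = c fm(u⁻¹ E θ, E β) =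
c fm(E θ, E β)`, so `β = -θ` and `c = 1`. -/
def CUB_stmt : Prop := ∀ (n : ℕ) (C : Matrix (Fin n) (Fin n) ℤ) [IsC C] (F : Type) [Field F] (j0 : Fin n) (θ : Fin n → ℤ) (δ : Fin 5 → Fin n),
  IsE C j0 θ δ → ∀ g ∈ GE C F, (∀ u ∈ UG C F, u * g = g * u) → (∀ γ, ip C γ γ = 2 → Pos γ → g (E C γ) = E C γ) ∧
  (∀ γ, ip C γ γ = 2 → Pos γ → γ ≠ θ → fm C (E C γ) (g (E C (-θ))) = 0) ∧ ∃ u ∈ UG C F, g (E C (-θ)) = u (E C (-θ))

/-- **QUN** (medium). uses: EXF, ACT, COL, DMN, NBR. `u E(-θ) = q E(-θ)` with `q ∈ Q`. The set of the products `q v`, `q ∈ Q`, `v E(-θ) = E(-θ)` is stable under left multiplication by the generators `x_γ(t)` of `U` (`Subgroup.closure_induction_left`; inverses of generators are generators): `(γ, θ) ≥ 1`: clear; `(γ, θ) = 0` (`≥ 0` by DMN): `x_γ(t) q v =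
(x_γ(t) q x_γ(-t)) (x_γ(t) v)`, `x_γ(t)` fixes `E(-θ)`; and `x_γ(t)` normalises `Q`: `x_γ(t) x_σ(s) x_γ(-t) = x_b(s)` with `b = x_γ(t) E σ = E σ` if `(γ,σ) ≥ 0`, `= E σ + tε E(γ+σ)` if `(γ,σ) = -1`, and then `x_b(s) = x_σ(s) x_{γ+σ}(tεs)` (COL, `(σ, γ+σ) = 1`), `(γ+σ, θ) = (σ, θ) ≥ 1`; `(γ,σ) = -2` would give `(σ,θ) = 0`. -/
def QUN_stmt : Prop := ∀ (n : ℕ) (C : Matrix (Fin n) (Fin n) ℤ) [IsC C] (F : Type) [Field F] (j0 : Fin n) (θ : Fin n → ℤ) (δ : Fin 5 → Fin n),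
  IsE C j0 θ δ → ∀ u ∈ UG C F, ∃ q ∈ UQ C F θ, u (E C (-θ)) = q (E C (-θ))

/-- **QNF** (medium). uses: EXF, ACT, COL, NBR. `Q / X_θ` is abelian with coordinates. Let `l` be a list of all roots `γ` with `(γ,θ) = 1` (without repetition), `X γ t` a chosen element with `IsX (E γ) t`. (1) Every `q ∈ Q` is `(∏_(γ ∈ l) X γ (c γ)) * z` with `z ∈ X_θ`: stable under left multiplication by `X γ₀ t`: `X γ₀ t` commutes
with `X γ s` up to a factor in `X_θ` (`(γ₀,γ) = -1` means `γ + γ₀ = θ`: `x_γ₀(t) x_γ(s) x_γ₀(-t) = x_γ(s) x_θ(±ts)`, otherwise `(γ₀,γ) ≥ 0`; `-2` is impossible), `X_θ` commutes with `Q` (`(θ,γ) ≥ 1`); `X γ₀ t * X γ₀ s = X γ₀ (t+s)`. (2) The coefficient of `q E(-θ)` at the root `γ - θ` (it is `fm(E(θ-γ), q E(-θ))`) is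
`± c γ`: `E(-θ)` has degree `-2` for `(·, θ)`; `x_γ(t)` changes a vector by terms of degree larger by at least 1, and `x_γ(t) E(-θ) = E(-θ) ± t E(γ-θ)`; so modulo degree `≥ 0` the factors add up; `z` changes only degrees `≥ 0`. So if all these coefficients vanish, then `c = 0` and `q = z`. -/
def QNF_stmt : Prop := ∀ (n : ℕ) (C : Matrix (Fin n) (Fin n) ℤ) [IsC C] (F : Type) [Field F] (j0 : Fin n) (θ : Fin n → ℤ) (δ : Fin 5 → Fin n),
  IsE C j0 θ δ → ∀ q ∈ UQ C F θ, (∀ γ, ip C γ γ = 2 → ip C γ θ = 1 → fm C (E C (θ - γ)) (q (E C (-θ))) = 0) → ∃ t, IsX C (E C θ) t q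

/-- **CUX** (short). uses: CUB, QUN, QNF, GMN, EXF, ACT, DMN, NBR. `C_G(U) = X_θ`. `g E(-θ) = u E(-θ) = q E(-θ)` (CUB, QUN), `q = x_θ(t)` (QNF; `θ - γ` is a positive root `≠ θ` if `(γ,θ) = 1`); `q⁻¹ g` fixes `E(-θ)` and `E γ` for `γ` positive (`x_θ` fixes them as `(θ,γ) ≥ 0`); `q ∈ GE`; GMN: `g = q`. -/
def CUX_stmt : Prop := ∀ (n : ℕ) (C : Matrix (Fin n) (Fin n) ℤ) [IsC C] (F : Type) [Field F] (j0 : Fin n) (θ : Fin n → ℤ) (δ : Fin 5 → Fin n),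
  IsE C j0 θ δ → ∀ g ∈ GE C F, (∀ u ∈ UG C F, u * g = g * u) → ∃ t, IsX C (E C θ) t g

/-- **ARA** (medium). uses: UPG, SYL, CUX, EXF, DMN, NBR, WPG. Every automorphism permutes the root subgroups. `p` the characteristic, `U' = (UG C F).subgroupOf (GE C F)` is a `p`-group, `P ≥ U'` a Sylow `p`-subgroup (`IsPGroup.exists_le_sylow`). `{g ∈ P : g commutes with P} = X_θ`: `x_θ(t) ∈ U`
(`θ` positive), `h x_θ(t) h⁻¹ = x_{hEθ}(t) = x_θ(t)` for `h ∈ P` (SYL); conversely CUX. `P.map x` is a Sylow subgroup, so it is `g P g⁻¹` (`MulAction.exists_smul_eq`, `Sylow.equivSMul` ..), so `x(X_θ) = g X_θ g⁻¹`. A root subgroup is `A = X_a`, `a = c k (E β)`, and `E β = ± k' (E θ)` (NBR, WPG), so `A = k'' X_θ k''⁻¹`,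
`x(A) = x(k'') g X_θ (x(k'') g)⁻¹`. -/
def ARA_stmt : Prop := ∀ (n : ℕ) (C : Matrix (Fin n) (Fin n) ℤ) [IsC C] (F : Type) [Field F] [Finite F] (j0 : Fin n) (θ : Fin n → ℤ)
  (δ : Fin 5 → Fin n), IsE C j0 θ δ → ∀ x : MulAut (EG C F), RA C x

end Pool.Agent.EXC
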